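import Pool.Agent.P.MP_029dcd_co.Lattice

/-! The dual line arrangement: edges, triangular faces and development of a lattice. -/

set_option autoImplicit false

namespace CubicStab

open Classical in
noncomputable def thru (A : Finset Pt) (v : Pt) : Finset Pt := A.filter fun P => On P v

noncomputable def mult (A : Finset Pt) (v : Pt) : ℕ := (thru A v).card

lemma mem_thru {A : Finset Pt} {v P : Pt} : P ∈ thru A v ↔ P ∈ A ∧ On P v := by
  classical
  simp [thru]

def IsV (A : Finset Pt) (v : Pt) : Prop := 2 ≤ mult A v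

lemma isV_of {A : Finset Pt} {v P Q : Pt} (hP : P ∈ A) (hQ : Q ∈ A) (h : P ≠ Q) (h1 : On P v)
    (h2 : On Q v) : IsV A v :=
  Finset.one_lt_card.2 ⟨P, mem_thru.2 ⟨hP, h1⟩, Q, mem_thru.2 ⟨hQ, h2⟩, h⟩

def gg (R z : Pt) : ℝ := R.1 * z.1 + R.2 - z.2

lemma gg_eq_zero {R z : Pt} : gg R z = 0 ↔ On R z := by
  unfold gg On; constructor <;> intro h <;> linarith

def Edge (A : Finset Pt) (v w : Pt) : Prop :=
  IsV A v ∧ IsV A w ∧ v.1 ≠ w.1 ∧ ∃ P ∈ A, On P v ∧ On P w ∧
    ∀ u, IsV A u → On P u → 0 ≤ (u.1 - v.1) * (u.1 - w.1)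

variable {A : Finset Pt}

lemma Edge.symm {v w : Pt} (h : Edge A v w) : Edge A w v := by
  obtain ⟨h1, h2, h3, P, hP, h4, h5, h6⟩ := h
  exact ⟨h2, h1, h3.symm, P, hP, h5, h4, fun u hu hu' => by rw [mul_comm]; exact h6 u hu hu'⟩

lemma pt_unique {P Q v w : Pt} (h : v.1 ≠ w.1) (h1 : On P v) (h2 : On P w) (h3 : On Q v)
    (h4 : On Q w) : P = Q := by
  by_contra hne
  exact h (by rw [line_unique hne h1 h3 h2 h4])

lemma on_vert_eq {P v w : Pt} (h1 : On P v) (h2 : On P w) (h : v.1 = w.1) : v = w := by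
  unfold On at h1 h2
  ext
  · exact h
  · rw [← h1, ← h2, h]

/-- a sign change of `R` between two points of the line `P` gives a vertex in between -/
lemma cross {P R v w : Pt} (hP : P ∈ A) (hR : R ∈ A) (h1 : On P v) (h2 : On P w)
    (h : gg R v * gg R w < 0) :
    ∃ u, IsV A u ∧ On P u ∧ On R u ∧ (u.1 - v.1) * (u.1 - w.1) < 0 := by
  have hv : gg R v ≠ 0 := by rintro h0; rw [h0] at h; simp at h
  have hd : gg R v - gg R w ≠ 0 := by
    intro h0
    have : gg R w = gg R v := by linarith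
    rw [this] at h
    nlinarith [mul_self_nonneg (gg R v)]
  have hx : w.1 - v.1 ≠ 0 := by
    intro h0
    have : v = w := on_vert_eq h1 h2 (by linarith)
    exact hd (by rw [this]; ring)
  set t := gg R v / (gg R v - gg R w) with ht
  have ht1 : t * (gg R v - gg R w) = gg R v := by rw [ht]; field_simp
  have ht2 : t * (t - 1) < 0 := by
    have e : t * (t - 1) * (gg R v - gg R w) ^ 2 = gg R v * gg R w := by
      have : (t - 1) * (gg R v - gg R w) = gg R w := by linarith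
      calc t * (t - 1) * (gg R v - gg R w) ^ 2
          = (t * (gg R v - gg R w)) * ((t - 1) * (gg R v - gg R w)) := by ring
        _ = _ := by rw [ht1, this]
    by_contra hc
    push Not at hc
    nlinarith [mul_nonneg hc (sq_nonneg (gg R v - gg R w))]
  let u : Pt := (v.1 + t * (w.1 - v.1), v.2 + t * (w.2 - v.2))
  have hPu : On P u := by
    unfold On at *
    simp only [u]
    linear_combination (1 - t) * h1 + t * h2
  have hRu : On R u := by
    rw [← gg_eq_zero]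
    have : gg R u = gg R v - t * (gg R v - gg R w) := by simp only [gg, u]; ring
    rw [this, ht1]; ring
  refine ⟨u, isV_of hP hR ?_ hPu hRu, hPu, hRu, ?_⟩
  · rintro rfl
    exact hv (gg_eq_zero.2 h1)
  · have : (u.1 - v.1) * (u.1 - w.1) = t * (t - 1) * (w.1 - v.1) ^ 2 := by simp only [u]; ring
    rw [this]
    exact mul_neg_of_neg_of_pos ht2 (by positivity)

lemma Edge.sep {v w R : Pt} (h : Edge A v w) (hR : R ∈ A) : 0 ≤ gg R v * gg R w := by
  obtain ⟨-, -, -, P, hP, h4, h5, h6⟩ := h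
  by_contra hc
  push Not at hc
  obtain ⟨u, hu, hu1, -, hu2⟩ := cross hP hR h4 h5 hc
  linarith [h6 u hu hu1]

def det3 (v w u : Pt) : ℝ := (w.1 - v.1) * (u.2 - v.2) - (w.2 - v.2) * (u.1 - v.1)

lemma det3_eq {R v z : Pt} (h1 : On R v) (h2 : On R z) (u : Pt) :
    det3 v z u = -(z.1 - v.1) * gg R u := by
  unfold On at h1 h2
  unfold det3 gg
  rw [← h1, ← h2]; ring

lemma det3_rot (v w u : Pt) : det3 w u v = det3 v w u := by unfold det3; ring

lemma det3_swap (v w u : Pt) : det3 v u w = -det3 v w u := by unfold det3; ring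

lemma Edge.sep' {w u v z : Pt} (h : Edge A w u) (h' : Edge A v z) :
    0 ≤ det3 v z w * det3 v z u := by
  obtain ⟨-, -, -, R, hR, h4, h5, -⟩ := h'
  rw [det3_eq h4 h5, det3_eq h4 h5]
  have := h.sep hR
  nlinarith [mul_nonneg this (sq_nonneg (z.1 - v.1))]

def Tri (A : Finset Pt) (v w u : Pt) : Prop :=
  Edge A v w ∧ Edge A w u ∧ Edge A u v ∧ 0 < det3 v w u

lemma Tri.rot {v w u : Pt} (h : Tri A v w u) : Tri A w u v :=
  ⟨h.2.1, h.2.2.1, h.1, by rw [det3_rot]; exact h.2.2.2⟩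

lemma Tri.not_on {v w u P : Pt} (h : Tri A v w u) (h1 : On P v) (h2 : On P w) : ¬ On P u := by
  intro h3
  have := h.2.2.2
  rw [det3_eq h1 h2, gg_eq_zero.2 h3] at this
  simp at this

lemma Tri.unique {v w u u' : Pt} (h : Tri A v w u) (h' : Tri A v w u') : u = u' := by
  have D := h.2.2.2
  have D' := h'.2.2.2
  have e1 := h'.2.1.sep' h.2.2.1.symm
  have e2 := h.2.1.sep' h'.2.2.1.symm
  have e3 := h'.2.2.1.sep' h.2.1
  have e4 := h.2.2.1.sep' h'.2.1
  rw [det3_swap v w u] at e1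
  rw [det3_swap v w u', det3_swap v u u'] at e2
  rw [det3_rot v w u] at e3
  rw [det3_rot v w u', det3_swap w u u'] at e4
  have f1 : det3 v u u' = 0 := by
    apply le_antisymm
    · by_contra hc; push Not at hc; nlinarith [mul_pos D hc]
    · by_contra hc; push Not at hc; nlinarith [mul_pos_of_neg_of_neg (neg_lt_zero.2 D') hc]
  have f2 : det3 w u u' = 0 := by
    apply le_antisymm
    · by_contra hc; push Not at hc; nlinarith [mul_pos D' hc]
    · by_contra hc; push Not at hc; nlinarith [mul_pos_of_neg_of_neg (neg_lt_zero.2 D) hc]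
  have g1 : det3 v w u * (u'.1 - u.1) = 0 := by
    unfold det3 at *
    linear_combination (u.1 - w.1) * f1 - (u.1 - v.1) * f2
  have g2 : det3 v w u * (u'.2 - u.2) = 0 := by
    unfold det3 at *
    linear_combination (u.2 - w.2) * f1 - (u.2 - v.2) * f2
  ext
  · have := (mul_eq_zero.1 g1).resolve_left D.ne'; linarith
  · have := (mul_eq_zero.1 g2).resolve_left D.ne'; linarith

def Btw (A : Finset Pt) (v w u : Pt) : Prop :=
  ∃ P ∈ A, On P v ∧ On P w ∧ On P u ∧ (v.1 - w.1) * (u.1 - w.1) < 0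

lemma Btw.symm {v w u : Pt} (h : Btw A v w u) : Btw A u w v := by
  obtain ⟨P, hP, h1, h2, h3, h4⟩ := h
  exact ⟨P, hP, h3, h2, h1, by rw [mul_comm]; exact h4⟩

lemma turn_two {v w0 w1 w2 R0 R1 R : Pt} (t1 : Tri A v w0 w1) (t2 : Tri A v w1 w2)
    (hR : R ∈ A) (hv : On R v) (a0 : On R0 v) (b0 : On R0 w0) (a1 : On R1 v) (b1 : On R1 w1)
    (n0 : R ≠ R0) (n1 : R ≠ R1) : ¬ On R0 w2 := by
  intro b2
  have g0 : gg R w0 ≠ 0 := fun h => n0 (pt_unique t1.1.2.2.1 hv (gg_eq_zero.1 h) a0 b0)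
  have g1 : gg R w1 ≠ 0 := fun h => n1 (pt_unique t2.1.2.2.1 hv (gg_eq_zero.1 h) a1 b1)
  have s1 := t1.2.1.sep hR
  have s2 := t2.2.1.sep hR
  have D1 := t1.2.2.2
  have D2 := t2.2.2.2
  rw [det3_eq a0 b0] at D1
  rw [det3_swap, det3_eq a0 b2] at D2
  -- the values of `R` along the line `R0`
  have e0 : gg R w0 = (R.1 - R0.1) * (w0.1 - v.1) := by
    unfold On at *; unfold gg; linear_combination hv - a0 + b0
  have e2 : gg R w2 = (R.1 - R0.1) * (w2.1 - v.1) := by
    unfold On at *; unfold gg; linear_combination hv - a0 + b2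
  have hneg : (w0.1 - v.1) * (w2.1 - v.1) < 0 := by
    by_contra hc
    push Not at hc
    nlinarith [mul_pos D1 D2, mul_nonneg hc (sq_nonneg (gg R0 w1))]
  have hs : R.1 - R0.1 ≠ 0 := by
    intro h0; rw [h0] at e0; exact g0 (by rw [e0]; ring)
  have h02 : gg R w0 * gg R w2 < 0 := by
    rw [e0, e2]
    have : (R.1 - R0.1) * (w0.1 - v.1) * ((R.1 - R0.1) * (w2.1 - v.1))
        = (R.1 - R0.1) ^ 2 * ((w0.1 - v.1) * (w2.1 - v.1)) := by ring
    rw [this]
    exact mul_neg_of_pos_of_neg (by positivity) hneg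
  have : 0 < gg R w1 ^ 2 := by positivity
  nlinarith [mul_nonneg s1 s2]

lemma half_turn {v w0 w1 w2 w3 : Pt} (hm : mult A v = 3) (t1 : Tri A v w0 w1)
    (t2 : Tri A v w1 w2) (t3 : Tri A v w2 w3) : Btw A w0 v w3 := by
  classical
  obtain ⟨-, -, -, R0, h0, a0, b0, -⟩ := t1.1
  obtain ⟨-, -, -, R1, h1, a1, b1, -⟩ := t2.1
  obtain ⟨-, -, -, R2, h2, a2, b2, -⟩ := t3.1
  obtain ⟨-, -, -, R3, h3, b3, a3, -⟩ := t3.2.2.1
  have n01 : R0 ≠ R1 := fun e => t1.not_on a0 b0 (e ▸ b1)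
  have n12 : R1 ≠ R2 := fun e => t2.not_on a1 b1 (e ▸ b2)
  have n23 : R2 ≠ R3 := fun e => t3.not_on a2 b2 (e ▸ b3)
  have n02 : R0 ≠ R2 := by
    have : ({R0, R1} : Finset Pt).card < (thru A v).card := by
      rw [Finset.card_pair n01]; unfold mult at hm; omega
    obtain ⟨R, hR, hR'⟩ := Finset.exists_mem_notMem_of_card_lt_card this
    simp only [Finset.mem_insert, Finset.mem_singleton, not_or] at hR'
    rw [mem_thru] at hR
    intro e
    exact turn_two t1 t2 hR.1 hR.2 a0 b0 a1 b1 hR'.1 hR'.2 (e ▸ b2)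
  have n13 : R1 ≠ R3 := fun e => turn_two t2 t3 h0 a0 a1 b1 a2 b2 n01 n02 (e ▸ b3)
  have hsub : ({R0, R1, R2} : Finset Pt) = thru A v := by
    apply Finset.eq_of_subset_of_card_le
    · intro P hP
      simp only [Finset.mem_insert, Finset.mem_singleton] at hP
      rcases hP with rfl | rfl | rfl <;> exact mem_thru.2 ⟨by assumption, by assumption⟩
    · rw [Finset.card_insert_of_notMem (by simp [n01, n02]), Finset.card_pair n12]
      unfold mult at hm; omega
  have : R3 ∈ ({R0, R1, R2} : Finset Pt) := by rw [hsub]; exact mem_thru.2 ⟨h3, a3⟩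
  simp only [Finset.mem_insert, Finset.mem_singleton] at this
  have e : R3 = R0 := by
    rcases this with e | e | e
    · exact e
    · exact absurd e.symm n13
    · exact absurd e.symm n23
  subst e
  refine ⟨R3, h0, b0, a0, b3, ?_⟩
  have D1 := t1.2.2.2
  have D3 := t3.2.2.2
  rw [det3_eq a0 b0] at D1
  rw [det3_swap, det3_eq a0 b3] at D3
  have s := t2.2.1.sep h0
  have x0 : w0.1 - v.1 ≠ 0 := sub_ne_zero.2 t1.1.2.2.1.symm
  have x3 : w3.1 - v.1 ≠ 0 := sub_ne_zero.2 t3.2.2.1.2.2.1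
  by_contra hc
  push Not at hc
  nlinarith [mul_pos D1 D3, mul_nonneg hc s]

lemma ray_unique {v w w' P : Pt} (h : Edge A v w) (h' : Edge A v w') (h1 : On P v) (h2 : On P w)
    (h3 : On P w') (hd : 0 < (w.1 - v.1) * (w'.1 - v.1)) : w = w' := by
  obtain ⟨-, i2, n1, Q, -, q1, q2, q3⟩ := h
  obtain ⟨-, i2', n1', Q', -, q1', q2', q3'⟩ := h'
  have e1 : Q = P := pt_unique n1 q1 q2 h1 h2
  have e2 : Q' = P := pt_unique n1' q1' q2' h1 h3
  subst e1 e2
  have s1 := q3 w' i2' h3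
  have s2 := q3' w i2 h2
  apply on_vert_eq h2 h3
  rcases lt_trichotomy w.1 w'.1 with hl | hl | hl
  · exfalso
    rcases pos_and_pos_or_neg_and_neg_of_mul_pos hd with ⟨p1, p2⟩ | ⟨p1, p2⟩ <;> nlinarith
  · exact hl
  · exfalso
    rcases pos_and_pos_or_neg_and_neg_of_mul_pos hd with ⟨p1, p2⟩ | ⟨p1, p2⟩ <;> nlinarith

end CubicStab
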