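import Pool.Agent.P.MP_029dcd_co.Poly

/-! A crude Bezout bound for two plane cubics. -/

set_option autoImplicit false

namespace CubicStab

open MvPolynomial

abbrev D1 := MvPolynomial (Fin 1) ℝ

lemma card_roots_D1 (r : D1) (hr : r ≠ 0) (d : ℕ) (hd : r.totalDegree ≤ d) (S : Finset ℝ)
    (hS : ∀ a ∈ S, eval ![a] r = 0) : S.card ≤ d := by
  by_contra hlt
  push Not at hlt
  let ρ : Polynomial ℝ := aeval ![Polynomial.X] r
  have hρdeg : ρ.natDegree ≤ d * 1 := by
    apply aeval_natDegree_le r hd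
    intro i
    fin_cases i
    simp
  have hρev : ∀ a : ℝ, ρ.eval a = eval ![a] r := by
    intro a
    have : ∀ g : D1, Polynomial.eval a (aeval ![Polynomial.X] g) = eval ![a] g := by
      intro g
      induction g using MvPolynomial.induction_on with
      | C c => simp
      | add p q hp hq => simp [hp, hq]
      | mul_X p i hp => fin_cases i; simp [hp]
    exact this r
  have hρ : ρ = 0 := by
    apply Polynomial.eq_zero_of_natDegree_lt_card_of_eval_eq_zero' ρ S
    · intro a ha
      rw [hρev]; exact hS a ha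
    · omega
  apply hr
  apply MvPolynomial.funext
  intro x
  have hx : x = ![x 0] := by
    ext i; fin_cases i; simp
  rw [hx, ← hρev, hρ]; simp

lemma totalDegree_det_le {ι : Type*} [Fintype ι] [DecidableEq ι] (M : Matrix ι ι D1) (d : ℕ)
    (h : ∀ i j, (M i j).totalDegree ≤ d) : M.det.totalDegree ≤ Fintype.card ι * d := by
  rw [Matrix.det_apply]
  apply totalDegree_finsetSum_le
  intro σ _
  refine (totalDegree_smul_le _ _).trans ?_
  refine (totalDegree_finsetProd _ _).trans ?_
  calc ∑ i, (M (σ i) i).totalDegree ≤ ∑ _i : ι, d := Finset.sum_le_sum fun i _ => h _ _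
    _ = Fintype.card ι * d := by simp

lemma exists_elim (F G : Polynomial D1) (hF : Irreducible F) (hFG : ¬ F ∣ G)
    (hF3 : F.natDegree ≤ 3) (hG3 : G.natDegree ≤ 3)
    (hFc : ∀ i, (F.coeff i).totalDegree ≤ 3) (hGc : ∀ i, (G.coeff i).totalDegree ≤ 3) :
    ∃ r : D1, r ≠ 0 ∧ r.totalDegree ≤ 18 ∧ ∃ p q : Polynomial D1,
      F * p + G * q = Polynomial.C r := by
  by_cases h0 : F.natDegree = 0
  · refine ⟨F.coeff 0, ?_, (hFc 0).trans (by norm_num), 1, 0, ?_⟩
    · intro h
      apply hF.ne_zero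
      rw [Polynomial.eq_C_of_natDegree_eq_zero h0, h]; simp
    · simpa using Polynomial.eq_C_of_natDegree_eq_zero h0
  · have hprim := hF.isPrimitive h0
    let K := FractionRing D1
    have hirr : Irreducible (F.map (algebraMap D1 K)) :=
      (hprim.irreducible_iff_irreducible_map_fraction_map (K := K)).1 hF
    have hnd : ¬ F.map (algebraMap D1 K) ∣ G.map (algebraMap D1 K) := fun h =>
      hFG (hprim.dvd_of_fraction_map_dvd_fraction_map h)
    have hcop : IsCoprime (F.map (algebraMap D1 K)) (G.map (algebraMap D1 K)) :=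
      hirr.coprime_iff_not_dvd.2 hnd
    have hinj : Function.Injective (algebraMap D1 K) := IsFractionRing.injective D1 K
    have hres := Polynomial.resultant_ne_zero _ _ hcop
    rw [Polynomial.natDegree_map_eq_of_injective hinj,
      Polynomial.natDegree_map_eq_of_injective hinj, Polynomial.resultant_map_map] at hres
    obtain ⟨p, q, -, -, hpq⟩ :=
      Polynomial.exists_mul_add_mul_eq_C_resultant F G le_rfl le_rfl (Or.inl h0)
    refine ⟨_, fun h => hres (by rw [h]; simp), ?_, p, q, hpq⟩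
    unfold Polynomial.resultant
    refine (totalDegree_det_le _ 3 ?_).trans ?_
    · intro i j
      unfold Polynomial.sylvester
      rw [Matrix.of_apply]
      induction j using Fin.addCases with
      | left j => rw [Fin.addCases_left]; split_ifs; exact hGc _; simp
      | right j => rw [Fin.addCases_right]; split_ifs; exact hFc _; simp
    · simp only [Fintype.card_fin]; omega

lemma bezout (f g : Pl) (hf : Irreducible f) (hfg : ¬ f ∣ g) (hf3 : f.totalDegree ≤ 3)
    (hg3 : g.totalDegree ≤ 3) (S : Finset Pt) (hinj : Set.InjOn Prod.fst (S : Set Pt))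
    (hS : ∀ P ∈ S, ev f P = 0 ∧ ev g P = 0) : S.card ≤ 18 := by
  classical
  let e := finSuccEquiv ℝ 1
  have hdeg : ∀ h : Pl, h.totalDegree ≤ 3 → (e h).natDegree ≤ 3 := by
    intro h hh
    rw [natDegree_finSuccEquiv]
    exact (degreeOf_le_totalDegree h 0).trans hh
  have hco : ∀ h : Pl, h.totalDegree ≤ 3 → ∀ i, ((e h).coeff i).totalDegree ≤ 3 := by
    intro h hh i
    by_cases h0 : (e h).coeff i = 0
    · rw [h0]; simp
    · have := totalDegree_coeff_finSuccEquiv_add_le h i h0
      change ((finSuccEquiv ℝ 1 h).coeff i).totalDegree ≤ 3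
      omega
  have hF : Irreducible (e f) := (MulEquiv.irreducible_iff e.toMulEquiv).2 hf
  have hFG : ¬ e f ∣ e g := fun h => hfg ((map_dvd_iff e.toMulEquiv).1 h)
  obtain ⟨r, hr0, hr, p, q, hpq⟩ :=
    exists_elim (e f) (e g) hF hFG (hdeg f hf3) (hdeg g hg3) (hco f hf3) (hco g hg3)
  rw [← Finset.card_image_of_injOn hinj]
  apply card_roots_D1 r hr0 18 hr
  intro a ha
  obtain ⟨P, hP, rfl⟩ := Finset.mem_image.1 ha
  have key : ∀ h : Pl, ev h P = Polynomial.eval P.2 (Polynomial.map (eval ![P.1]) (e h)) := by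
    intro h
    rw [← eval_eq_eval_mv_eval']
    rfl
  have h1 := (hS P hP).1
  have h2 := (hS P hP).2
  rw [key] at h1 h2
  have := congrArg (fun z => Polynomial.eval P.2 (Polynomial.map (eval ![P.1]) z)) hpq
  simp only [Polynomial.map_add, Polynomial.map_mul, Polynomial.eval_add, Polynomial.eval_mul,
    h1, h2, Polynomial.map_C, Polynomial.eval_C] at this
  simpa using this.symm

/-- a nonzero polynomial of degree at most one vanishes at few points of `A` -/
lemma card_zero_lin (A : Finset Pt) (k : ℕ) (hinj : Set.InjOn Prod.fst (A : Set Pt))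
    (hk : ∀ v : Pt, ∀ S : Finset Pt, S ⊆ A → (∀ P ∈ S, On P v) → S.card ≤ k)
    (l : Pl) (hl0 : l ≠ 0) (hl : l.totalDegree ≤ 1) (S : Finset Pt) (hSA : S ⊆ A)
    (hS : ∀ P ∈ S, ev l P = 0) : S.card ≤ k + 1 := by
  classical
  by_cases h1 : S.card ≤ 1
  · omega
  push Not at h1
  obtain ⟨P, hP, Q, hQ, hPQ⟩ := Finset.one_lt_card.1 h1
  have hne : P.1 - Q.1 ≠ 0 := fun h => hPQ (hinj (hSA hP) (hSA hQ) (sub_eq_zero.1 h))
  let v : Pt := ((Q.2 - P.2) / (P.1 - Q.1), P.1 * ((Q.2 - P.2) / (P.1 - Q.1)) + P.2)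
  have hPv : On P v := rfl
  have hQv : On Q v := by
    simp only [On, v]; field_simp; ring
  obtain ⟨c, hc, hcd⟩ := div_line l 0 hl v {P, Q} (by
    intro R hR
    simp only [Finset.mem_insert, Finset.mem_singleton] at hR
    rcases hR with rfl | rfl
    · exact ⟨hPv, hS _ hP⟩
    · exact ⟨hQv, hS _ hQ⟩) (by rw [Finset.card_pair hPQ]; norm_num)
  have : S.card ≤ k := by
    apply hk v S hSA
    intro R hR
    have h2 := hS R hR
    rw [hc, ev_mul] at h2
    rcases mul_eq_zero.1 h2 with h | h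
    · exact ev_Lp_eq_zero.1 h
    · exact absurd (by rw [hc, eq_zero_of_const hcd R h]; simp) hl0
  omega

lemma irred_or_split (f : Pl) (hf0 : f ≠ 0) (hf : f.totalDegree ≤ 3) :
    Irreducible f ∨ ∃ l g : Pl, f = l * g ∧ l.totalDegree ≤ 1 ∧ g.totalDegree ≤ 2 := by
  by_cases hu : IsUnit f
  · right
    refine ⟨1, f, by simp, by simp, ?_⟩
    have := totalDegree_le_of_dvd_of_isDomain (hu.dvd (a := 1)) one_ne_zero
    simp at this
    omega
  by_cases hi : Irreducible f
  · exact Or.inl hi
  right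
  rw [irreducible_iff] at hi
  push Not at hi
  obtain ⟨a, b, hab, ha, hb⟩ := hi hu
  have ha0 : a ≠ 0 := by rintro rfl; simp at hab; exact hf0 hab
  have hb0 : b ≠ 0 := by rintro rfl; simp at hab; exact hf0 hab
  have hpos : ∀ c : Pl, c ≠ 0 → ¬ IsUnit c → 1 ≤ c.totalDegree := by
    intro c hc0 hc
    by_contra h
    have h0 : c.totalDegree = 0 := by omega
    rw [totalDegree_eq_zero_iff_eq_C] at h0
    apply hc
    rw [h0]
    apply IsUnit.map
    rw [isUnit_iff_ne_zero]
    intro h1
    rw [h1] at h0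
    exact hc0 (by simpa using h0)
  have h1 := hpos a ha0 ha
  have h2 := hpos b hb0 hb
  rw [hab, totalDegree_mul_of_isDomain ha0 hb0] at hf
  by_cases h : a.totalDegree ≤ 1
  · exact ⟨a, b, hab, h, by omega⟩
  · exact ⟨b, a, by rw [hab, mul_comm], by omega, by omega⟩

end CubicStab
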