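import Pool.Agent.P.MP_029dcd_co.Scale

/-! The main estimate in generic coordinates. -/

set_option autoImplicit false

namespace CubicStab

open Finset

theorem core (k : ℕ) (η : ℝ) (hη : 0 < η) (hη1 : η ≤ 1) : ∃ ε : ℝ, 0 < ε ∧ ∀ A : Finset Pt,
    Set.InjOn Prod.fst (A : Set Pt) → (∀ v, mult A v ≤ k) → 0 < A.card →
    (t2 A : ℝ) ≤ ε * (A.card : ℝ) ^ 2 → (A.card : ℝ) ≤ ε * (A.card : ℝ) ^ 2 →
    ∃ f : Pl, f ≠ 0 ∧ f.totalDegree ≤ 3 ∧ (1 - η) * (A.card : ℝ) ≤ (zs A f).card := by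
  set K : ℝ := 2 * k ^ 2 + 4 * k with hK
  have hK0 : 0 ≤ K := by positivity
  obtain ⟨u0, hu0⟩ := exists_nat_ge
    ((1152 + 4 * ((k ^ 2 + 2) * (2 * K + 1)) + 16 * (k * K)) / η)
  obtain ⟨u, hu⟩ : ∃ u, u = u0 + 1152 + 6 * k + 8 := ⟨_, rfl⟩
  have hu1 : (1 : ℝ) ≤ u := by exact_mod_cast (by omega : 1 ≤ u)
  have hu' : (0 : ℝ) < u := by linarith
  have hηu : 1152 + 4 * (((k : ℝ) ^ 2 + 2) * (2 * K + 1)) + 16 * (k * K) ≤ η * u := by
    rw [div_le_iff₀ hη] at hu0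
    have : (u0 : ℝ) ≤ u := by exact_mod_cast (by omega : u0 ≤ u)
    nlinarith
  have p1 : 0 ≤ ((k : ℝ) ^ 2 + 2) * (2 * K + 1) := by positivity
  have p2 : 0 ≤ (k : ℝ) * K := by positivity
  obtain ⟨T, hT⟩ : ∃ T : ℝ, T = 3 ^ (20 * u ^ 3 + 140) := ⟨_, rfl⟩
  have hT0 : 0 < T := by rw [hT]; positivity
  obtain ⟨C0, hC0⟩ : ∃ C0 : ℝ, C0 = 1 + k * (2 + T * 36 + u ^ 3) := ⟨_, rfl⟩
  have hC0' : 0 < C0 := by rw [hC0]; positivity
  refine ⟨min (η / (4 * C0)) (1 / (u : ℝ) ^ 4), lt_min (by positivity) (by positivity), ?_⟩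
  intro A hinj hk hn ht2 hnn
  set ε := min (η / (4 * C0)) (1 / (u : ℝ) ^ 4) with hε
  have hε1 : ε * C0 ≤ η / 4 := by
    have : ε ≤ η / (4 * C0) := min_le_left _ _
    rw [le_div_iff₀ (by positivity)] at this
    linarith
  set n : ℝ := (A.card : ℝ) with hn'
  have hn0 : 0 < n := by rw [hn']; exact_mod_cast hn
  have hε2 : (u : ℝ) ^ 4 ≤ n := by
    have h1 : ε ≤ 1 / (u : ℝ) ^ 4 := min_le_right _ _
    rw [le_div_iff₀ (by positivity)] at h1
    have h2 : 1 ≤ ε * n := by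
      have : n * 1 ≤ n * (ε * n) := by nlinarith
      exact le_of_mul_le_mul_left this hn0
    have h3 : (0 : ℝ) ≤ (u : ℝ) ^ 4 := by positivity
    nlinarith [mul_le_mul_of_nonneg_left h2 h3, mul_le_mul_of_nonneg_right h1 hn0.le]
  by_contra hcon
  push Not at hcon
  obtain ⟨lab, -, l2, l3⟩ := scales hinj hk (η / 4) ((1 - η) * n) (by positivity) (by linarith)
    (mul_nonneg (by linarith) hn0.le) (fun S hS => by
      obtain ⟨f, hf, hf3, rfl⟩ := mem_Col.1 hS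
      exact (hcon f hf.ne_zero hf3).le) A.card u (by omega) (by omega)
    (by nlinarith) (by rw [hn'] at hε2; exact_mod_cast hε2) (by omega)
  have hb := base_count hinj hk lab (u ^ 3)
    (le_trans (by omega) (Nat.le_self_pow (by norm_num) u))
  set D : ℝ := ((Dom A lab (u ^ 3)).card : ℝ) with hD
  set X : ℝ := (XX A lab : ℝ) with hX
  have hX0 : 0 ≤ X := by positivity
  have b1 : X * (u : ℝ) ^ 4 ≤ 2 * K * n ^ 2 := by rw [hX, hK, hn']; exact_mod_cast l2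
  have b2 : n ^ 2 ≤ D + n + k * (2 * n + T * (12 * t2 A + 24 * n) +
      (u : ℝ) ^ 3 * (n + X)) := by rw [hX, hD, hn', hT]; exact_mod_cast hb
  clear hT hb
  have b3 : ((k : ℝ) ^ 2 + 2) * (2 * K + 1) * n ^ 2 / u ≤ η / 4 * n ^ 2 := by
    rw [div_le_iff₀ hu']
    nlinarith [mul_le_mul_of_nonneg_right (show ((k : ℝ) ^ 2 + 2) * (2 * K + 1) ≤ η / 4 * u by
      linarith) (sq_nonneg n)]
  have b4 : k * ((u : ℝ) ^ 3 * X) ≤ η / 8 * n ^ 2 := by
    have c1 : k * ((u : ℝ) ^ 3 * X) * u ≤ η / 8 * n ^ 2 * u := by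
      have d1 := mul_le_mul_of_nonneg_left b1 (Nat.cast_nonneg (α := ℝ) k)
      have d2 := mul_le_mul_of_nonneg_right (show 2 * ((k : ℝ) * K) ≤ η / 8 * u by linarith)
        (sq_nonneg n)
      nlinarith
    exact le_of_mul_le_mul_right c1 hu'
  have b5 : n + k * (2 * n + T * (12 * t2 A + 24 * n) + (u : ℝ) ^ 3 * n) ≤
      η / 4 * n ^ 2 := by
    calc n + k * (2 * n + T * (12 * t2 A + 24 * n) + (u : ℝ) ^ 3 * n)
        ≤ ε * n ^ 2 + k * (2 * (ε * n ^ 2) + T *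
          (12 * (ε * n ^ 2) + 24 * (ε * n ^ 2)) + (u : ℝ) ^ 3 * (ε * n ^ 2)) := by gcongr
      _ = ε * C0 * n ^ 2 := by rw [hC0]; ring
      _ ≤ η / 4 * n ^ 2 := mul_le_mul_of_nonneg_right hε1 (sq_nonneg n)
  have b6 : (1 - 3 * η / 8) * n ^ 2 ≤ D := by linarith
  have b7 := mul_le_mul_of_nonneg_left b6 (show 0 ≤ 1 - η / 4 by linarith)
  have b8 : 0 < η * n ^ 2 := by positivity
  have b9 : 0 ≤ η * (η * n ^ 2) := by positivity
  nlinarith

open MvPolynomial in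
lemma totalDegree_aeval_lin (g : Fin 2 → Pl) (hg : ∀ i, (g i).totalDegree ≤ 1) (f : Pl) :
    (aeval g f).totalDegree ≤ f.totalDegree := by
  rw [aeval_def, eval₂_eq]
  apply totalDegree_finsetSum_le
  intro d hd
  refine (totalDegree_mul _ _).trans ?_
  rw [algebraMap_eq, totalDegree_C, zero_add]
  refine (totalDegree_finsetProd _ _).trans (le_trans ?_ (le_totalDegree hd))
  apply sum_le_sum
  intro i _
  refine (totalDegree_pow _ _).trans ?_
  have := Nat.mul_le_mul_left (d i) (hg i)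
  simpa using this

def sh (σ : ℝ) (P : Pt) : Pt := (P.1 + σ * P.2, P.2)

lemma sh_inj (σ : ℝ) : Function.Injective (sh σ) := by
  intro P Q h
  simp only [sh, Prod.mk.injEq] at h
  refine Prod.ext ?_ h.2
  have := h.1
  rw [h.2] at this
  linarith

lemma exists_shear (A : Finset Pt) : ∃ σ : ℝ, ∀ P ∈ A, ∀ Q ∈ A, (sh σ P).1 = (sh σ Q).1 → P = Q := by
  classical
  obtain ⟨σ, hσ⟩ := Infinite.exists_notMem_finset
    ((A ×ˢ A).image fun q : Pt × Pt => (q.2.1 - q.1.1) / (q.1.2 - q.2.2))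
  refine ⟨σ, fun P hP Q hQ h => ?_⟩
  simp only [sh] at h
  by_cases e : P.2 = Q.2
  · refine Prod.ext ?_ e
    rw [e] at h; linarith
  · exfalso
    apply hσ
    refine mem_image.2 ⟨(P, Q), mem_product.2 ⟨hP, hQ⟩, ?_⟩
    have := sub_ne_zero.2 e
    field_simp
    linarith

lemma collinear_of_on (σ : ℝ) (v : Pt) (S : Set Pt) (h : ∀ P ∈ S, On (sh σ P) v) :
    Collinear ℝ S := by
  rw [collinear_iff_exists_forall_eq_smul_vadd]
  refine ⟨(-σ * v.2, v.2), (1 + σ * v.1, -v.1), fun P hP => ⟨P.1 + σ * P.2, ?_⟩⟩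
  have := h P hP
  simp only [On, sh] at this
  ext
  · simp only [vadd_eq_add, Prod.fst_add, Prod.smul_fst, smul_eq_mul]
    linear_combination (-σ) * this
  · simp only [vadd_eq_add, Prod.snd_add, Prod.smul_snd, smul_eq_mul]
    linear_combination this

lemma on_of_collinear (σ : ℝ) (v : Pt) {P Q z : Pt} (hPQ : P ≠ Q) (hP : On (sh σ P) v)
    (hQ : On (sh σ Q) v) (h : Collinear ℝ ({P, Q, z} : Set Pt)) : On (sh σ z) v := by
  rw [collinear_iff_of_mem (p₀ := P) (by simp)] at h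
  obtain ⟨d, hd⟩ := h
  obtain ⟨r1, h1⟩ := hd Q (by simp)
  obtain ⟨r2, h2⟩ := hd z (by simp)
  have hr : r1 ≠ 0 := by
    rintro rfl
    exact hPQ (by simpa using h1.symm)
  subst h1 h2
  simp only [On, sh, vadd_eq_add, Prod.fst_add, Prod.smul_fst, smul_eq_mul, Prod.snd_add,
    Prod.smul_snd] at *
  have : r1 * ((d.1 + σ * d.2) * v.1 + d.2) = 0 := by linear_combination hQ - hP
  have := (mul_eq_zero.1 this).resolve_left hr
  linear_combination hP + r2 * this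

end CubicStab
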