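import Pool.Agent.P.MP_029dcd_co.Melchior

/-! A cutting of the arrangement by levels and time. -/

set_option autoImplicit false

namespace CubicStab

open Finset

variable {A : Finset Pt}

open Classical in
noncomputable def RE (A : Finset Pt) : Finset (Pt × Pt) := (DD A).filter fun d => d.1.1 < d.2.1

lemma mem_RE {d : Pt × Pt} : d ∈ RE A ↔ Edge A d.1 d.2 ∧ d.1.1 < d.2.1 := by
  classical
  unfold RE
  rw [mem_filter, mem_DD]

lemma RE_ne {d : Pt × Pt} (h : d ∈ RE A) : NE A 1 (ln d.1 d.2) d.1 d.2 := by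
  rw [mem_RE] at h
  exact ⟨h.1, h.1.ln.2.1, h.1.ln.2.2, by linarith [h.2]⟩

lemma card_RE_le {k : ℕ} (hk : ∀ v, mult A v ≤ k) : (RE A).card ≤ 2 * k * A.card ^ 2 := by
  classical
  have h1 : (DD A).card ≤ ∑ v ∈ VV A, 2 * mult A v := by
    have := out_le_sum (A := A) (fun _ => True)
    simpa using this
  have h2 : ∑ v ∈ VV A, 2 * mult A v ≤ (VV A).card * (2 * k) := by
    rw [← smul_eq_mul]
    exact sum_le_card_nsmul _ _ _ fun v _ => by have := hk v; omega
  have h3 := card_VV_le (A := A)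
  have h4 : (RE A).card ≤ (DD A).card := card_filter_le _ _
  nlinarith

open Classical in
noncomputable def XX {ι : Type*} (A : Finset Pt) (lab : Pt → ι) : ℕ :=
  ((RE A).filter fun d => lab d.1 ≠ lab d.2).card

open Classical in
noncomputable def lev (A : Finset Pt) (z : Pt) : ℕ := (A.filter fun R => gg R z < 0).card

lemma lev_le {k : ℕ} (hk : ∀ v, mult A v ≤ k) {P x y : Pt} (hP : P ∈ A) (hx : On P x)
    (hy : On P y) (hno : ∀ u, IsV A u → On P u → 0 ≤ (u.1 - x.1) * (u.1 - y.1)) :
    lev A y ≤ lev A x + k := by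
  classical
  have : A.filter (fun R => gg R y < 0) ⊆ A.filter (fun R => gg R x < 0) ∪ thru A x := by
    intro R hR
    rw [mem_filter] at hR
    rw [mem_union, mem_filter, mem_thru]
    rcases lt_trichotomy (gg R x) 0 with h | h | h
    · exact Or.inl ⟨hR.1, h⟩
    · exact Or.inr ⟨hR.1, gg_eq_zero.1 h⟩
    · obtain ⟨u, hu, hu1, -, hu2⟩ := cross hP hR.1 hx hy (mul_neg_of_pos_of_neg h hR.2)
      linarith [hno u hu hu1]
  have h1 := (card_le_card this).trans (card_union_le _ _)
  have h2 := hk x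
  unfold mult at h2
  unfold lev
  omega

lemma band_count (a b k H : ℕ) (hab : a ≤ b) (hk : b ≤ a + k) :
    ((range H).filter fun o => (a + o) / H ≠ (b + o) / H).card ≤ k := by
  have : (Ioc a b).card ≤ k := by rw [Nat.card_Ioc]; omega
  refine le_trans ?_ this
  apply card_le_card_of_injOn (fun o => (b + o) / H * H - o)
  · intro o ho
    simp only [coe_filter, Set.mem_ofPred_eq, mem_range] at ho
    have hH : 0 < H := by omega
    have h1 : (a + o) / H ≤ (b + o) / H := Nat.div_le_div_right (by omega)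
    have h2 : (a + o) / H < (b + o) / H := lt_of_le_of_ne h1 ho.2
    have h3 := (Nat.div_lt_iff_lt_mul hH).1 h2
    have h4 := Nat.div_mul_le_self (b + o) H
    simp only [coe_Ioc, Set.mem_Ioc]
    omega
  · intro o ho o' ho' e
    simp only [coe_filter, Set.mem_ofPred_eq, mem_range] at ho ho'
    have hH : 0 < H := by omega
    have key : ∀ o, o < H → (a + o) / H ≠ (b + o) / H → o ≤ (b + o) / H * H := by
      intro o _ h
      have h1 : (a + o) / H ≤ (b + o) / H := Nat.div_le_div_right (by omega)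
      have h2 : (a + o) / H < (b + o) / H := lt_of_le_of_ne h1 h
      have h3 := (Nat.div_lt_iff_lt_mul hH).1 h2
      omega
    have k1 := key o ho.1 ho.2
    have k2 := key o' ho'.1 ho'.2
    simp only at e
    have e2 : o' + (b + o) / H * H = o + (b + o') / H * H := by omega
    have := congrArg (· % H) e2
    simp only [Nat.add_mul_mod_self_right] at this
    rw [Nat.mod_eq_of_lt ho.1, Nat.mod_eq_of_lt ho'.1] at this
    exact this.symm

lemma exists_offset {k : ℕ} (hk : ∀ v, mult A v ≤ k) (H : ℕ) (hH : 0 < H) :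
    ∃ o, o < H ∧ XX A (fun v => (lev A v + o) / H) * H ≤ k * (RE A).card := by
  classical
  have h1 : ∑ o ∈ range H, XX A (fun v => (lev A v + o) / H) * H ≤
      ∑ _o ∈ range H, k * (RE A).card := by
    rw [← sum_mul, sum_const, card_range, smul_eq_mul, mul_comm H]
    apply Nat.mul_le_mul_right
    have : ∀ o, XX A (fun v => (lev A v + o) / H) =
        ∑ d ∈ RE A, if (lev A d.1 + o) / H ≠ (lev A d.2 + o) / H then 1 else 0 := by
      intro o
      unfold XX
      rw [← card_filter]
      congr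
    simp only [this]
    rw [sum_comm, mul_comm, ← smul_eq_mul]
    apply sum_le_card_nsmul
    intro d hd
    rw [← card_filter]
    have n := RE_ne hd
    have hP := n.1.ln.1
    have l1 := lev_le hk hP n.2.1 n.2.2.1 (fun u hu hu' => n.nov hu hu')
    have l2 := lev_le hk hP n.2.2.1 n.2.1 (fun u hu hu' => by rw [mul_comm]; exact n.nov hu hu')
    rcases le_total (lev A d.1) (lev A d.2) with h | h
    · exact band_count _ _ k H h l1
    · simp only [ne_comm (a := (lev A d.1 + _) / H)]
      exact band_count _ _ k H h l2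
  obtain ⟨o, ho, h⟩ := exists_le_of_sum_le (nonempty_range_iff.2 hH.ne') h1
  exact ⟨o, mem_range.1 ho, h⟩

open Classical in
noncomputable def rank (A : Finset Pt) (β : Pt → ℕ) (v : Pt) : ℕ :=
  ((VV A).filter fun u => β u = β v ∧ toLex u < toLex v).card

lemma rank_le {β : Pt → ℕ} {u v : Pt} (hb : β u = β v) (h : toLex u ≤ toLex v) :
    rank A β u ≤ rank A β v := by
  classical
  apply card_le_card
  intro z hz
  simp only [mem_filter] at hz ⊢
  exact ⟨hz.1, hz.2.1.trans hb, hz.2.2.trans_le h⟩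

lemma rank_lt {β : Pt → ℕ} {u v : Pt} (hu : u ∈ VV A) (hb : β u = β v) (h : toLex u < toLex v) :
    rank A β u < rank A β v := by
  classical
  apply card_lt_card
  rw [ssubset_iff_of_subset]
  · exact ⟨u, by simp [hu, hb, h], by simp⟩
  · intro z hz
    simp only [mem_filter] at hz ⊢
    exact ⟨hz.1, hz.2.1.trans hb, hz.2.2.trans h⟩

lemma lex_of_lt {u v : Pt} (h : u.1 < v.1) : toLex u < toLex v :=
  Prod.Lex.toLex_lt_toLex.2 (Or.inl h)

lemma le_of_lex {u v : Pt} (h : toLex u < toLex v) : u.1 ≤ v.1 := by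
  rcases Prod.Lex.toLex_lt_toLex.1 h with h | h
  · exact h.le
  · exact h.1.le

open Classical in
lemma class_le (β : Pt → ℕ) (h : ℕ) (hh : 0 < h) (l : ℕ × ℕ) :
    ((VV A).filter fun v => (β v, rank A β v / h) = l).card ≤ h := by
  refine le_trans ?_ (card_range h).le
  apply card_le_card_of_injOn (fun v => rank A β v % h)
  · intro v _
    simp only [coe_range, Set.mem_Iio]
    exact Nat.mod_lt _ hh
  · intro u hu v hv e
    simp only [coe_filter, Set.mem_ofPred_eq] at hu hv
    have e1 := hu.2.trans hv.2.symm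
    simp only [Prod.mk.injEq] at e1 e
    have e2 : rank A β u = rank A β v := by
      rw [← Nat.div_add_mod (rank A β u) h, ← Nat.div_add_mod (rank A β v) h, e1.2, e]
    rcases lt_trichotomy (toLex u) (toLex v) with hl | hl | hl
    · exact absurd e2 (rank_lt hu.1 e1.1 hl).ne
    · exact toLex.injective hl
    · exact absurd e2.symm (rank_lt hv.1 e1.1.symm hl).ne

lemma lev_window {k : ℕ} (hk : ∀ v, mult A v ≤ k) (x : ℝ) (T : Finset ℕ) (W : Finset Pt)
    (hW : W ⊆ A) (hT : ∀ P ∈ W, lev A (x, P.1 * x + P.2) ∈ T) : W.card ≤ k * T.card := by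
  classical
  apply card_le_mul_card_image_of_maps_to hT
  intro m _
  rcases (W.filter fun P => lev A (x, P.1 * x + P.2) = m).eq_empty_or_nonempty with h | ⟨P, hP⟩
  · rw [h]; simp
  · refine le_trans (card_le_card ?_) (hk (x, P.1 * x + P.2))
    intro Q hQ
    rw [mem_filter] at hP hQ
    rw [mem_thru]
    refine ⟨hW hQ.1, ?_⟩
    have key : ∀ P ∈ A, ∀ Q : Pt, P.1 * x + P.2 < Q.1 * x + Q.2 →
        lev A (x, P.1 * x + P.2) < lev A (x, Q.1 * x + Q.2) := by
      intro P hP Q h
      apply card_lt_card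
      rw [ssubset_iff_of_subset]
      · refine ⟨P, mem_filter.2 ⟨hP, by simp only [gg]; linarith⟩, ?_⟩
        simp [gg]
      · intro z hz
        simp only [mem_filter, gg] at hz ⊢
        exact ⟨hz.1, by linarith [hz.2]⟩
    unfold On
    rcases lt_trichotomy (Q.1 * x + Q.2) (P.1 * x + P.2) with h | h | h
    · have := key Q (hW hQ.1) P h; omega
    · exact h
    · have := key P (hW hP.1) Q h; omega

open Classical in
lemma fibre_le {k : ℕ} (hk : ∀ v, mult A v ≤ k) (H o h b c : ℕ) (ho : o < H) (hh : 0 < h)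
    (β : Pt → ℕ) (hβ : ∀ v, β v = (lev A v + o) / H) :
    ((RE A).filter fun d => β d.1 = b ∧ β d.2 = b ∧ rank A β d.1 / h < c ∧
      rank A β d.2 / h = c).card ≤ k * (2 * H + 2 * k) := by
  set F := (RE A).filter fun d => β d.1 = b ∧ β d.2 = b ∧ rank A β d.1 / h < c ∧
      rank A β d.2 / h = c with hF
  have mF : ∀ d ∈ F, d ∈ RE A ∧ β d.1 = b ∧ β d.2 = b ∧ rank A β d.1 < c * h ∧
      c * h ≤ rank A β d.2 := by
    intro d hd
    obtain ⟨h1, h2, h3, h4, h5⟩ := mem_filter.1 hd
    exact ⟨h1, h2, h3, (Nat.div_lt_iff_lt_mul hh).1 h4, (Nat.le_div_iff_mul_le hh).1 h5.ge⟩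
  rcases F.eq_empty_or_nonempty with h0 | h0
  · rw [h0]; simp
  obtain ⟨d0, hd0, hmax⟩ := exists_max_image F (fun d => d.1.1) h0
  have hx : ∀ d ∈ F, d0.1.1 ≤ d.2.1 := by
    intro d hd
    obtain ⟨-, a1, -, a2, -⟩ := mF d0 hd0
    obtain ⟨-, -, b1, -, b2⟩ := mF d hd
    apply le_of_lex
    by_contra hc
    have := rank_le (A := A) (b1.trans a1.symm) (not_lt.1 hc)
    omega
  have hinj : Set.InjOn (fun d : Pt × Pt => ln d.1 d.2) (F : Set (Pt × Pt)) := by
    have key : ∀ d ∈ F, ∀ d' ∈ F, ln d.1 d.2 = ln d'.1 d'.2 → ¬ d.1.1 < d'.1.1 := by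
      intro d hd d' hd' e hl
      obtain ⟨a0, a1, a2, a3, a4⟩ := mF d hd
      obtain ⟨b0, b1, b2, b3, b4⟩ := mF d' hd'
      have n := RE_ne a0
      have n' := RE_ne b0
      rw [← e] at n'
      have h1 := n.nov n'.1.1 n'.2.1
      have h2 : d.2.1 ≤ d'.1.1 := by
        have := (mul_nonneg_iff_of_pos_left (sub_pos.2 hl)).1 h1
        linarith
      have h3 : toLex d.2 ≤ toLex d'.1 := by
        rcases h2.lt_or_eq with h | h
        · exact (lex_of_lt h).le
        · rw [on_vert_eq n.2.2.1 n'.2.1 h]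
      have := rank_le (A := A) (a2.trans b1.symm) h3
      omega
    intro d hd d' hd' e
    have e1 : d.1.1 = d'.1.1 :=
      le_antisymm (not_lt.1 (key d' hd' d hd e.symm)) (not_lt.1 (key d hd d' hd' e))
    have n := RE_ne (mF d hd).1
    have n' := RE_ne (mF d' hd').1
    simp only at e
    rw [← e] at n'
    have e2 : d.1 = d'.1 := on_vert_eq n.2.1 n'.2.1 e1
    rw [← e2] at n'
    exact Prod.ext e2 (n.unique n')
  rw [← card_image_of_injOn hinj]
  refine le_trans (lev_window hk d0.1.1 (Ico (b * H - H - k) (b * H + H + k)) _ ?_ ?_) ?_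
  · intro P hP
    obtain ⟨d, hd, rfl⟩ := mem_image.1 hP
    exact (RE_ne (mF d hd).1).1.ln.1
  · intro P hP
    obtain ⟨d, hd, rfl⟩ := mem_image.1 hP
    obtain ⟨a0, a1, -, -, -⟩ := mF d hd
    have n := RE_ne a0
    have x1 := hmax d hd
    have x2 := hx d hd
    have hno : ∀ u, IsV A u → On (ln d.1 d.2) u → 0 ≤ (u.1 - d.1.1) * (u.1 - d0.1.1) := by
      intro u hu hu'
      have := n.nov hu hu'
      by_cases hz : 0 < u.1 - d.1.1
      · have := (mul_nonneg_iff_of_pos_left hz).1 this
        exact mul_nonneg hz.le (by linarith)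
      · push Not at hz
        exact mul_nonneg_of_nonpos_of_nonpos hz (by linarith)
    have l1 := lev_le hk (y := (d0.1.1, (ln d.1 d.2).1 * d0.1.1 + (ln d.1 d.2).2))
      n.1.ln.1 n.2.1 rfl hno
    have l2 := lev_le hk (x := (d0.1.1, (ln d.1 d.2).1 * d0.1.1 + (ln d.1 d.2).2))
      n.1.ln.1 rfl n.2.1 (fun u hu hu' => by rw [mul_comm]; exact hno u hu hu')
    rw [hβ] at a1
    have hH : 0 < H := by omega
    have c1 := (Nat.le_div_iff_mul_le hH).1 a1.ge
    have c2 := (Nat.div_lt_iff_lt_mul hH).1 (a1.le.trans_lt (Nat.lt_succ_self b))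
    rw [Nat.succ_mul] at c2
    rw [mem_Ico]
    omega
  · apply Nat.mul_le_mul_left
    rw [Nat.card_Ico]
    omega

open Classical in
theorem exists_cut {k : ℕ} (hk : ∀ v, mult A v ≤ k) (H : ℕ) (hH : 0 < H) (hkH : k ≤ H) :
    ∃ lab : Pt → ℕ × ℕ, (∀ l, ((VV A).filter fun v => lab v = l).card ≤ H ^ 2) ∧
      XX A lab * H ≤ (2 * k ^ 2 + 4 * k) * A.card ^ 2 := by
  obtain ⟨o, ho, hX⟩ := exists_offset hk H hH
  set β : Pt → ℕ := fun v => (lev A v + o) / H with hβ
  have hh : 0 < H ^ 2 := by positivity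
  refine ⟨fun v => (β v, rank A β v / H ^ 2), fun l => by convert class_le β (H ^ 2) hh l, ?_⟩
  let E1 := (RE A).filter fun d => β d.1 ≠ β d.2
  let E2 := (RE A).filter fun d => β d.1 = β d.2 ∧ rank A β d.1 / H ^ 2 < rank A β d.2 / H ^ 2
  have hE1 : E1.card = XX A β := by
    unfold XX; congr 1; ext d; simp only [E1, mem_filter]
  have hsub : XX A (fun v => (β v, rank A β v / H ^ 2)) ≤ E1.card + E2.card := by
    refine le_trans (card_le_card ?_) (card_union_le _ _)
    intro d hd
    simp only [mem_filter] at hd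
    simp only [E1, E2, mem_union, mem_filter]
    by_cases hb : β d.1 = β d.2
    · refine Or.inr ⟨hd.1, hb, lt_of_le_of_ne ?_ fun e => hd.2 (Prod.ext hb e)⟩
      exact Nat.div_le_div_right (rank_le hb (lex_of_lt (mem_RE.1 hd.1).2).le)
    · exact Or.inl ⟨hd.1, hb⟩
  let Im := E2.image fun d => (β d.2, rank A β d.2 / H ^ 2)
  have h2 : E2.card ≤ k * (2 * H + 2 * k) * Im.card := by
    apply card_le_mul_card_image
    rintro ⟨b, c⟩ _
    refine le_trans (card_le_card ?_) (fibre_le hk H o (H ^ 2) b c ho hh β (fun v => rfl))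
    intro d hd
    simp only [E2, mem_filter, Prod.mk.injEq] at hd ⊢
    obtain ⟨⟨a1, a2, a3⟩, a4, a5⟩ := hd
    exact ⟨a1, a2.trans a4, a4, a5 ▸ a3, a5⟩
  have h3 : Im.card * H ^ 2 ≤ (VV A).card := by
    rw [card_eq_sum_card_fiberwise (f := Prod.fst) (s := Im) (t := (VV A).image β),
      card_eq_sum_card_image β (VV A), sum_mul]
    · apply sum_le_sum
      intro b _
      refine le_trans (Nat.mul_le_mul_right _ ?_) (Nat.div_mul_le_self _ (H ^ 2))
      have : (Icc 1 (((VV A).filter fun v => β v = b).card / H ^ 2)).card =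
          ((VV A).filter fun v => β v = b).card / H ^ 2 := by simp
      rw [← this]
      apply card_le_card_of_injOn Prod.snd
      · intro l hl
        simp only [coe_filter, Set.mem_ofPred_eq] at hl
        obtain ⟨d, hd, rfl⟩ := mem_image.1 hl.1
        simp only [E2, mem_filter] at hd
        simp only [coe_Icc, Set.mem_Icc]
        refine ⟨Nat.succ_le_of_lt (lt_of_le_of_lt (Nat.zero_le _) hd.2.2),
          Nat.div_le_div_right (card_le_card ?_)⟩
        intro u hu
        simp only [mem_filter] at hu ⊢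
        exact ⟨hu.1, hu.2.1.trans hl.2⟩
      · intro l hl l' hl' e
        simp only [coe_filter, Set.mem_ofPred_eq] at hl hl'
        exact Prod.ext (hl.2.trans hl'.2.symm) e
    · intro l hl
      obtain ⟨d, hd, rfl⟩ := mem_image.1 (mem_coe.1 hl)
      simp only [E2, mem_filter] at hd
      exact mem_coe.2 (mem_image.2 ⟨d.2, mem_VV.2 (mem_RE.1 hd.1).1.2.1, rfl⟩)
  have h4 := card_VV_le (A := A)
  have h5 := card_RE_le hk
  have h6 : E2.card * H * H ≤ 4 * k * A.card ^ 2 * H := by
    calc E2.card * H * H = E2.card * H ^ 2 := by ring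
      _ ≤ k * (2 * H + 2 * k) * Im.card * H ^ 2 := Nat.mul_le_mul_right _ h2
      _ = k * (2 * H + 2 * k) * (Im.card * H ^ 2) := by ring
      _ ≤ k * (2 * H + 2 * H) * A.card ^ 2 := by gcongr; exact h3.trans h4
      _ = 4 * k * A.card ^ 2 * H := by ring
  have h7 := Nat.le_of_mul_le_mul_right h6 hH
  calc XX A (fun v => (β v, rank A β v / H ^ 2)) * H ≤ (E1.card + E2.card) * H :=
        Nat.mul_le_mul_right _ hsub
    _ = XX A β * H + E2.card * H := by rw [hE1]; ring
    _ ≤ k * (2 * k * A.card ^ 2) + 4 * k * A.card ^ 2 :=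
        add_le_add (hX.trans (Nat.mul_le_mul_left _ h5)) h7
    _ = _ := by ring

end CubicStab
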