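import Pool.Agent.P.MP_029dcd_co.Arr

/-! Developing a triangular lattice from a good dart. -/

set_option autoImplicit false

namespace CubicStab

variable {A : Finset Pt}

open Classical in
noncomputable def apex (A : Finset Pt) (v w : Pt) : Pt :=
  if h : ∃ u, Tri A v w u then h.choose else v

lemma apex_tri {v w : Pt} (h : ∃ u, Tri A v w u) : Tri A v w (apex A v w) := by
  unfold apex
  rw [dif_pos h]
  exact h.choose_spec

def Gd (A : Finset Pt) : ℕ → Pt → Pt → Prop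
  | 0, v, w => Edge A v w ∧ mult A v = 3 ∧ ∃ u, Tri A v w u
  | m + 1, v, w => Gd A m v w ∧ Gd A m w v ∧ ∀ u, Tri A v w u → Gd A m w u

lemma Gd.mono {m m' : ℕ} {v w : Pt} (h : Gd A m' v w) (hm : m ≤ m') : Gd A m v w := by
  induction m' with
  | zero => obtain rfl : m = 0 := by omega
            exact h
  | succ n ih =>
    rcases Nat.lt_or_ge m (n + 1) with h1 | h1
    · exact ih h.1 (by omega)
    · obtain rfl : m = n + 1 := by omega
      exact h

lemma Gd.tri {m : ℕ} {v w : Pt} (h : Gd A m v w) : Tri A v w (apex A v w) :=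
  apex_tri (h.mono (Nat.zero_le m)).2.2

lemma Gd.mult3 {m : ℕ} {v w : Pt} (h : Gd A m v w) : mult A v = 3 :=
  (h.mono (Nat.zero_le m)).2.1

lemma Gd.edge {m : ℕ} {v w : Pt} (h : Gd A m v w) : Edge A v w :=
  (h.mono (Nat.zero_le m)).1

lemma Gd.rot {m : ℕ} {v w : Pt} (h : Gd A (m + 3) v w) : Gd A m v (apex A v w) := by
  have t := h.tri
  have h1 : Gd A (m + 2) w (apex A v w) := h.2.2 _ t
  have h2 : Gd A (m + 1) (apex A v w) v := h1.2.2 _ t.rot
  exact h2.2.1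

noncomputable def nxt (A : Finset Pt) (v w : Pt) : Pt := apex A w (apex A w (apex A w v))

lemma Gd.nxt {m : ℕ} {v w : Pt} (h : Gd A (m + 10) v w) :
    Gd A m w (nxt A v w) ∧ Btw A v w (nxt A v w) := by
  have h0 : Gd A (m + 9) w v := h.2.1
  have h1 : Gd A (m + 6) w (apex A w v) := Gd.rot (m := m + 6) h0
  have h2 : Gd A (m + 3) w (apex A w (apex A w v)) := Gd.rot (m := m + 3) h1
  exact ⟨h2.rot, half_turn h0.mult3 h0.tri h1.tri h2.tri⟩

noncomputable def rowp (A : Finset Pt) (v0 v1 : Pt) : ℕ → Pt × Pt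
  | 0 => (v0, v1)
  | i + 1 => ((rowp A v0 v1 i).2, nxt A (rowp A v0 v1 i).1 (rowp A v0 v1 i).2)

noncomputable def dev (A : Finset Pt) (v0 v1 : Pt) : ℕ → ℕ → Pt
  | 0, i => (rowp A v0 v1 i).1
  | r + 1, i => apex A (dev A v0 v1 r i) (dev A v0 v1 r (i + 1))

section

variable {M : ℕ} {v0 v1 : Pt}

lemma dev_row (h : Gd A M v0 v1) (i : ℕ) :
    ∀ m, 10 * i + m ≤ M → Gd A m (dev A v0 v1 0 i) (dev A v0 v1 0 (i + 1)) := by
  induction i with
  | zero => intro m hm; exact h.mono (by omega)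
  | succ i ih =>
    intro m hm
    exact (ih (m + 10) (by omega)).nxt.1

lemma down_of {v w0 z : Pt} (hG : Gd A 6 v w0) (hB : Btw A z v w0)
    (hU : Tri A z v (apex A z v)) :
    apex A v (apex A v w0) = apex A z v := by
  have g1 : Gd A 3 v (apex A v w0) := Gd.rot (m := 3) hG
  have g2 : Gd A 0 v (apex A v (apex A v w0)) := Gd.rot (m := 0) g1
  obtain ⟨P, hP, p1, p2, p3, p4⟩ := half_turn hG.mult3 hG.tri g1.tri g2.tri
  obtain ⟨Q, hQ, q1, q2, q3, q4⟩ := hB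
  have e : Q = P := pt_unique hG.edge.2.2.1 q2 q3 p2 p1
  subst e
  have e2 : apex A v (apex A v (apex A v w0)) = z := by
    apply ray_unique g2.tri.2.2.1.symm hU.1.symm p2 p3 q1
    have x0 : w0.1 - v.1 ≠ 0 := sub_ne_zero.2 hG.edge.2.2.1.symm
    have : 0 < (w0.1 - v.1) ^ 2 := by positivity
    by_contra hc
    push Not at hc
    nlinarith [mul_pos_of_neg_of_neg p4 q4, mul_nonneg_of_nonpos_of_nonpos hc (neg_nonpos.2 this.le)]
  have t := g2.tri
  rw [e2] at t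
  exact t.rot.rot.unique hU

lemma dev_inv (h : Gd A M v0 v1) (r : ℕ) :
    (∀ i m, 20 * r + 10 * i + m ≤ M →
      Gd A m (dev A v0 v1 r i) (dev A v0 v1 r (i + 1))) ∧
    (∀ i, 20 * r + 10 * i + 10 ≤ M →
      Btw A (dev A v0 v1 r i) (dev A v0 v1 r (i + 1)) (dev A v0 v1 r (i + 2))) := by
  induction r with
  | zero =>
    refine ⟨fun i m hm => dev_row h i m (by omega), fun i hi => ?_⟩
    exact (dev_row h i (0 + 10) (by omega)).nxt.2
  | succ r ih =>
    obtain ⟨G, B⟩ := ih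
    have D : ∀ i, 20 * r + 10 * i + 16 ≤ M →
        apex A (dev A v0 v1 r (i + 1)) (dev A v0 v1 (r + 1) (i + 1)) = dev A v0 v1 (r + 1) i :=
      fun i hi => down_of (G (i + 1) 6 (by omega)) (B i (by omega)) (G i 0 (by omega)).tri
    have D' : ∀ i, 20 * r + 10 * i + 16 ≤ M →
        Tri A (dev A v0 v1 r (i + 1)) (dev A v0 v1 (r + 1) (i + 1)) (dev A v0 v1 (r + 1) i) := by
      intro i hi
      rw [← D i hi]
      exact (Gd.rot (m := 0) (G (i + 1) 3 (by omega))).tri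
    have G' : ∀ i m, 20 * (r + 1) + 10 * i + m ≤ M →
        Gd A m (dev A v0 v1 (r + 1) i) (dev A v0 v1 (r + 1) (i + 1)) := by
      intro i m hm
      have g1 : Gd A (m + 2) (dev A v0 v1 r (i + 1)) (dev A v0 v1 (r + 1) (i + 1)) :=
        Gd.rot (m := m + 2) (G (i + 1) (m + 5) (by omega))
      have g2 : Gd A (m + 1) (dev A v0 v1 (r + 1) (i + 1)) (dev A v0 v1 (r + 1) i) :=
        g1.2.2 _ (D' i (by omega))
      exact g2.2.1
    refine ⟨G', fun i hi => ?_⟩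
    exact half_turn (G' (i + 1) 0 (by omega)).mult3 (D' i (by omega)).rot
      (G (i + 1) 0 (by omega)).tri.rot.rot (D' (i + 1) (by omega)).rot.rot

lemma dev_up (h : Gd A M v0 v1) (r i : ℕ) (hi : 20 * r + 10 * i ≤ M) :
    Tri A (dev A v0 v1 r i) (dev A v0 v1 r (i + 1)) (dev A v0 v1 (r + 1) i) :=
  ((dev_inv h r).1 i 0 (by omega)).tri

lemma dev_mult (h : Gd A M v0 v1) (r i : ℕ) (hi : 20 * r + 10 * i ≤ M) :
    mult A (dev A v0 v1 r i) = 3 :=
  ((dev_inv h r).1 i 0 (by omega)).mult3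

lemma dev_down (h : Gd A M v0 v1) (r i : ℕ) (hi : 20 * r + 10 * i + 16 ≤ M) :
    Tri A (dev A v0 v1 r (i + 1)) (dev A v0 v1 (r + 1) (i + 1)) (dev A v0 v1 (r + 1) i) := by
  obtain ⟨G, B⟩ := dev_inv h r
  have D := down_of (G (i + 1) 6 (by omega)) (B i (by omega)) (G i 0 (by omega)).tri
  have t := (Gd.rot (m := 0) (G (i + 1) 3 (by omega))).tri
  rw [D] at t
  exact t

lemma dev_col (h : Gd A M v0 v1) (r i : ℕ) (hi : 20 * r + 10 * i + 20 ≤ M) :
    Btw A (dev A v0 v1 r i) (dev A v0 v1 (r + 1) i) (dev A v0 v1 (r + 2) i) :=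
  half_turn (dev_mult h (r + 1) i (by omega)) (dev_up h r i (by omega)).rot.rot
    (dev_down h r i (by omega)).rot.rot (dev_up h (r + 1) i (by omega))

lemma dev_diag (h : Gd A M v0 v1) (r i : ℕ) (hi : 20 * r + 10 * i + 30 ≤ M) :
    Btw A (dev A v0 v1 r (i + 2)) (dev A v0 v1 (r + 1) (i + 1)) (dev A v0 v1 (r + 2) i) :=
  (half_turn (dev_mult h (r + 1) (i + 1) (by omega)) (dev_up h (r + 1) i (by omega)).rot
    (dev_down h r i (by omega)).rot (dev_up h r (i + 1) (by omega)).rot.rot).symm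

end

lemma chain (z : ℕ → Pt) (P : Pt) (L : ℕ) (h0 : On P (z 0)) (h1 : On P (z 1))
    (hx : (z 0).1 ≠ (z 1).1) (hB : ∀ i, i + 2 ≤ L → Btw A (z i) (z (i + 1)) (z (i + 2))) :
    ∀ i, i + 1 ≤ L → On P (z i) ∧ On P (z (i + 1)) ∧
      0 < ((z 1).1 - (z 0).1) * ((z (i + 1)).1 - (z i).1) := by
  intro i
  induction i with
  | zero =>
    intro _
    exact ⟨h0, h1, mul_self_pos.2 (sub_ne_zero.2 hx.symm)⟩
  | succ i ih =>
    intro hi
    obtain ⟨p1, p2, p3⟩ := ih (by omega)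
    obtain ⟨Q, -, q1, q2, q3, q4⟩ := hB i hi
    have hne : (z i).1 ≠ (z (i + 1)).1 := by
      intro e; rw [e] at p3; simp at p3
    have e : Q = P := pt_unique hne q1 q2 p1 p2
    subst e
    refine ⟨p2, q3, ?_⟩
    have : 0 < ((z (i + 1)).1 - (z i).1) ^ 2 := by
      have := sub_ne_zero.2 hne.symm
      positivity
    by_contra hc
    push Not at hc
    nlinarith [mul_pos p3 (neg_pos.2 q4), mul_nonneg (neg_nonneg.2 hc) this.le]

lemma chain_inj (z : ℕ → Pt) (s : ℝ) (L : ℕ)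
    (h : ∀ i, i + 1 ≤ L → 0 < s * ((z (i + 1)).1 - (z i).1)) (i j : ℕ) (hi : i ≤ L) (hj : j ≤ L)
    (e : z i = z j) : i = j := by
  have key : ∀ a d, a + d + 1 ≤ L → 0 < s * ((z (a + d + 1)).1 - (z a).1) := by
    intro a d
    induction d with
    | zero => intro hd; exact h a hd
    | succ d ih =>
      intro hd
      have h1 := ih (by omega)
      have h2 := h (a + d + 1) hd
      have : a + (d + 1) + 1 = a + d + 1 + 1 := by omega
      rw [this]; linarith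
  rcases lt_trichotomy i j with hl | hl | hl
  · obtain ⟨d, rfl⟩ := Nat.exists_eq_add_of_lt hl
    have := key i d hj
    rw [← e] at this; simp at this
  · exact hl
  · obtain ⟨d, rfl⟩ := Nat.exists_eq_add_of_lt hl
    have := key j d hi
    rw [e] at this; simp at this

noncomputable def ln (v w : Pt) : Pt :=
  ((w.2 - v.2) / (w.1 - v.1), v.2 - (w.2 - v.2) / (w.1 - v.1) * v.1)

lemma Edge.ln {v w : Pt} (h : Edge A v w) : ln v w ∈ A ∧ On (ln v w) v ∧ On (ln v w) w := by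
  obtain ⟨-, -, hx, P, hP, h1, h2, -⟩ := h
  have hx' : w.1 - v.1 ≠ 0 := sub_ne_zero.2 hx.symm
  have a1 : On (CubicStab.ln v w) v := by simp [On, CubicStab.ln]
  have a2 : On (CubicStab.ln v w) w := by
    simp only [On, CubicStab.ln]; field_simp; ring
  exact ⟨pt_unique hx h1 h2 a1 a2 ▸ hP, a1, a2⟩

theorem develop {M N : ℕ} {v0 v1 : Pt} (h : Gd A M v0 v1) (hN : 20 * N + 40 ≤ M) :
    ∃ a b c : ℕ → Pt, ∃ φ : ℕ → ℕ → Pt, ∃ z : ℕ → Pt, Lat A N a b c φ ∧ On (a 0) v0 ∧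
      On (a 0) v1 ∧ z 0 = v0 ∧ z 1 = v1 ∧ (∀ i, φ 0 i = z (i + 1)) ∧
      ∀ i, i ≤ N → Edge A (z i) (z (i + 1)) ∧ On (a 0) (z (i + 1)) ∧
        0 < (v1.1 - v0.1) * ((z (i + 1)).1 - (z i).1) := by
  classical
  set ψ := dev A v0 v1 with hψ
  let a : ℕ → Pt := fun r => ln (ψ r 0) (ψ r 1)
  let b : ℕ → Pt := fun i => ln (ψ 0 (i + 1)) (ψ 1 (i + 1))
  let c : ℕ → Pt := fun j => ln (ψ 0 (j + 1)) (ψ 1 j)
  have ea : ∀ r, r ≤ N → Edge A (ψ r 0) (ψ r 1) := fun r hr => (dev_up h r 0 (by omega)).1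
  have eb : ∀ i, i ≤ N → Edge A (ψ 0 (i + 1)) (ψ 1 (i + 1)) :=
    fun i hi => (dev_up h 0 (i + 1) (by omega)).2.2.1.symm
  have ec : ∀ j, j ≤ N → Edge A (ψ 0 (j + 1)) (ψ 1 j) :=
    fun j hj => (dev_up h 0 j (by omega)).2.1
  have ca : ∀ r, r ≤ N → ∀ i, i + 1 ≤ N - r + 2 → On (a r) (ψ r i) ∧ On (a r) (ψ r (i + 1)) ∧
      0 < ((ψ r 1).1 - (ψ r 0).1) * ((ψ r (i + 1)).1 - (ψ r i).1) := fun r hr =>
    chain (A := A) (fun i => ψ r i) (a r) (N - r + 2) (ea r hr).ln.2.1 (ea r hr).ln.2.2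
      (ea r hr).2.2.1 (fun i hi => (dev_inv h r).2 i (by omega))
  have cb : ∀ i, i ≤ N → ∀ r, r + 1 ≤ N - i + 1 →
      On (b i) (ψ r (i + 1)) ∧ On (b i) (ψ (r + 1) (i + 1)) ∧
      0 < ((ψ 1 (i + 1)).1 - (ψ 0 (i + 1)).1) * ((ψ (r + 1) (i + 1)).1 - (ψ r (i + 1)).1) :=
    fun i hi => chain (A := A) (fun r => ψ r (i + 1)) (b i) (N - i + 1) (eb i hi).ln.2.1
      (eb i hi).ln.2.2 (eb i hi).2.2.1 (fun r hr => dev_col h r (i + 1) (by omega))
  have cc : ∀ j, j ≤ N → ∀ r, r + 1 ≤ j + 1 →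
      On (c j) (ψ r (j + 1 - r)) ∧ On (c j) (ψ (r + 1) (j + 1 - (r + 1))) := by
    intro j hj r hr
    have := chain (A := A) (fun r => ψ r (j + 1 - r)) (c j) (j + 1) (ec j hj).ln.2.1
      (ec j hj).ln.2.2 (ec j hj).2.2.1 (fun r hr => by
        have e1 : j + 1 - r = (j - r - 1) + 2 := by omega
        have e2 : j + 1 - (r + 1) = (j - r - 1) + 1 := by omega
        have e3 : j + 1 - (r + 2) = (j - r - 1) := by omega
        simp only [e1, e2, e3]
        exact dev_diag h r _ (by omega)) r hr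
    exact ⟨this.1, this.2.1⟩
  have oa1 : ∀ r i, r + i ≤ N → On (a r) (ψ r i) ∧ On (a r) (ψ r (i + 1)) ∧
      On (a r) (ψ r (i + 2)) := fun r i hi =>
    ⟨(ca r (by omega) i (by omega)).1, (ca r (by omega) i (by omega)).2.1,
      (ca r (by omega) (i + 1) (by omega)).2.1⟩
  have ob1 : ∀ r i, r + i ≤ N → On (b i) (ψ r (i + 1)) ∧ On (b i) (ψ (r + 1) (i + 1)) :=
    fun r i hi => ⟨(cb i (by omega) r (by omega)).1, (cb i (by omega) r (by omega)).2.1⟩
  have oc1 : ∀ r i, r + i ≤ N → On (c (r + i)) (ψ r (i + 1)) ∧ On (c (r + i)) (ψ (r + 1) i) := by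
    intro r i hi
    have := cc (r + i) hi r (by omega)
    have e1 : r + i + 1 - r = i + 1 := by omega
    have e2 : r + i + 1 - (r + 1) = i := by omega
    rw [e1, e2] at this
    exact this
  have hab : ∀ r i, r + i ≤ N → a r ≠ b i := fun r i hi e =>
    (dev_up h r (i + 1) (by omega)).not_on (oa1 r i hi).2.1 (oa1 r i hi).2.2 (e ▸ (ob1 r i hi).2)
  have hac : ∀ r i, r + i ≤ N → a r ≠ c (r + i) := fun r i hi e =>
    (dev_up h r i (by omega)).not_on (oa1 r i hi).1 (oa1 r i hi).2.1 (e ▸ (oc1 r i hi).2)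
  have hbc : ∀ r i, r + i ≤ N → b i ≠ c (r + i) := fun r i hi e =>
    (dev_down h r i (by omega)).not_on (ob1 r i hi).1 (ob1 r i hi).2 (e ▸ (oc1 r i hi).2)
  have ha : ∀ r, r ≤ N → a r ∈ A := fun r hr => (ea r hr).ln.1
  have hb : ∀ i, i ≤ N → b i ∈ A := fun i hi => (eb i hi).ln.1
  have hc : ∀ j, j ≤ N → c j ∈ A := fun j hj => (ec j hj).ln.1
  refine ⟨a, b, c, fun r i => ψ r (i + 1), fun i => ψ 0 i, ⟨ha, hb, hc, ?_, hab, hac, hbc, ?_, ?_⟩,
    (oa1 0 0 (by omega)).1, (oa1 0 0 (by omega)).2.1, rfl, rfl, fun i => rfl, ?_⟩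
  · intro r i hi P hP
    have hsub : ({a r, b i, c (r + i)} : Finset Pt) = thru A (ψ r (i + 1)) := by
      apply Finset.eq_of_subset_of_card_le
      · intro Q hQ
        simp only [Finset.mem_insert, Finset.mem_singleton] at hQ
        rcases hQ with rfl | rfl | rfl
        · exact mem_thru.2 ⟨ha r (by omega), (oa1 r i hi).2.1⟩
        · exact mem_thru.2 ⟨hb i (by omega), (ob1 r i hi).1⟩
        · exact mem_thru.2 ⟨hc _ hi, (oc1 r i hi).1⟩
      · rw [Finset.card_insert_of_notMem (by simp [hab r i hi, hac r i hi]),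
          Finset.card_pair (hbc r i hi)]
        have := dev_mult h r (i + 1) (by omega)
        unfold mult at this
        rw [← hψ] at this
        omega
    have : P ∈ thru A (ψ r (i + 1)) ↔ On P (ψ r (i + 1)) := by simp [mem_thru, hP]
    rw [← this, ← hsub]
    simp
  · intro i j hi hj e
    have := chain_inj (fun i => ψ 0 i) _ (N + 2) (fun i hi => (ca 0 (by omega) i hi).2.2)
      (i + 1) (j + 1) (by omega) (by omega) e
    omega
  · intro r s hr hs e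
    exact chain_inj (fun r => ψ r (0 + 1)) _ (N + 1) (fun r hr => (cb 0 (by omega) r hr).2.2)
      r s (by omega) (by omega) e
  · intro i hi
    exact ⟨(dev_up h 0 i (by omega)).1, (ca 0 (by omega) i (by omega)).2.1,
      (ca 0 (by omega) i (by omega)).2.2⟩

end CubicStab
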