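import Pool.Agent.P.MP_029dcd_co.Develop

/-! Sectors and corners of the arrangement (geometric part of Melchior's count). -/

set_option autoImplicit false

namespace CubicStab

variable {A : Finset Pt}

noncomputable def xpt (P Q : Pt) : Pt :=
  ((Q.2 - P.2) / (P.1 - Q.1), P.1 * ((Q.2 - P.2) / (P.1 - Q.1)) + P.2)

lemma xpt_on {P Q : Pt} (h : P.1 ≠ Q.1) : On P (xpt P Q) ∧ On Q (xpt P Q) := by
  have := sub_ne_zero.2 h
  refine ⟨rfl, ?_⟩
  simp only [On, xpt]; field_simp; ring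

open Classical in
noncomputable def VV (A : Finset Pt) : Finset Pt :=
  ((A ×ˢ A).image fun q => xpt q.1 q.2).filter (IsV A)

lemma mem_VV {v : Pt} : v ∈ VV A ↔ IsV A v := by
  classical
  unfold VV
  rw [Finset.mem_filter]
  refine ⟨fun h => h.2, fun h => ⟨?_, h⟩⟩
  obtain ⟨P, hP, Q, hQ, hPQ⟩ := Finset.one_lt_card.1 h
  rw [mem_thru] at hP hQ
  have hne : P.1 ≠ Q.1 := fun e => hPQ (on_fst_inj hP.2 hQ.2 e)
  exact Finset.mem_image.2 ⟨(P, Q), Finset.mem_product.2 ⟨hP.1, hQ.1⟩,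
    line_unique hPQ (xpt_on hne).1 (xpt_on hne).2 hP.2 hQ.2⟩

lemma card_VV_le : (VV A).card ≤ A.card ^ 2 := by
  classical
  unfold VV
  refine (Finset.card_filter_le _ _).trans (Finset.card_image_le.trans ?_)
  rw [Finset.card_product, sq]

def Sec (A : Finset Pt) (v P Q : Pt) : Prop :=
  P ∈ A ∧ Q ∈ A ∧ On P v ∧ On Q v ∧ P.1 < Q.1 ∧ ∀ R ∈ A, On R v → ¬ (P.1 < R.1 ∧ R.1 < Q.1)

def NE (A : Finset Pt) (s : ℝ) (P v w : Pt) : Prop :=
  Edge A v w ∧ On P v ∧ On P w ∧ 0 < s * (w.1 - v.1)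

lemma NE.nov {s : ℝ} {P v w u : Pt} (h : NE A s P v w) (hu : IsV A u) (hPu : On P u) :
    0 ≤ (u.1 - v.1) * (u.1 - w.1) := by
  obtain ⟨⟨-, -, hx, Q, -, q1, q2, q3⟩, p1, p2, -⟩ := h
  exact q3 u hu (pt_unique hx p1 p2 q1 q2 ▸ hPu)

lemma exists_NE {s : ℝ} {P v u : Pt} (hP : P ∈ A) (hv : IsV A v) (hPv : On P v) (hu : IsV A u)
    (hPu : On P u) (h : 0 < s * (u.1 - v.1)) : ∃ w, NE A s P v w := by
  classical
  obtain ⟨w, hw, hmin⟩ := Finset.exists_min_image
    ((VV A).filter fun z => On P z ∧ 0 < s * (z.1 - v.1)) (fun z => s * z.1)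
    ⟨u, Finset.mem_filter.2 ⟨mem_VV.2 hu, hPu, h⟩⟩
  rw [Finset.mem_filter, mem_VV] at hw
  refine ⟨w, ⟨hv, hw.1, ?_, P, hP, hPv, hw.2.1, ?_⟩, hPv, hw.2.1, hw.2.2⟩
  · intro e
    have := hw.2.2
    rw [e] at this; simp at this
  · intro z hz hPz
    have hs : s ≠ 0 := by rintro rfl; simp at h
    have hs2 : 0 < s ^ 2 := by positivity
    have key : 0 ≤ (s * (z.1 - v.1)) * (s * (z.1 - w.1)) := by
      by_cases hz' : 0 < s * (z.1 - v.1)
      · have := hmin z (Finset.mem_filter.2 ⟨mem_VV.2 hz, hPz, hz'⟩)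
        exact mul_nonneg hz'.le (by linarith)
      · push Not at hz'
        exact mul_nonneg_of_nonpos_of_nonpos hz' (by linarith [hw.2.2])
    by_contra hc
    push Not at hc
    nlinarith [mul_pos hs2 (neg_pos.2 hc)]

lemma NE.unique {s : ℝ} {P v w w' : Pt} (h : NE A s P v w) (h' : NE A s P v w') : w = w' := by
  apply ray_unique h.1 h'.1 h.2.1 h.2.2.1 h'.2.2.1
  have h1 := h.2.2.2
  have h2 := h'.2.2.2
  by_contra hc
  push Not at hc
  nlinarith [mul_pos h1 h2, mul_nonneg (sq_nonneg s) (neg_nonneg.2 hc)]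

lemma NE.unique' {s : ℝ} {P v v' w : Pt} (h : NE A s P v w) (h' : NE A s P v' w) : v = v' := by
  apply ray_unique h.1.symm h'.1.symm h.2.2.1 h.2.1 h'.2.1
  have h1 := h.2.2.2
  have h2 := h'.2.2.2
  by_contra hc
  push Not at hc
  nlinarith [mul_pos h1 h2, mul_nonneg (sq_nonneg s) (neg_nonneg.2 hc)]

lemma Sec.left_unique {v P P' Q : Pt} (h : Sec A v P Q) (h' : Sec A v P' Q) : P = P' := by
  apply on_fst_inj h.2.2.1 h'.2.2.1
  rcases lt_trichotomy P.1 P'.1 with hl | hl | hl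
  · exact absurd ⟨hl, h'.2.2.2.2.1⟩ (h.2.2.2.2.2 P' h'.1 h'.2.2.1)
  · exact hl
  · exact absurd ⟨hl, h.2.2.2.2.1⟩ (h'.2.2.2.2.2 P h.1 h.2.2.1)

lemma Sec.right_unique {v P Q Q' : Pt} (h : Sec A v P Q) (h' : Sec A v P Q') : Q = Q' := by
  apply on_fst_inj h.2.2.2.1 h'.2.2.2.1
  rcases lt_trichotomy Q.1 Q'.1 with hl | hl | hl
  · exact absurd ⟨h.2.2.2.2.1, hl⟩ (h'.2.2.2.2.2 Q h.2.1 h.2.2.2.1)
  · exact hl
  · exact absurd ⟨h'.2.2.2.2.1, hl⟩ (h.2.2.2.2.2 Q' h'.2.1 h'.2.2.2.1)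

lemma exists_Sec {v P R : Pt} (hP : P ∈ A) (hR : R ∈ A) (h1 : On P v) (h2 : On R v)
    (h : P.1 < R.1) : ∃ Q, Sec A v P Q := by
  classical
  obtain ⟨Q, hQ, hmin⟩ := Finset.exists_min_image
    ((thru A v).filter fun z => P.1 < z.1) (fun z => z.1)
    ⟨R, Finset.mem_filter.2 ⟨mem_thru.2 ⟨hR, h2⟩, h⟩⟩
  rw [Finset.mem_filter, mem_thru] at hQ
  refine ⟨Q, hP, hQ.1.1, h1, hQ.1.2, hQ.2, fun T hT hT' hc => ?_⟩
  have := hmin T (Finset.mem_filter.2 ⟨mem_thru.2 ⟨hT, hT'⟩, hc.1⟩)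
  exact absurd hc.2 (not_lt.2 this)

def Al (A : Finset Pt) (s : ℝ) (v P Q w : Pt) : Prop :=
  Sec A v P Q ∧ NE A s Q v w ∧ ∀ u, IsV A u → On P u → 0 ≤ (u.1 - v.1) * (u.1 - w.1)

def Be (A : Finset Pt) (s : ℝ) (v P Q w : Pt) : Prop :=
  Sec A v P Q ∧ NE A s P v w ∧
    ∀ u, IsV A u → On Q u → 0 ≤ (u.1 - v.1) * (u.1 - w.1) ∧ u.1 ≠ w.1

lemma al_or_be {s : ℝ} {v P Q w w' : Pt} (h : Sec A v P Q) (h1 : NE A s P v w)
    (h2 : NE A s Q v w') : Al A s v P Q w' ∨ Be A s v P Q w := by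
  have a1 := h1.2.2.2
  have a2 := h2.2.2.2
  have hs : s ≠ 0 := by rintro rfl; simp at a1
  have hs2 : 0 < s ^ 2 := by positivity
  have tr : ∀ x y : ℝ, 0 ≤ x * y ↔ 0 ≤ (s * x) * (s * y) := by
    intro x y
    have : (s * x) * (s * y) = s ^ 2 * (x * y) := by ring
    rw [this, mul_nonneg_iff_of_pos_left hs2]
  by_cases hc : s * w'.1 ≤ s * w.1
  · left
    refine ⟨h, h2, fun u hu hPu => ?_⟩
    have := h1.nov hu hPu
    rw [tr] at this ⊢
    by_cases hz : 0 < s * (u.1 - v.1)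
    · have := (mul_nonneg_iff_of_pos_left hz).1 this
      exact mul_nonneg hz.le (by linarith)
    · push Not at hz
      exact mul_nonneg_of_nonpos_of_nonpos hz (by linarith)
  · right
    push Not at hc
    refine ⟨h, h1, fun u hu hQu => ?_⟩
    have := h2.nov hu hQu
    rw [tr] at this ⊢
    by_cases hz : 0 < s * (u.1 - v.1)
    · have := (mul_nonneg_iff_of_pos_left hz).1 this
      refine ⟨mul_nonneg hz.le (by linarith), fun e => ?_⟩
      rw [e] at this; linarith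
    · push Not at hz
      refine ⟨mul_nonneg_of_nonpos_of_nonpos hz (by linarith), fun e => ?_⟩
      rw [e] at hz; linarith

lemma Al.max {s : ℝ} {v P Q w R : Pt} (h : Al A s v P Q w) (hR : R ∈ A) (hw : On R w) :
    R.1 ≤ Q.1 := by
  obtain ⟨⟨hP, -, p1, q1, hlt, -⟩, ⟨he, -, q2, -⟩, hno⟩ := h
  by_contra hc
  push Not at hc
  have hx : w.1 - v.1 ≠ 0 := sub_ne_zero.2 he.2.2.1.symm
  have e1 : gg R v = -((R.1 - Q.1) * (w.1 - v.1)) := by
    unfold On at *; unfold gg; linear_combination hw - q2 + q1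
  have e2 : gg R (w.1, P.1 * w.1 + P.2) = (Q.1 - P.1) * (w.1 - v.1) := by
    unfold On at *; unfold gg; simp only; linear_combination hw - q2 + q1 - p1
  obtain ⟨u, hu, hu1, -, hu2⟩ := cross (w := (w.1, P.1 * w.1 + P.2)) hP hR p1 rfl (by
    rw [e1, e2]
    have : 0 < (w.1 - v.1) ^ 2 := by positivity
    nlinarith [mul_pos (mul_pos (sub_pos.2 hc) (sub_pos.2 hlt)) this])
  linarith [hno u hu hu1]

lemma Be.min {s : ℝ} {v P Q w R : Pt} (h : Be A s v P Q w) (hR : R ∈ A) (hw : On R w) :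
    P.1 ≤ R.1 := by
  obtain ⟨⟨-, hQ, p1, q1, hlt, -⟩, ⟨he, -, p2, -⟩, hno⟩ := h
  by_contra hc
  push Not at hc
  have hx : w.1 - v.1 ≠ 0 := sub_ne_zero.2 he.2.2.1.symm
  have e1 : gg R v = (P.1 - R.1) * (w.1 - v.1) := by
    unfold On at *; unfold gg; linear_combination hw - p2 + p1
  have e2 : gg R (w.1, Q.1 * w.1 + Q.2) = -((Q.1 - P.1) * (w.1 - v.1)) := by
    unfold On at *; unfold gg; simp only; linear_combination hw - p2 + p1 - q1
  obtain ⟨u, hu, hu1, -, hu2⟩ := cross (w := (w.1, Q.1 * w.1 + Q.2)) hQ hR q1 rfl (by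
    rw [e1, e2]
    have : 0 < (w.1 - v.1) ^ 2 := by positivity
    nlinarith [mul_pos (mul_pos (sub_pos.2 hc) (sub_pos.2 hlt)) this])
  linarith [(hno u hu hu1).1]

lemma Al.unique {s : ℝ} {v P Q v' P' Q' w : Pt} (h : Al A s v P Q w) (h' : Al A s v' P' Q' w) :
    v = v' ∧ P = P' ∧ Q = Q' := by
  have e : Q = Q' := on_fst_inj h.2.1.2.2.1 h'.2.1.2.2.1
    (le_antisymm (h'.max h.1.2.1 h.2.1.2.2.1) (h.max h'.1.2.1 h'.2.1.2.2.1))
  subst e
  have e : v = v' := h.2.1.unique' h'.2.1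
  subst e
  exact ⟨rfl, h.1.left_unique h'.1, rfl⟩

lemma Be.unique {s : ℝ} {v P Q v' P' Q' w : Pt} (h : Be A s v P Q w) (h' : Be A s v' P' Q' w) :
    v = v' ∧ P = P' ∧ Q = Q' := by
  have e : P = P' := on_fst_inj h.2.1.2.2.1 h'.2.1.2.2.1
    (le_antisymm (h.min h'.1.1 h'.2.1.2.2.1) (h'.min h.1.1 h.2.1.2.2.1))
  subst e
  have e : v = v' := h.2.1.unique' h'.2.1
  subst e
  exact ⟨rfl, rfl, h.1.right_unique h'.1⟩

lemma neg_of_signs {s x y : ℝ} (hx : 0 < s * x) (hy : s * y < 0) : x * y < 0 := by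
  by_contra hc
  push Not at hc
  nlinarith [mul_pos hx (neg_pos.2 hy), mul_nonneg (sq_nonneg s) hc]

lemma pos_of_signs {s x y : ℝ} (hx : 0 < s * x) (hy : 0 < s * y) : 0 < x * y := by
  by_contra hc
  push Not at hc
  nlinarith [mul_pos hx hy, mul_nonneg (sq_nonneg s) (neg_nonneg.2 hc)]

lemma both_tri {s : ℝ} {v P Q v' P' Q' w : Pt} (h : Al A s v P Q w)
    (h' : Be A (-s) v' P' Q' w) :
    Tri A v v' w ∧ 0 < s * (w.1 - v.1) ∧ 0 < s * (v'.1 - w.1) := by
  obtain ⟨⟨hP, hQ, p1, q1, hlt, hsec⟩, ⟨he, -, q2, d1⟩, hno⟩ := h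
  obtain ⟨⟨hP', hQ', p1', q1', hlt', hsec'⟩, ⟨he', -, p2', d2'⟩, hno'⟩ := h'
  have d2 : 0 < s * (v'.1 - w.1) := by linarith
  have g1 : gg P w = -((Q.1 - P.1) * (w.1 - v.1)) := by
    unfold On at *; unfold gg; linear_combination q2 - q1 + p1
  have g2 : gg Q' w = -((Q'.1 - P'.1) * (v'.1 - w.1)) := by
    unfold On at *; unfold gg; linear_combination p2' - p1' + q1'
  have s1 : s * gg P w < 0 := by
    rw [g1]; nlinarith [mul_pos (sub_pos.2 hlt) d1]
  have s2 : s * gg Q' w < 0 := by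
    rw [g2]; nlinarith [mul_pos (sub_pos.2 hlt') d2]
  have hs : s ≠ 0 := by rintro rfl; simp at d1
  have e : P = Q' := by
    by_contra hne
    rcases lt_trichotomy (s * gg P w) (s * gg Q' w) with hl | hl | hl
    · have g3 : gg Q' (w.1, P.1 * w.1 + P.2) = gg Q' w - gg P w := by unfold gg; ring
      rcases lt_trichotomy (s * gg Q' v) 0 with hg | hg | hg
      · obtain ⟨u, hu, hu1, -, hu2⟩ := cross (w := (w.1, P.1 * w.1 + P.2)) hP hQ' p1 rfl (by
          rw [mul_comm]; exact neg_of_signs (s := s) (by rw [g3]; linarith) hg)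
        linarith [hno u hu hu1]
      · have q3 : On Q' v := gg_eq_zero.1 ((mul_eq_zero.1 hg).resolve_left hs)
        have e1 : gg Q' w - gg P w = (Q'.1 - P.1) * (w.1 - v.1) := by
          unfold On at *; unfold gg; linear_combination q3 - p1
        have e2 : gg Q' w = -((Q.1 - Q'.1) * (w.1 - v.1)) := by
          unfold On at *; unfold gg; linear_combination q2 - q1 + q3
        apply hsec Q' hQ' q3
        constructor
        · have : 0 < (Q'.1 - P.1) * (s * (w.1 - v.1)) := by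
            have : (Q'.1 - P.1) * (s * (w.1 - v.1)) = s * (gg Q' w - gg P w) := by rw [e1]; ring
            rw [this]; linarith
          have := (mul_pos_iff_of_pos_right d1).1 this
          linarith
        · have : 0 < (Q.1 - Q'.1) * (s * (w.1 - v.1)) := by
            have : (Q.1 - Q'.1) * (s * (w.1 - v.1)) = -(s * gg Q' w) := by rw [e2]; ring
            rw [this]; linarith
          have := (mul_pos_iff_of_pos_right d1).1 this
          linarith
      · linarith [he.sep hQ', neg_of_signs hg s2]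
    · have e1 : gg P w = gg Q' w := mul_left_cancel₀ hs hl
      have o2 : On Q' (w.1, P.1 * w.1 + P.2) := by
        unfold gg at e1; unfold On; simp only; linarith
      exact (hno' _ (isV_of (v := (w.1, P.1 * w.1 + P.2)) hP hQ' hne rfl o2) o2).2 rfl
    · have g3 : gg P (w.1, Q'.1 * w.1 + Q'.2) = gg P w - gg Q' w := by unfold gg; ring
      rcases lt_trichotomy (s * gg P v') 0 with hg | hg | hg
      · obtain ⟨u, hu, hu1, -, hu2⟩ := cross (w := (w.1, Q'.1 * w.1 + Q'.2)) hQ' hP q1' rfl (by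
          rw [mul_comm]; exact neg_of_signs (s := s) (by rw [g3]; linarith) hg)
        linarith [(hno' u hu hu1).1]
      · have q3 : On P v' := gg_eq_zero.1 ((mul_eq_zero.1 hg).resolve_left hs)
        have e1 : gg P w - gg Q' w = (Q'.1 - P.1) * (v'.1 - w.1) := by
          unfold On at *; unfold gg; linear_combination q3 - q1'
        have e2 : gg P w = -((P.1 - P'.1) * (v'.1 - w.1)) := by
          unfold On at *; unfold gg; linear_combination p2' - p1' + q3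
        apply hsec' P hP q3
        constructor
        · have : 0 < (P.1 - P'.1) * (s * (v'.1 - w.1)) := by
            have : (P.1 - P'.1) * (s * (v'.1 - w.1)) = -(s * gg P w) := by rw [e2]; ring
            rw [this]; linarith
          have := (mul_pos_iff_of_pos_right d2).1 this
          linarith
        · have : 0 < (Q'.1 - P.1) * (s * (v'.1 - w.1)) := by
            have : (Q'.1 - P.1) * (s * (v'.1 - w.1)) = s * (gg P w - gg Q' w) := by rw [e1]; ring
            rw [this]; linarith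
          have := (mul_pos_iff_of_pos_right d2).1 this
          linarith
      · linarith [he'.sep hP, neg_of_signs hg s1]
  subst e
  have d3 : 0 < s * (v'.1 - v.1) := by linarith
  refine ⟨⟨⟨he.1, he'.1, ?_, P, hP, p1, q1', ?_⟩, he', he.symm, ?_⟩, d1, d2⟩
  · intro e; rw [e] at d3; simp at d3
  · intro u hu hPu
    have a1 := hno u hu hPu
    obtain ⟨a2, a3⟩ := hno' u hu hPu
    have hs2 : 0 < s ^ 2 := by positivity
    have tr : ∀ x y : ℝ, 0 ≤ x * y ↔ 0 ≤ (s * x) * (s * y) := by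
      intro x y
      have : (s * x) * (s * y) = s ^ 2 * (x * y) := by ring
      rw [this, mul_nonneg_iff_of_pos_left hs2]
    rw [tr] at a1 a2 ⊢
    have a4 : s * (u.1 - w.1) ≠ 0 := mul_ne_zero hs (sub_ne_zero.2 a3)
    rcases lt_or_gt_of_ne a4 with a5 | a5
    · have b1 : s * (u.1 - v.1) ≤ 0 := by
        by_contra hc; push Not at hc; nlinarith [mul_pos hc (neg_pos.2 a5)]
      exact mul_nonneg_of_nonpos_of_nonpos b1 (by linarith)
    · have b1 : 0 ≤ s * (u.1 - v'.1) := by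
        by_contra hc; push Not at hc; nlinarith [mul_pos a5 (neg_pos.2 hc)]
      exact mul_nonneg (by linarith) b1
  · rw [det3_eq p1 q1']
    have := neg_of_signs d3 s1
    linarith

end CubicStab
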