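import Pool.Agent.P.MP_029dcd_co.Bezout

/-! A triangular pattern of collinear triples lies on an irreducible cubic. -/

set_option autoImplicit false

namespace CubicStab

open MvPolynomial

structure Lat (A : Finset Pt) (N : ℕ) (a b c : ℕ → Pt) (φ : ℕ → ℕ → Pt) : Prop where
  ha : ∀ r, r ≤ N → a r ∈ A
  hb : ∀ i, i ≤ N → b i ∈ A
  hc : ∀ j, j ≤ N → c j ∈ A
  on_iff : ∀ r i, r + i ≤ N → ∀ P ∈ A, On P (φ r i) ↔ P = a r ∨ P = b i ∨ P = c (r + i)
  ab : ∀ r i, r + i ≤ N → a r ≠ b i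
  ac : ∀ r i, r + i ≤ N → a r ≠ c (r + i)
  bc : ∀ r i, r + i ≤ N → b i ≠ c (r + i)
  row : ∀ i j, i ≤ N → j ≤ N → φ 0 i = φ 0 j → i = j
  col : ∀ r s, r ≤ N → s ≤ N → φ r 0 = φ s 0 → r = s

namespace Lat

variable {A : Finset Pt} {N : ℕ} {a b c : ℕ → Pt} {φ : ℕ → ℕ → Pt}

lemma oa (H : Lat A N a b c φ) (r i : ℕ) (h : r + i ≤ N) : On (a r) (φ r i) :=
  (H.on_iff r i h _ (H.ha r (by omega))).2 (Or.inl rfl)

lemma ob (H : Lat A N a b c φ) (r i : ℕ) (h : r + i ≤ N) : On (b i) (φ r i) :=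
  (H.on_iff r i h _ (H.hb i (by omega))).2 (Or.inr (Or.inl rfl))

lemma oc (H : Lat A N a b c φ) (r i j : ℕ) (h : r + i ≤ N) (hj : j = r + i) :
    On (c j) (φ r i) := by
  subst hj
  exact (H.on_iff r i h _ (H.hc _ h)).2 (Or.inr (Or.inr rfl))

lemma aa (H : Lat A N a b c φ) (r s : ℕ) (hr : r ≤ N) (hs : s ≤ N) (h : r ≠ s) : a r ≠ a s := by
  intro e
  apply h
  apply H.col r s hr hs
  exact line_unique (H.ab r 0 (by omega)) (H.oa r 0 (by omega)) (H.ob r 0 (by omega))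
    (e ▸ H.oa s 0 (by omega)) (H.ob s 0 (by omega))

lemma bb (H : Lat A N a b c φ) (i j : ℕ) (hi : i ≤ N) (hj : j ≤ N) (h : i ≠ j) : b i ≠ b j := by
  intro e
  apply h
  apply H.row i j hi hj
  exact line_unique (H.ab 0 i (by omega)) (H.oa 0 i (by omega)) (H.ob 0 i (by omega))
    (H.oa 0 j (by omega)) (e ▸ H.ob 0 j (by omega))

lemma cc (H : Lat A N a b c φ) (i j : ℕ) (hi : i ≤ N) (hj : j ≤ N) (h : i ≠ j) : c i ≠ c j := by
  intro e
  apply h
  apply H.row i j hi hj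
  have h1 := H.ac 0 i (by omega)
  rw [zero_add] at h1
  exact line_unique h1 (H.oa 0 i (by omega)) (H.oc 0 i i (by omega) (by omega))
    (H.oa 0 j (by omega)) (e ▸ H.oc 0 j j (by omega) (by omega))

lemma ac' (H : Lat A N a b c φ) (r j : ℕ) (hr : r ≤ N) (hj : j ≤ N) : a r ≠ c j := by
  intro e
  have : r = j := by
    apply H.col r j hr hj
    exact line_unique (H.ab r 0 (by omega)) (H.oa r 0 (by omega)) (H.ob r 0 (by omega))
      (e ▸ H.oc j 0 j (by omega) (by omega)) (H.ob j 0 (by omega))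
  subst this
  exact H.ac r 0 (by omega) e

lemma bc' (H : Lat A N a b c φ) (i j : ℕ) (hi : i ≤ N) (hj : j ≤ N) : b i ≠ c j := by
  intro e
  have : i = j := by
    apply H.row i j hi hj
    exact line_unique (H.ab 0 i (by omega)) (H.oa 0 i (by omega)) (H.ob 0 i (by omega))
      (H.oa 0 j (by omega)) (e ▸ H.oc 0 j j (by omega) (by omega))
  subst this
  have := H.bc 0 i (by omega)
  rw [zero_add] at this
  exact this e

lemma na (H : Lat A N a b c φ) (s r i : ℕ) (h : r + i ≤ N) (h' : s + i ≤ N) (hs : s ≠ r) :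
    ¬ On (a s) (φ r i) := by
  intro e
  rcases (H.on_iff r i h _ (H.ha s (by omega))).1 e with e | e | e
  · exact H.aa s r (by omega) (by omega) hs e
  · exact H.ab s i h' e
  · exact H.ac' s _ (by omega) h e

lemma nb (H : Lat A N a b c φ) (j r i : ℕ) (h : r + i ≤ N) (h' : r + j ≤ N) (hs : j ≠ i) :
    ¬ On (b j) (φ r i) := by
  intro e
  rcases (H.on_iff r i h _ (H.hb j (by omega))).1 e with e | e | e
  · exact H.ab r j h' e.symm
  · exact H.bb j i (by omega) (by omega) hs e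
  · exact H.bc' j _ (by omega) h e

lemma nc (H : Lat A N a b c φ) (j r i : ℕ) (h : r + i ≤ N) (h' : j ≤ N) (hs : j ≠ r + i) :
    ¬ On (c j) (φ r i) := by
  intro e
  rcases (H.on_iff r i h _ (H.hc j h')).1 e with e | e | e
  · exact H.ac' r j (by omega) h' e.symm
  · exact H.bc' i j (by omega) h' e.symm
  · exact H.cc j _ h' h hs e

lemma hex_c (H : Lat A N a b c φ) (f : Pl) (hf : f.totalDegree ≤ 3) (r i : ℕ)
    (h : r + i + 4 ≤ N) (z1 : ev f (a r) = 0) (z2 : ev f (a (r + 1)) = 0)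
    (z3 : ev f (a (r + 2)) = 0) (z4 : ev f (b i) = 0) (z5 : ev f (b (i + 1)) = 0)
    (z6 : ev f (b (i + 2)) = 0) (z7 : ev f (c (r + i + 1)) = 0)
    (z8 : ev f (c (r + i + 2)) = 0) : ev f (c (r + i + 3)) = 0 :=
  chasles f hf (φ r (i + 1)) (φ (r + 2) i) (φ (r + 1) (i + 2))
    (φ r (i + 2)) (φ (r + 1) i) (φ (r + 2) (i + 1))
    (a r) (c (r + i + 1)) (b (i + 1)) (c (r + i + 2)) (b i) (a (r + 2))
    (b (i + 2)) (a (r + 1)) (c (r + i + 3))
    (H.oa _ _ (by omega)) (H.oc _ _ _ (by omega) (by omega)) (H.ob _ _ (by omega))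
    (H.oc _ _ _ (by omega) (by omega)) (H.ob _ _ (by omega)) (H.oa _ _ (by omega))
    (H.ob _ _ (by omega)) (H.oa _ _ (by omega)) (H.oc _ _ _ (by omega) (by omega))
    (H.oa _ _ (by omega)) (H.oc _ _ _ (by omega) (by omega)) (H.ob _ _ (by omega))
    (H.oc _ _ _ (by omega) (by omega)) (H.ob _ _ (by omega)) (H.oa _ _ (by omega))
    (H.ob _ _ (by omega)) (H.oa _ _ (by omega)) (H.oc _ _ _ (by omega) (by omega))
    (H.nc _ _ _ (by omega) (by omega) (by omega)) (H.nb _ _ _ (by omega) (by omega) (by omega))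
    (H.na _ _ _ (by omega) (by omega) (by omega))
    (H.nb _ _ _ (by omega) (by omega) (by omega)) (H.na _ _ _ (by omega) (by omega) (by omega))
    (H.nb _ _ _ (by omega) (by omega) (by omega)) (H.na _ _ _ (by omega) (by omega) (by omega))
    (H.ac' _ _ (by omega) (by omega)) (H.ab _ _ (by omega)) (H.bc' _ _ (by omega) (by omega)).symm
    (H.bc' _ _ (by omega) (by omega)).symm (H.ac' _ _ (by omega) (by omega)).symm
    (H.ab _ _ (by omega)).symm (H.ab _ _ (by omega)).symm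
    z1 z7 z5 z8 z4 z3 z6 z2

lemma hex_b (H : Lat A N a b c φ) (f : Pl) (hf : f.totalDegree ≤ 3) (r i : ℕ)
    (h : r + i + 4 ≤ N) (z1 : ev f (a r) = 0) (z2 : ev f (a (r + 1)) = 0)
    (z3 : ev f (a (r + 2)) = 0) (z4 : ev f (b i) = 0) (z5 : ev f (b (i + 1)) = 0)
    (z7 : ev f (c (r + i + 1)) = 0)
    (z8 : ev f (c (r + i + 2)) = 0) (z9 : ev f (c (r + i + 3)) = 0) : ev f (b (i + 2)) = 0 :=
  chasles f hf (φ r (i + 1)) (φ (r + 2) i) (φ (r + 1) (i + 2))
    (φ (r + 1) i) (φ (r + 2) (i + 1)) (φ r (i + 2))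
    (c (r + i + 1)) (b (i + 1)) (a r) (b i) (a (r + 2)) (c (r + i + 2))
    (a (r + 1)) (c (r + i + 3)) (b (i + 2))
    (H.oc _ _ _ (by omega) (by omega)) (H.ob _ _ (by omega)) (H.oa _ _ (by omega))
    (H.ob _ _ (by omega)) (H.oa _ _ (by omega)) (H.oc _ _ _ (by omega) (by omega))
    (H.oa _ _ (by omega)) (H.oc _ _ _ (by omega) (by omega)) (H.ob _ _ (by omega))
    (H.oc _ _ _ (by omega) (by omega)) (H.ob _ _ (by omega)) (H.oa _ _ (by omega))
    (H.ob _ _ (by omega)) (H.oa _ _ (by omega)) (H.oc _ _ _ (by omega) (by omega))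
    (H.oa _ _ (by omega)) (H.oc _ _ _ (by omega) (by omega)) (H.ob _ _ (by omega))
    (H.nb _ _ _ (by omega) (by omega) (by omega)) (H.na _ _ _ (by omega) (by omega) (by omega))
    (H.nc _ _ _ (by omega) (by omega) (by omega))
    (H.na _ _ _ (by omega) (by omega) (by omega)) (H.nc _ _ _ (by omega) (by omega) (by omega))
    (H.na _ _ _ (by omega) (by omega) (by omega)) (H.nc _ _ _ (by omega) (by omega) (by omega))
    (H.bc' _ _ (by omega) (by omega)).symm (H.ac' _ _ (by omega) (by omega)).symm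
    (H.ab _ _ (by omega)).symm
    (H.ab _ _ (by omega)).symm (H.bc' _ _ (by omega) (by omega))
    (H.ac' _ _ (by omega) (by omega)) (H.ac' _ _ (by omega) (by omega))
    z7 z5 z1 z4 z3 z8 z2 z9

lemma hex_a (H : Lat A N a b c φ) (f : Pl) (hf : f.totalDegree ≤ 3) (r i : ℕ)
    (h : r + i + 4 ≤ N) (z1 : ev f (a r) = 0) (z2 : ev f (a (r + 1)) = 0)
    (z4 : ev f (b i) = 0) (z5 : ev f (b (i + 1)) = 0)
    (z6 : ev f (b (i + 2)) = 0) (z7 : ev f (c (r + i + 1)) = 0)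
    (z8 : ev f (c (r + i + 2)) = 0) (z9 : ev f (c (r + i + 3)) = 0) : ev f (a (r + 2)) = 0 :=
  chasles f hf (φ r (i + 1)) (φ (r + 1) (i + 2)) (φ (r + 2) i)
    (φ r (i + 2)) (φ (r + 1) i) (φ (r + 2) (i + 1))
    (a r) (c (r + i + 1)) (b (i + 1)) (b (i + 2)) (a (r + 1)) (c (r + i + 3))
    (c (r + i + 2)) (b i) (a (r + 2))
    (H.oa _ _ (by omega)) (H.oc _ _ _ (by omega) (by omega)) (H.ob _ _ (by omega))
    (H.ob _ _ (by omega)) (H.oa _ _ (by omega)) (H.oc _ _ _ (by omega) (by omega))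
    (H.oc _ _ _ (by omega) (by omega)) (H.ob _ _ (by omega)) (H.oa _ _ (by omega))
    (H.oa _ _ (by omega)) (H.ob _ _ (by omega)) (H.oc _ _ _ (by omega) (by omega))
    (H.oc _ _ _ (by omega) (by omega)) (H.oa _ _ (by omega)) (H.ob _ _ (by omega))
    (H.ob _ _ (by omega)) (H.oc _ _ _ (by omega) (by omega)) (H.oa _ _ (by omega))
    (H.nb _ _ _ (by omega) (by omega) (by omega)) (H.na _ _ _ (by omega) (by omega) (by omega))
    (H.nc _ _ _ (by omega) (by omega) (by omega))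
    (H.nc _ _ _ (by omega) (by omega) (by omega)) (H.nb _ _ _ (by omega) (by omega) (by omega))
    (H.nc _ _ _ (by omega) (by omega) (by omega)) (H.nb _ _ _ (by omega) (by omega) (by omega))
    (H.ac' _ _ (by omega) (by omega)) (H.ab _ _ (by omega)) (H.bc' _ _ (by omega) (by omega)).symm
    (H.ab _ _ (by omega)).symm (H.bc' _ _ (by omega) (by omega))
    (H.ac' _ _ (by omega) (by omega)) (H.bc' _ _ (by omega) (by omega)).symm
    z1 z7 z5 z6 z2 z9 z8 z4

lemma cubic (H : Lat A N a b c φ) (M : ℕ) (hM : M + 4 ≤ N) :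
    ∃ f : Pl, f ≠ 0 ∧ f.totalDegree ≤ 3 ∧
      ∀ j, j ≤ M → ev f (a j) = 0 ∧ ev f (b j) = 0 ∧ ev f (c (j + 1)) = 0 := by
  obtain ⟨f, hf0, hf, hz⟩ := exists_cubic ![a 0, a 1, a 2, a 3, b 0, b 1, b 2, c 1, c 2]
  have za0 : ev f (a 0) = 0 := hz 0
  have za1 : ev f (a 1) = 0 := hz 1
  have za2 : ev f (a 2) = 0 := hz 2
  have za3 : ev f (a 3) = 0 := hz 3
  have zb0 : ev f (b 0) = 0 := hz 4
  have zb1 : ev f (b 1) = 0 := hz 5
  have zb2 : ev f (b 2) = 0 := hz 6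
  have zc1 : ev f (c 1) = 0 := hz 7
  have zc2 : ev f (c 2) = 0 := hz 8
  have S : ∀ j, j + 4 ≤ N → ev f (b j) = 0 ∧ ev f (b (j + 1)) = 0 ∧ ev f (b (j + 2)) = 0 ∧
      ev f (c (j + 1)) = 0 ∧ ev f (c (j + 2)) = 0 ∧ ev f (c (j + 3)) = 0 := by
    intro j
    induction j with
    | zero =>
      intro h
      exact ⟨zb0, zb1, zb2, zc1, zc2,
        H.hex_c f hf 0 0 (by omega) za0 za1 za2 zb0 zb1 zb2 zc1 zc2⟩
    | succ j ih =>
      intro h
      obtain ⟨h1, h2, h3, h4, h5, h6⟩ := ih (by omega)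
      have e1 : 1 + j + 1 = j + 2 := by omega
      have e2 : 1 + j + 2 = j + 3 := by omega
      have e3 : 1 + j + 3 = j + 4 := by omega
      have h7 := H.hex_c f hf 1 j (by omega) za1 za2 za3 h1 h2 h3 (e1 ▸ h5) (e2 ▸ h6)
      rw [e3] at h7
      have e4 : 0 + (j + 1) + 1 = j + 2 := by omega
      have e5 : 0 + (j + 1) + 2 = j + 3 := by omega
      have e6 : 0 + (j + 1) + 3 = j + 4 := by omega
      have h8 := H.hex_b f hf 0 (j + 1) (by omega) za0 za1 za2 h2 h3 (e4 ▸ h5) (e5 ▸ h6)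
        (e6 ▸ h7)
      exact ⟨h2, h3, h8, h5, h6, h7⟩
  have T : ∀ r, r + 3 ≤ N → ev f (a r) = 0 ∧ ev f (a (r + 1)) = 0 := by
    intro r
    induction r with
    | zero => intro _; exact ⟨za0, za1⟩
    | succ r ih =>
      intro h
      obtain ⟨h1, h2⟩ := ih (by omega)
      obtain ⟨-, -, -, h4, h5, h6⟩ := S r (by omega)
      exact ⟨h2, H.hex_a f hf r 0 (by omega) h1 h2 zb0 zb1 zb2 h4 h5 h6⟩
  refine ⟨f, hf0, hf, fun j hj => ⟨(T j (by omega)).1, (S j (by omega)).1,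
    (S j (by omega)).2.2.2.1⟩⟩

lemma few_idx (k : ℕ) (hinj : Set.InjOn Prod.fst (A : Set Pt))
    (hk : ∀ v : Pt, ∀ S : Finset Pt, S ⊆ A → (∀ P ∈ S, On P v) → S.card ≤ k)
    (l : Pl) (hl0 : l ≠ 0) (hl : l.totalDegree ≤ 1) (J : Finset ℕ) (p : ℕ → Pt)
    (hp : ∀ j ∈ J, p j ∈ A) (hpi : ∀ i ∈ J, ∀ j ∈ J, i ≠ j → p i ≠ p j) :
    (J.filter fun j => ev l (p j) = 0).card ≤ k + 1 := by
  classical
  rw [← Finset.card_image_of_injOn (f := p)]
  · apply card_zero_lin A k hinj hk l hl0 hl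
    · intro P hP
      obtain ⟨j, hj, rfl⟩ := Finset.mem_image.1 hP
      exact hp j (Finset.mem_filter.1 hj).1
    · intro P hP
      obtain ⟨j, hj, rfl⟩ := Finset.mem_image.1 hP
      exact (Finset.mem_filter.1 hj).2
  · intro i hi j hj e
    by_contra h
    exact hpi i (Finset.mem_filter.1 hi).1 j (Finset.mem_filter.1 hj).1 h e

lemma exists_avoid (J : Finset ℕ) (p q r : ℕ → Prop) [DecidablePred p] [DecidablePred q]
    [DecidablePred r] (m : ℕ) (hp : (J.filter p).card ≤ m) (hq : (J.filter q).card ≤ m)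
    (hr : (J.filter r).card ≤ m) (hJ : 3 * m < J.card) : ∃ j ∈ J, ¬ p j ∧ ¬ q j ∧ ¬ r j := by
  classical
  by_contra h
  push Not at h
  have : J ⊆ J.filter p ∪ J.filter q ∪ J.filter r := by
    intro j hj
    simp only [Finset.mem_union, Finset.mem_filter]
    by_cases h1 : p j
    · exact Or.inl (Or.inl ⟨hj, h1⟩)
    by_cases h2 : q j
    · exact Or.inl (Or.inr ⟨hj, h2⟩)
    exact Or.inr ⟨hj, h j hj h1 h2⟩
  have h1 := Finset.card_le_card this
  have h2 := Finset.card_union_le (J.filter p ∪ J.filter q) (J.filter r)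
  have h3 := Finset.card_union_le (J.filter p) (J.filter q)
  omega

lemma irred_cubic (H : Lat A N a b c φ) (k : ℕ) (hinj : Set.InjOn Prod.fst (A : Set Pt))
    (hk : ∀ v : Pt, ∀ S : Finset Pt, S ⊆ A → (∀ P ∈ S, On P v) → S.card ≤ k)
    (M : ℕ) (hM : M + 4 ≤ N) (hkM : 6 * k + 8 ≤ M) :
    ∃ f : Pl, Irreducible f ∧ f.totalDegree ≤ 3 ∧
      ∀ j, j ≤ M → ev f (a j) = 0 ∧ ev f (b j) = 0 ∧ ev f (c (j + 1)) = 0 := by
  classical
  obtain ⟨f, hf0, hf, hz⟩ := H.cubic M hM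
  refine ⟨f, ?_, hf, hz⟩
  rcases irred_or_split f hf0 hf with h | ⟨l, g, hlg, hl, hg⟩
  · exact h
  exfalso
  have hl0 : l ≠ 0 := by rintro rfl; simp at hlg; exact hf0 hlg
  have hg0 : g ≠ 0 := by rintro rfl; simp at hlg; exact hf0 hlg
  let J := Finset.Icc 1 (3 * k + 4)
  have hJ : ∀ j ∈ J, 1 ≤ j ∧ j ≤ 3 * k + 4 := fun j hj => Finset.mem_Icc.1 hj
  obtain ⟨j, hj, h1, h2, h3⟩ := exists_avoid J (fun j => ev l (a j) = 0) (fun j => ev l (b j) = 0)
    (fun j => ev l (c (j + j)) = 0) (k + 1)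
    (few_idx k hinj hk l hl0 hl J a (fun j hj => H.ha j (by have := hJ j hj; omega))
      (fun i hi j hj h => H.aa i j (by have := hJ i hi; omega) (by have := hJ j hj; omega) h))
    (few_idx k hinj hk l hl0 hl J b (fun j hj => H.hb j (by have := hJ j hj; omega))
      (fun i hi j hj h => H.bb i j (by have := hJ i hi; omega) (by have := hJ j hj; omega) h))
    (few_idx k hinj hk l hl0 hl J (fun j => c (j + j))
      (fun j hj => H.hc _ (by have := hJ j hj; omega))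
      (fun i hi j hj h => H.cc _ _ (by have := hJ i hi; omega) (by have := hJ j hj; omega)
        (by omega)))
    (by simp [J]; omega)
  have hj' := hJ j hj
  have hg' : ∀ P, ev f P = 0 → ev l P ≠ 0 → ev g P = 0 := by
    intro P e1 e2
    rw [hlg, ev_mul] at e1
    exact (mul_eq_zero.1 e1).resolve_left e2
  have ec : j + j - 1 + 1 = j + j := by omega
  obtain ⟨h, hh, hhd⟩ := div_line g 1 hg (φ j j) {a j, b j, c (j + j)} (by
    intro P hP
    simp only [Finset.mem_insert, Finset.mem_singleton] at hP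
    rcases hP with rfl | rfl | rfl
    · exact ⟨H.oa _ _ (by omega), hg' _ (hz j (by omega)).1 h1⟩
    · exact ⟨H.ob _ _ (by omega), hg' _ (hz j (by omega)).2.1 h2⟩
    · exact ⟨H.oc _ _ _ (by omega) rfl, hg' _ (ec ▸ (hz (j + j - 1) (by omega)).2.2) h3⟩) (by
    rw [Finset.card_insert_of_notMem (by simp [H.ab j j (by omega), H.ac j j (by omega)]),
      Finset.card_insert_of_notMem (by simp [H.bc j j (by omega)])]
    simp)
  have hh0 : h ≠ 0 := by rintro rfl; simp at hh; exact hg0 hh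
  have hb1 : ∀ j ∈ J, b j ∈ A := fun j hj => H.hb j (by have := hJ j hj; omega)
  have hb2 : ∀ i ∈ J, ∀ j ∈ J, i ≠ j → b i ≠ b j :=
    fun i hi j hj h => H.bb i j (by have := hJ i hi; omega) (by have := hJ j hj; omega) h
  obtain ⟨i, hi, g1, g2, g3⟩ := exists_avoid J (fun i => ev l (b i) = 0)
    (fun i => ev (Lp (φ j j)) (b i) = 0) (fun i => ev h (b i) = 0) (k + 1)
    (few_idx k hinj hk l hl0 hl J b hb1 hb2)
    (few_idx k hinj hk _ (Lp_ne_zero _) (totalDegree_Lp_le _) J b hb1 hb2)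
    (few_idx k hinj hk h hh0 hhd J b hb1 hb2)
    (by simp [J]; omega)
  have hi' := hJ i hi
  have := (hz i (by omega)).2.1
  rw [hlg, hh, ev_mul, ev_mul] at this
  rcases mul_eq_zero.1 this with e | e
  · exact g1 e
  · rcases mul_eq_zero.1 e with e | e
    · exact g2 e
    · exact g3 e

end Lat

end CubicStab
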