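import Pool.Agent.P.MP_029dcd_co.Sector

/-! Melchior type counting: few darts are bad. -/

set_option autoImplicit false

namespace CubicStab

open Finset

variable {A : Finset Pt}

open Classical in
noncomputable def DD (A : Finset Pt) : Finset (Pt × Pt) :=
  (VV A ×ˢ VV A).filter fun d => Edge A d.1 d.2

lemma mem_DD {d : Pt × Pt} : d ∈ DD A ↔ Edge A d.1 d.2 := by
  classical
  unfold DD
  rw [mem_filter, mem_product, mem_VV, mem_VV]
  exact ⟨fun h => h.2, fun h => ⟨⟨h.1, h.2.1⟩, h⟩⟩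

open Classical in
noncomputable def SS (A : Finset Pt) : Finset (Pt × Pt × Pt) :=
  (VV A ×ˢ A ×ˢ A).filter fun t => Sec A t.1 t.2.1 t.2.2

lemma Sec.isV {v P Q : Pt} (h : Sec A v P Q) : IsV A v :=
  isV_of h.1 h.2.1 (fun e => absurd h.2.2.2.2.1 (by rw [e]; exact lt_irrefl _)) h.2.2.1 h.2.2.2.1

lemma mem_SS {t : Pt × Pt × Pt} : t ∈ SS A ↔ Sec A t.1 t.2.1 t.2.2 := by
  classical
  unfold SS
  rw [mem_filter, mem_product, mem_product, mem_VV]
  exact ⟨fun h => h.2, fun h => ⟨⟨h.isV, h.1, h.2.1⟩, h⟩⟩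

open Classical in
noncomputable def t2 (A : Finset Pt) : ℕ := ((VV A).filter fun v => mult A v = 2).card

open Classical in
lemma out_le (v : Pt) : ((DD A).filter fun d => d.1 = v).card ≤ 2 * mult A v := by
  have : (thru A v ×ˢ (univ : Finset Bool)).card = 2 * mult A v := by
    rw [card_product]; simp [mult, mul_comm]
  rw [← this]
  apply card_le_card_of_injOn (fun d => (ln d.1 d.2, decide (d.1.1 < d.2.1)))
  · intro d hd
    simp only [coe_filter, Set.mem_ofPred_eq, mem_DD] at hd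
    obtain ⟨h, rfl⟩ := hd
    simp only [coe_product, Set.mem_prod, mem_coe, mem_thru, mem_univ, and_true]
    exact ⟨h.ln.1, h.ln.2.1⟩
  · intro d hd d' hd' e
    simp only [coe_filter, Set.mem_ofPred_eq, mem_DD] at hd hd'
    obtain ⟨h, rfl⟩ := hd
    obtain ⟨h', e'⟩ := hd'
    simp only [Prod.mk.injEq, decide_eq_decide] at e
    rw [e'] at h' e
    refine Prod.ext e'.symm (ray_unique h h' h.ln.2.1 h.ln.2.2 (e.1 ▸ h'.ln.2.2) ?_)
    by_cases hl : d.1.1 < d.2.1
    · exact mul_pos (sub_pos.2 hl) (sub_pos.2 (e.2.1 hl))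
    · have h1 : d.2.1 < d.1.1 := lt_of_le_of_ne (not_lt.1 hl) h.2.2.1.symm
      have h2 : d'.2.1 < d.1.1 := lt_of_le_of_ne (not_lt.1 (mt e.2.2 hl)) h'.2.2.1.symm
      exact mul_pos_of_neg_of_neg (sub_neg.2 h1) (sub_neg.2 h2)

lemma out_le_sum (p : Pt → Prop) [DecidablePred p] :
    ((DD A).filter fun d => p d.1).card ≤ ∑ v ∈ (VV A).filter p, 2 * mult A v := by
  classical
  rw [card_eq_sum_card_fiberwise (f := Prod.fst) (t := (VV A).filter p)]
  · apply sum_le_sum
    intro v _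
    refine le_trans (card_le_card ?_) (out_le (A := A) v)
    intro d hd
    simp only [mem_filter] at hd ⊢
    exact ⟨hd.1.1, hd.2⟩
  · intro d hd
    simp only [coe_filter, Set.mem_ofPred_eq, mem_DD, mem_VV] at hd ⊢
    exact ⟨hd.1.1, hd.2⟩

open Classical in
lemma sec_ge (v : Pt) (hv : IsV A v) :
    mult A v ≤ ((SS A).filter fun t => t.1 = v).card + 1 := by
  obtain ⟨R, hR, hmax⟩ := exists_max_image (thru A v) (fun P => P.1)
    (card_pos.1 (by unfold IsV mult at hv; omega))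
  have h1 : (thru A v).erase R ⊆ ((SS A).filter fun t => t.1 = v).image fun t => t.2.1 := by
    intro P hP
    rw [mem_erase] at hP
    have hP' := mem_thru.1 hP.2
    have hR' := mem_thru.1 hR
    have hlt : P.1 < R.1 :=
      lt_of_le_of_ne (hmax P hP.2) fun e => hP.1 (on_fst_inj hP'.2 hR'.2 e)
    obtain ⟨Q, hQ⟩ := exists_Sec hP'.1 hR'.1 hP'.2 hR'.2 hlt
    exact mem_image.2 ⟨(v, P, Q), mem_filter.2 ⟨mem_SS.2 hQ, rfl⟩, rfl⟩
  have h2 := (card_le_card h1).trans card_image_le
  rw [card_erase_of_mem hR] at h2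
  unfold mult
  omega

lemma sum_mult_le : ∑ v ∈ VV A, mult A v ≤ (SS A).card + (VV A).card := by
  classical
  rw [card_eq_sum_card_fiberwise (f := Prod.fst) (s := SS A) (t := VV A), card_eq_sum_ones (VV A),
    ← sum_add_distrib]
  · exact sum_le_sum fun v hv => by convert sec_ge v (mem_VV.1 hv)
  · intro t ht
    exact mem_VV.2 (mem_SS.1 ht).isV

open Classical in
noncomputable def AlS (A : Finset Pt) (s : ℝ) : Finset Pt :=
  (VV A).filter fun w => ∃ v P Q, Al A s v P Q w

open Classical in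
noncomputable def BeS (A : Finset Pt) (s : ℝ) : Finset Pt :=
  (VV A).filter fun w => ∃ v P Q, Be A s v P Q w

lemma last_unique {s : ℝ} (hs : s ≠ 0) {P v v' : Pt} (hP : P ∈ A) (hv : IsV A v) (hv' : IsV A v')
    (h1 : On P v) (h2 : On P v') (n1 : ¬ ∃ w, NE A s P v w) (n2 : ¬ ∃ w, NE A s P v' w) :
    v = v' := by
  apply on_vert_eq h1 h2
  rcases lt_trichotomy 0 (s * (v'.1 - v.1)) with h | h | h
  · exact absurd (exists_NE hP hv h1 hv' h2 h) n1
  · have := (mul_eq_zero.1 h.symm).resolve_left hs; linarith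
  · exact absurd (exists_NE hP hv' h2 hv h1 (by linarith)) n2

lemma SS_le {s : ℝ} (hs : s ≠ 0) :
    (SS A).card ≤ (AlS A s).card + (BeS A s).card + 2 * A.card := by
  classical
  let S1 := (SS A).filter fun t => ∃ w, Al A s t.1 t.2.1 t.2.2 w
  let S2 := (SS A).filter fun t => ∃ w, Be A s t.1 t.2.1 t.2.2 w
  let S3 := (SS A).filter fun t => ¬ ∃ w, NE A s t.2.1 t.1 w
  let S4 := (SS A).filter fun t => ¬ ∃ w, NE A s t.2.2 t.1 w
  have hsub : SS A ⊆ S1 ∪ S2 ∪ S3 ∪ S4 := by
    intro t ht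
    simp only [S1, S2, S3, S4, mem_union, mem_filter]
    by_cases h3 : ∃ w, NE A s t.2.1 t.1 w
    · by_cases h4 : ∃ w, NE A s t.2.2 t.1 w
      · obtain ⟨w, hw⟩ := h3
        obtain ⟨w', hw'⟩ := h4
        rcases al_or_be (mem_SS.1 ht) hw hw' with h | h
        · exact Or.inl (Or.inl (Or.inl ⟨ht, w', h⟩))
        · exact Or.inl (Or.inl (Or.inr ⟨ht, w, h⟩))
      · exact Or.inr ⟨ht, h4⟩
    · exact Or.inl (Or.inr ⟨ht, h3⟩)
  have h1 : S1.card ≤ (AlS A s).card := by
    apply card_le_card_of_forall_subsingleton (fun t w => Al A s t.1 t.2.1 t.2.2 w)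
    · intro t ht
      obtain ⟨-, w, hw⟩ := mem_filter.1 ht
      exact ⟨w, mem_filter.2 ⟨mem_VV.2 hw.2.1.1.2.1, _, _, _, hw⟩, hw⟩
    · intro w _ t ht t' ht'
      obtain ⟨e1, e2, e3⟩ := ht.2.unique ht'.2
      exact Prod.ext e1 (Prod.ext e2 e3)
  have h2 : S2.card ≤ (BeS A s).card := by
    apply card_le_card_of_forall_subsingleton (fun t w => Be A s t.1 t.2.1 t.2.2 w)
    · intro t ht
      obtain ⟨-, w, hw⟩ := mem_filter.1 ht
      exact ⟨w, mem_filter.2 ⟨mem_VV.2 hw.2.1.1.2.1, _, _, _, hw⟩, hw⟩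
    · intro w _ t ht t' ht'
      obtain ⟨e1, e2, e3⟩ := ht.2.unique ht'.2
      exact Prod.ext e1 (Prod.ext e2 e3)
  have h3 : S3.card ≤ A.card := by
    apply card_le_card_of_injOn (fun t => t.2.1)
    · intro t ht
      exact (mem_SS.1 (mem_filter.1 ht).1).1
    · intro t ht t' ht' e
      obtain ⟨a1, a2⟩ := mem_filter.1 ht
      obtain ⟨b1, b2⟩ := mem_filter.1 ht'
      rw [mem_SS] at a1 b1
      simp only at e
      rw [← e] at b1 b2
      have e1 := last_unique hs a1.1 a1.isV b1.isV a1.2.2.1 b1.2.2.1 a2 b2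
      rw [← e1] at b1
      exact Prod.ext e1 (Prod.ext e (a1.right_unique b1))
  have h4 : S4.card ≤ A.card := by
    apply card_le_card_of_injOn (fun t => t.2.2)
    · intro t ht
      exact (mem_SS.1 (mem_filter.1 ht).1).2.1
    · intro t ht t' ht' e
      obtain ⟨a1, a2⟩ := mem_filter.1 ht
      obtain ⟨b1, b2⟩ := mem_filter.1 ht'
      rw [mem_SS] at a1 b1
      simp only at e
      rw [← e] at b1 b2
      have e1 := last_unique hs a1.2.1 a1.isV b1.isV a1.2.2.2.1 b1.2.2.2.1 a2 b2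
      rw [← e1] at b1
      exact Prod.ext e1 (Prod.ext (a1.left_unique b1) e)
  have := card_le_card hsub
  have u1 := card_union_le (S1 ∪ S2 ∪ S3) S4
  have u2 := card_union_le (S1 ∪ S2) S3
  have u3 := card_union_le S1 S2
  omega

open Classical in
noncomputable def DT (A : Finset Pt) : Finset (Pt × Pt) :=
  (DD A).filter fun d => ∃ u, Tri A d.1 d.2 u

def Mid (s : ℝ) (x y z : Pt) : Prop := 0 < s * (y.1 - x.1) ∧ 0 < s * (z.1 - y.1)

open Classical in
lemma both_le (s : ℝ) :
    (AlS A s ∩ BeS A (-s)).card ≤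
        ((DT A).filter fun d => Mid s d.1 (apex A d.1 d.2) d.2).card ∧
    (AlS A s ∩ BeS A (-s)).card ≤
        ((DT A).filter fun d => Mid s (apex A d.1 d.2) d.2 d.1).card ∧
    (AlS A s ∩ BeS A (-s)).card ≤
        ((DT A).filter fun d => Mid s d.2 d.1 (apex A d.1 d.2)).card := by
  have key : ∀ w ∈ AlS A s ∩ BeS A (-s), ∃ v v', Tri A v v' w ∧ Mid s v w v' := by
    intro w hw
    rw [mem_inter] at hw
    obtain ⟨-, v, P, Q, h⟩ := mem_filter.1 hw.1
    obtain ⟨-, v', P', Q', h'⟩ := mem_filter.1 hw.2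
    exact ⟨v, v', both_tri h h'⟩
  have ap : ∀ {x y z : Pt}, Tri A x y z → apex A x y = z := fun h => (apex_tri ⟨_, h⟩).unique h
  have md : ∀ {x y z : Pt}, Tri A x y z → (x, y) ∈ DT A := fun h =>
    mem_filter.2 ⟨mem_DD.2 h.1, _, h⟩
  refine ⟨?_, ?_, ?_⟩
  · refine le_trans (card_le_card ?_) (card_image_le (f := fun d => apex A d.1 d.2))
    intro w hw
    obtain ⟨v, v', h, hm⟩ := key w hw
    exact mem_image.2 ⟨(v, v'), mem_filter.2 ⟨md h, by simpa only [ap h] using hm⟩, ap h⟩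
  · refine le_trans (card_le_card ?_) (card_image_le (f := fun d => d.2))
    intro w hw
    obtain ⟨v, v', h, hm⟩ := key w hw
    exact mem_image.2 ⟨(v', w), mem_filter.2 ⟨md h.rot, by simpa only [ap h.rot] using hm⟩, rfl⟩
  · refine le_trans (card_le_card ?_) (card_image_le (f := fun d => d.1))
    intro w hw
    obtain ⟨v, v', h, hm⟩ := key w hw
    exact mem_image.2 ⟨(w, v), mem_filter.2 ⟨md h.rot.rot,
      by simpa only [ap h.rot.rot] using hm⟩, rfl⟩

open Classical in
lemma tri_count : 3 * ((AlS A 1 ∩ BeS A (-1)).card + (AlS A (-1) ∩ BeS A 1).card) ≤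
    (DT A).card := by
  obtain ⟨a1, a2, a3⟩ := both_le (A := A) 1
  obtain ⟨b1, b2, b3⟩ := both_le (A := A) (-1)
  rw [neg_neg] at b1 b2 b3
  have : ((DT A).filter fun d => Mid 1 d.1 (apex A d.1 d.2) d.2).card +
      ((DT A).filter fun d => Mid 1 (apex A d.1 d.2) d.2 d.1).card +
      ((DT A).filter fun d => Mid 1 d.2 d.1 (apex A d.1 d.2)).card +
      ((DT A).filter fun d => Mid (-1) d.1 (apex A d.1 d.2) d.2).card +
      ((DT A).filter fun d => Mid (-1) (apex A d.1 d.2) d.2 d.1).card +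
      ((DT A).filter fun d => Mid (-1) d.2 d.1 (apex A d.1 d.2)).card ≤ (DT A).card := by
    simp only [card_filter, ← sum_add_distrib]
    rw [card_eq_sum_ones (DT A)]
    apply sum_le_sum
    intro d hd
    obtain ⟨-, hu⟩ := mem_filter.1 hd
    have t := apex_tri hu
    generalize apex A d.1 d.2 = z at t
    unfold Mid
    split_ifs with h1 h2 h3 h4 h5 h6 <;> first | omega | (exfalso; casesm* _ ∧ _; linarith)
  omega

open Classical in
theorem bad_zero : ((DD A).filter fun d => ¬ Gd A 0 d.1 d.2).card ≤ 12 * t2 A + 24 * A.card := by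
  have h1 : (DD A).card ≤ ∑ v ∈ VV A, 2 * mult A v := by
    have := out_le_sum (A := A) (fun _ => True)
    simpa using this
  have h2 := sum_mult_le (A := A)
  have h3 := SS_le (A := A) (s := 1) one_ne_zero
  have h4 := SS_le (A := A) (s := -1) (by norm_num)
  have h5 := card_union_add_card_inter (AlS A 1) (BeS A (-1))
  have h6 := card_union_add_card_inter (AlS A (-1)) (BeS A 1)
  have h7 : (AlS A 1 ∪ BeS A (-1)).card ≤ (VV A).card :=
    card_le_card (union_subset (filter_subset _ _) (filter_subset _ _))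
  have h8 : (AlS A (-1) ∪ BeS A 1).card ≤ (VV A).card :=
    card_le_card (union_subset (filter_subset _ _) (filter_subset _ _))
  have h9 := tri_count (A := A)
  have h10 := out_le_sum (A := A) (fun v => mult A v ≠ 3)
  rw [← mul_sum] at h1 h10
  -- pointwise inequality: `12 - 4 m ≤ 4 [m = 2] - (m [m ≠ 3] - 2 [m = 2])`
  have h11 : 12 * (VV A).card + ∑ v ∈ (VV A).filter (fun v => mult A v ≠ 3), mult A v ≤
      4 * ∑ v ∈ VV A, mult A v + 6 * t2 A := by
    unfold t2
    rw [card_eq_sum_ones (VV A), card_filter, sum_filter, mul_sum, mul_sum, mul_sum,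
      ← sum_add_distrib, ← sum_add_distrib]
    apply sum_le_sum
    intro v hv
    have := mem_VV.1 hv
    unfold IsV at this
    split_ifs <;> omega
  have h12 : (DD A).filter (fun d => ¬ Gd A 0 d.1 d.2) ⊆
      (DD A \ DT A) ∪ (DD A).filter (fun d => mult A d.1 ≠ 3) := by
    intro d hd
    obtain ⟨a1, a2⟩ := mem_filter.1 hd
    by_cases hm : mult A d.1 = 3
    · refine mem_union_left _ (mem_sdiff.2 ⟨a1, fun h => a2 ⟨mem_DD.1 a1, hm, ?_⟩⟩)
      exact (mem_filter.1 h).2
    · exact mem_union_right _ (mem_filter.2 ⟨a1, hm⟩)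
  have h13 := (card_le_card h12).trans (card_union_le _ _)
  have h14 : (DD A \ DT A).card + (DT A).card = (DD A).card :=
    card_sdiff_add_card_eq_card (filter_subset _ _)
  omega

open Classical in
theorem bad_le (m : ℕ) :
    ((DD A).filter fun d => ¬ Gd A m d.1 d.2).card ≤ 3 ^ m * (12 * t2 A + 24 * A.card) := by
  induction m with
  | zero => simpa using bad_zero
  | succ m ih =>
    set B := (DD A).filter fun d => ¬ Gd A m d.1 d.2
    let B2 := (DD A).filter fun d => ¬ Gd A m d.2 d.1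
    let B3 := (DD A).filter fun d => ∃ u, Tri A d.1 d.2 u ∧ ¬ Gd A m d.2 u
    have hsub : (DD A).filter (fun d => ¬ Gd A (m + 1) d.1 d.2) ⊆ B ∪ B2 ∪ B3 := by
      intro d hd
      obtain ⟨a1, a2⟩ := mem_filter.1 hd
      simp only [B, B2, B3, mem_union, mem_filter]
      by_contra hc
      push Not at hc
      exact a2 ⟨hc.1.1 a1, hc.1.2 a1, hc.2 a1⟩
    have h2 : B2.card ≤ B.card := by
      apply card_le_card_of_injOn Prod.swap
      · intro d hd
        obtain ⟨a1, a2⟩ := mem_filter.1 hd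
        exact mem_filter.2 ⟨mem_DD.2 (mem_DD.1 a1).symm, a2⟩
      · exact Prod.swap_injective.injOn
    have h3 : B3.card ≤ B.card := by
      apply card_le_card_of_forall_subsingleton
        (fun d e => Tri A d.1 d.2 e.2 ∧ e.1 = d.2)
      · intro d hd
        obtain ⟨-, u, h1, h2⟩ := mem_filter.1 hd
        exact ⟨(d.2, u), mem_filter.2 ⟨mem_DD.2 h1.2.1, h2⟩, h1, rfl⟩
      · intro e _ d hd d' hd'
        have e1 : d.2 = d'.2 := hd.2.2.symm.trans hd'.2.2
        have t := hd'.2.1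
        rw [← e1] at t
        exact Prod.ext (hd.2.1.rot.unique t.rot) e1
    have := card_le_card hsub
    have u1 := card_union_le (B ∪ B2) B3
    have u2 := card_union_le B B2
    rw [pow_succ]
    nlinarith

end CubicStab
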