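import Pool.Agent.P.MP_029dcd_co.Cut

/-! The multi-scale gluing of local cubics. -/

set_option autoImplicit false

namespace CubicStab

open Finset

variable {A : Finset Pt}

open Classical in
/-- lines having a vertex in the cell with label `l` -/
noncomputable def LC {ι : Type*} (A : Finset Pt) (lab : Pt → ι) (l : ι) : Finset Pt :=
  A.filter fun P => ∃ v, IsV A v ∧ lab v = l ∧ On P v

lemma mem_LC {ι : Type*} {lab : Pt → ι} {l : ι} {P : Pt} :
    P ∈ LC A lab l ↔ P ∈ A ∧ ∃ v, IsV A v ∧ lab v = l ∧ On P v := by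
  classical
  unfold LC; rw [mem_filter]

lemma NE.flip {s : ℝ} {P v w : Pt} (h : NE A s P v w) : NE A (-s) P w v :=
  ⟨h.1.symm, h.2.2.1, h.2.1, by linarith [h.2.2.2]⟩

lemma NE.mem_RE {P v w : Pt} (h : NE A 1 P v w) : (v, w) ∈ RE A :=
  CubicStab.mem_RE.2 ⟨h.1, by linarith [h.2.2.2]⟩

lemma sum_LC {ι : Type*} [DecidableEq ι] (lab : Pt → ι) :
    ∑ l ∈ (VV A).image lab, (LC A lab l).card ≤ A.card + XX A lab := by
  classical
  rw [← card_sigma]
  set Sg := ((VV A).image lab).sigma fun l => LC A lab l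
  let S1 := Sg.filter fun x => ∃ v w, NE A 1 x.2 w v ∧ lab v = x.1 ∧ lab w ≠ lab v
  let S2 := Sg.filter fun x => ∃ v, IsV A v ∧ On x.2 v ∧ lab v = x.1 ∧ ¬ ∃ w, NE A (-1) x.2 v w
  have hsub : Sg ⊆ S1 ∪ S2 := by
    intro x hx
    obtain ⟨hP, v0, hv0, hl0, ho0⟩ := mem_LC.1 (mem_sigma.1 hx).2
    obtain ⟨v, hv, hmin⟩ := exists_min_image
      ((VV A).filter fun v => lab v = x.1 ∧ On x.2 v) (fun v => v.1)
      ⟨v0, mem_filter.2 ⟨mem_VV.2 hv0, hl0, ho0⟩⟩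
    rw [mem_filter, mem_VV] at hv
    simp only [S1, S2, mem_union, mem_filter]
    by_cases h : ∃ w, NE A (-1) x.2 v w
    · obtain ⟨w, hw⟩ := h
      have hw' := hw.flip
      rw [neg_neg] at hw'
      refine Or.inl ⟨hx, v, w, hw', hv.2.1, fun e => ?_⟩
      have := hmin w (mem_filter.2 ⟨mem_VV.2 hw.1.2.1, e.trans hv.2.1, hw.2.2.1⟩)
      linarith [hw.2.2.2]
    · exact Or.inr ⟨hx, v, hv.1, hv.2.2, hv.2.1, h⟩
  have h1 : S1.card ≤ XX A lab := by
    unfold XX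
    apply card_le_card_of_forall_subsingleton (fun x d => NE A 1 x.2 d.1 d.2 ∧ lab d.2 = x.1)
    · intro x hx
      obtain ⟨-, v, w, h1, h2, h3⟩ := mem_filter.1 hx
      exact ⟨(w, v), by simp only [mem_filter]; exact ⟨h1.mem_RE, h3⟩, h1, h2⟩
    · intro d _ x hx y hy
      have e1 : x.1 = y.1 := hx.2.2.symm.trans hy.2.2
      have e2 : x.2 = y.2 :=
        pt_unique hx.2.1.1.2.2.1 hx.2.1.2.1 hx.2.1.2.2.1 hy.2.1.2.1 hy.2.1.2.2.1
      exact Sigma.ext e1 (heq_of_eq e2)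
  have h2 : S2.card ≤ A.card := by
    apply card_le_card_of_injOn (fun x => x.2)
    · intro x hx
      exact (mem_LC.1 (mem_sigma.1 (mem_filter.1 hx).1).2).1
    · intro x hx y hy e
      obtain ⟨a0, v, a1, a2, a3, a4⟩ := mem_filter.1 hx
      obtain ⟨-, w, b1, b2, b3, b4⟩ := mem_filter.1 hy
      simp only at e
      rw [← e] at b2 b4
      have := last_unique (s := -1) (by norm_num) (mem_LC.1 (mem_sigma.1 a0).2).1 a1 b1 a2 b2 a4 b4
      exact Sigma.ext (by rw [← a3, ← b3, this]) (heq_of_eq e)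
  have := (card_le_card hsub).trans (card_union_le _ _)
  omega

lemma near_disjoint {α : Type*} [DecidableEq α] (U : Finset α) (F : Finset (Finset α)) (t B : ℕ)
    (θ : ℝ) (hθ : 0 ≤ θ) (ht : ∀ S ∈ F, t ≤ (S ∩ U).card)
    (hB : ∀ S ∈ F, ∀ S' ∈ F, S ≠ S' → (S ∩ S').card ≤ B)
    (h : (B : ℝ) * U.card ≤ θ * (t : ℝ) ^ 2) :
    (1 - θ) * (∑ S ∈ F, ((S ∩ U).card : ℝ)) ≤ U.card := by
  set I := ∑ S ∈ F, ((S ∩ U).card : ℝ) with hI
  let χ : Finset α → α → ℝ := fun S x => if x ∈ S then 1 else 0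
  have e1 : ∀ S : Finset α, ((S ∩ U).card : ℝ) = ∑ x ∈ U, χ S x := by
    intro S
    simp only [χ]
    rw [sum_boole, filter_mem_eq_inter, inter_comm]
  have e2 : I = ∑ x ∈ U, ∑ S ∈ F, χ S x := by
    rw [hI, sum_comm]; exact sum_congr rfl fun S _ => e1 S
  have e3 : ∑ x ∈ U, (∑ S ∈ F, χ S x) ^ 2 ≤ I + B * (F.card : ℝ) ^ 2 := by
    have : ∑ x ∈ U, (∑ S ∈ F, χ S x) ^ 2 = ∑ S ∈ F, ∑ S' ∈ F, ∑ x ∈ U, χ S x * χ S' x := by
      simp only [sq, sum_mul_sum]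
      rw [sum_comm]
      exact sum_congr rfl fun S _ => sum_comm
    rw [this, hI]
    have : (B : ℝ) * (F.card : ℝ) ^ 2 = ∑ _S ∈ F, ∑ _S' ∈ F, (B : ℝ) := by
      simp [sq]; ring
    rw [this, ← sum_add_distrib]
    apply sum_le_sum
    intro S hS
    have : ((S ∩ U).card : ℝ) = ∑ S' ∈ F, if S = S' then ((S ∩ U).card : ℝ) else 0 := by
      rw [sum_ite_eq, if_pos hS]
    rw [this, ← sum_add_distrib]
    apply sum_le_sum
    intro S' hS'
    have e : ∑ x ∈ U, χ S x * χ S' x = ((S ∩ S' ∩ U).card : ℝ) := by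
      rw [e1]
      apply sum_congr rfl
      intro x _
      simp only [χ, mem_inter]
      by_cases h1 : x ∈ S <;> by_cases h2 : x ∈ S' <;> simp [h1, h2]
    rw [e]
    split_ifs with hc
    · subst hc
      rw [inter_self]
      linarith [Nat.cast_nonneg (α := ℝ) B]
    · have h1 : (S ∩ S' ∩ U).card ≤ B :=
        (card_le_card inter_subset_left).trans (hB S hS S' hS' hc)
      rw [zero_add]
      exact_mod_cast h1
  have e4 : I ^ 2 ≤ U.card * ∑ x ∈ U, (∑ S ∈ F, χ S x) ^ 2 := by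
    rw [e2]; exact sq_sum_le_card_mul_sum_sq
  have e5 : (F.card : ℝ) * t ≤ I := by
    rw [hI, ← nsmul_eq_mul]
    apply card_nsmul_le_sum
    intro S hS
    exact_mod_cast ht S hS
  have hI0 : 0 ≤ I := sum_nonneg fun _ _ => Nat.cast_nonneg _
  have hU : (0 : ℝ) ≤ U.card := Nat.cast_nonneg _
  have e6 : I ^ 2 ≤ U.card * I + θ * I ^ 2 := by
    have a1 : ((F.card : ℝ) * t) ^ 2 ≤ I ^ 2 := pow_le_pow_left₀ (by positivity) e5 2
    have a2 : (B : ℝ) * U.card * (F.card : ℝ) ^ 2 ≤ θ * (t : ℝ) ^ 2 * (F.card : ℝ) ^ 2 :=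
      mul_le_mul_of_nonneg_right h (by positivity)
    have a3 := mul_le_mul_of_nonneg_left e3 hU
    have a4 := mul_le_mul_of_nonneg_left a1 hθ
    nlinarith
  rcases hI0.lt_or_eq with hp | hp
  · have : I * ((1 - θ) * I) ≤ I * U.card := by nlinarith
    exact le_of_mul_le_mul_left this hp
  · rw [← hp]; simp

open Classical in
noncomputable def zs (A : Finset Pt) (f : Pl) : Finset Pt := A.filter fun P => ev f P = 0

lemma mem_zs {f : Pl} {P : Pt} : P ∈ zs A f ↔ P ∈ A ∧ ev f P = 0 := by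
  classical
  unfold zs; rw [mem_filter]

open Classical in
noncomputable def Col (A : Finset Pt) : Finset (Finset Pt) :=
  A.powerset.filter fun S => ∃ f : Pl, Irreducible f ∧ f.totalDegree ≤ 3 ∧ S = zs A f

lemma mem_Col {S : Finset Pt} :
    S ∈ Col A ↔ ∃ f : Pl, Irreducible f ∧ f.totalDegree ≤ 3 ∧ S = zs A f := by
  classical
  unfold Col
  rw [mem_filter, mem_powerset]
  refine ⟨fun h => h.2, fun h => ⟨?_, h⟩⟩
  obtain ⟨f, -, -, rfl⟩ := h
  exact fun P hP => (mem_zs.1 hP).1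

lemma Col_sub {S : Finset Pt} (h : S ∈ Col A) : S ⊆ A := by
  obtain ⟨f, -, -, rfl⟩ := mem_Col.1 h
  exact fun P hP => (mem_zs.1 hP).1

open Classical in
lemma col_inter (hinj : Set.InjOn Prod.fst (A : Set Pt)) {S S' : Finset Pt} (h : S ∈ Col A)
    (h' : S' ∈ Col A) (hne : S ≠ S') : (S ∩ S').card ≤ 18 := by
  obtain ⟨f, hf, hf3, rfl⟩ := mem_Col.1 h
  obtain ⟨g, hg, hg3, rfl⟩ := mem_Col.1 h'
  have hi : Set.InjOn Prod.fst ((zs A f ∩ zs A g : Finset Pt) : Set Pt) :=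
    hinj.mono fun P hP => (mem_zs.1 (mem_inter.1 hP).1).1
  have hz : ∀ P ∈ zs A f ∩ zs A g, ev f P = 0 ∧ ev g P = 0 := fun P hP =>
    ⟨(mem_zs.1 (mem_inter.1 hP).1).2, (mem_zs.1 (mem_inter.1 hP).2).2⟩
  by_cases h1 : f ∣ g
  · by_cases h2 : g ∣ f
    · exfalso
      apply hne
      ext P
      obtain ⟨a, ha⟩ := h1
      obtain ⟨b, hb⟩ := h2
      simp only [mem_zs]
      constructor
      · rintro ⟨hP, e⟩; exact ⟨hP, by rw [ha, ev_mul, e, zero_mul]⟩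
      · rintro ⟨hP, e⟩; exact ⟨hP, by rw [hb, ev_mul, e, zero_mul]⟩
    · exact bezout g f hg h2 hg3 hf3 _ hi fun P hP => (hz P hP).symm
  · exact bezout f g hf h1 hf3 hg3 _ hi hz

open Classical in
noncomputable def Dom {ι : Type*} (A : Finset Pt) (lab : Pt → ι) (t : ℕ) : Finset (Pt × Pt) :=
  (A ×ˢ A).filter fun q => q.1 ≠ q.2 ∧ ∃ S ∈ Col A, q.1 ∈ S ∧ q.2 ∈ S ∧
    t ≤ (S ∩ LC A lab (lab (xpt q.1 q.2))).card

open Classical in
lemma mem_Dom {ι : Type*} {lab : Pt → ι} {t : ℕ} {q : Pt × Pt} :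
    q ∈ Dom A lab t ↔ q.1 ∈ A ∧ q.2 ∈ A ∧ q.1 ≠ q.2 ∧ ∃ S ∈ Col A, q.1 ∈ S ∧ q.2 ∈ S ∧
      t ≤ (S ∩ LC A lab (lab (xpt q.1 q.2))).card := by
  unfold Dom
  rw [mem_filter, mem_product, and_assoc]

lemma xpt_spec (hinj : Set.InjOn Prod.fst (A : Set Pt)) {P Q : Pt} (hP : P ∈ A) (hQ : Q ∈ A)
    (h : P ≠ Q) : IsV A (xpt P Q) ∧ On P (xpt P Q) ∧ On Q (xpt P Q) := by
  have hne : P.1 ≠ Q.1 := fun e => h (hinj hP hQ e)
  exact ⟨isV_of hP hQ h (xpt_on hne).1 (xpt_on hne).2, xpt_on hne⟩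

open Classical in
lemma final_step (hinj : Set.InjOn Prod.fst (A : Set Pt)) {ι : Type*} (lab : Pt → ι) (t : ℕ)
    (θ Mx : ℝ) (hθ : 0 ≤ θ) (hθ1 : θ ≤ 1) (hM0 : 0 ≤ Mx) (hM : ∀ S ∈ Col A, (S.card : ℝ) ≤ Mx)
    (h : (18 : ℝ) * A.card ≤ θ * (t : ℝ) ^ 2) :
    (1 - θ) * ((Dom A lab t).card : ℝ) ≤ Mx * A.card := by
  let F := (Col A).filter fun S => t ≤ (S ∩ A).card
  have h1 : Dom A lab t ⊆ F.biUnion fun S => S ×ˢ S := by
    intro q hq
    obtain ⟨-, -, -, S, hS, a1, a2, a3⟩ := mem_Dom.1 hq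
    refine mem_biUnion.2 ⟨S, mem_filter.2 ⟨hS, a3.trans (card_le_card ?_)⟩,
      mem_product.2 ⟨a1, a2⟩⟩
    exact inter_subset_inter_left fun P hP => (mem_LC.1 hP).1
  have h2 := (card_le_card h1).trans card_biUnion_le
  have h3 := near_disjoint A F t 18 θ hθ (fun S hS => (mem_filter.1 hS).2)
    (fun S hS S' hS' hne => col_inter hinj (mem_filter.1 hS).1 (mem_filter.1 hS').1 hne)
    (by exact_mod_cast h)
  have h4 : ((Dom A lab t).card : ℝ) ≤ Mx * ∑ S ∈ F, ((S ∩ A).card : ℝ) := by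
    refine le_trans (Nat.cast_le.2 h2) ?_
    rw [Nat.cast_sum, mul_sum]
    apply sum_le_sum
    intro S hS
    have hS' := (mem_filter.1 hS).1
    rw [card_product, inter_eq_left.2 (Col_sub hS'), Nat.cast_mul]
    exact mul_le_mul_of_nonneg_right (hM S hS') (Nat.cast_nonneg _)
  calc (1 - θ) * ((Dom A lab t).card : ℝ)
      ≤ (1 - θ) * (Mx * ∑ S ∈ F, ((S ∩ A).card : ℝ)) :=
        mul_le_mul_of_nonneg_left h4 (by linarith)
    _ = Mx * ((1 - θ) * ∑ S ∈ F, ((S ∩ A).card : ℝ)) := by ring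
    _ ≤ Mx * A.card := mul_le_mul_of_nonneg_left h3 hM0

open Classical in
lemma step (hinj : Set.InjOn Prod.fst (A : Set Pt)) {k : ℕ} (hk : ∀ v, mult A v ≤ k)
    {ι ι' : Type*} (lab : Pt → ι) (lab' : Pt → ι')
    (href : ∀ v w, lab v = lab w → lab' v = lab' w) (t t' s h : ℕ) (hs : 0 < s)
    (hh : ∀ l, ((VV A).filter fun v => lab' v = l).card ≤ h) (hst : 36 * s ≤ t ^ 2) :
    ((Dom A lab t).card : ℝ) ≤ (Dom A lab' t').card +
      (k ^ 2 * h / s + 2 * t') * ((A.card : ℝ) + XX A lab') := by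
  set Lb := (VV A).image lab'
  have hY : ∑ l ∈ Lb, ((LC A lab' l).card : ℝ) ≤ (A.card : ℝ) + XX A lab' := by
    exact_mod_cast sum_LC (A := A) lab'
  let Hv := Lb.filter fun l => s < (LC A lab' l).card
  let Lt := Lb.filter fun l => (LC A lab' l).card ≤ s
  let F : ι' → Finset (Finset Pt) := fun l => (Col A).filter fun S =>
    t ≤ (S ∩ LC A lab' l).card ∧ (S ∩ LC A lab' l).card < t'
  let P1 := Hv.biUnion fun l => ((VV A).filter fun v => lab' v = l).biUnion fun v =>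
    thru A v ×ˢ thru A v
  let P2 := Lt.biUnion fun l => (F l).biUnion fun S => (S ∩ LC A lab' l) ×ˢ (S ∩ LC A lab' l)
  have hsub : Dom A lab t ⊆ Dom A lab' t' ∪ P1 ∪ P2 := by
    intro q hq
    obtain ⟨a1, a2, a3, S, hS, a4, a5, a6⟩ := mem_Dom.1 hq
    obtain ⟨b1, b2, b3⟩ := xpt_spec hinj a1 a2 a3
    have hl : lab' (xpt q.1 q.2) ∈ Lb := mem_image.2 ⟨_, mem_VV.2 b1, rfl⟩
    have a7 : t ≤ (S ∩ LC A lab' (lab' (xpt q.1 q.2))).card := by
      refine a6.trans (card_le_card (inter_subset_inter_left ?_))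
      intro P hP
      obtain ⟨c1, v, c2, c3, c4⟩ := mem_LC.1 hP
      exact mem_LC.2 ⟨c1, v, c2, href _ _ c3, c4⟩
    rw [mem_union, mem_union]
    by_cases c1 : t' ≤ (S ∩ LC A lab' (lab' (xpt q.1 q.2))).card
    · exact Or.inl (Or.inl (mem_Dom.2 ⟨a1, a2, a3, S, hS, a4, a5, c1⟩))
    by_cases c2 : s < (LC A lab' (lab' (xpt q.1 q.2))).card
    · refine Or.inl (Or.inr (mem_biUnion.2 ⟨_, mem_filter.2 ⟨hl, c2⟩, mem_biUnion.2
        ⟨xpt q.1 q.2, mem_filter.2 ⟨mem_VV.2 b1, rfl⟩, mem_product.2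
          ⟨mem_thru.2 ⟨a1, b2⟩, mem_thru.2 ⟨a2, b3⟩⟩⟩⟩))
    · refine Or.inr (mem_biUnion.2 ⟨_, mem_filter.2 ⟨hl, not_lt.1 c2⟩, mem_biUnion.2
        ⟨S, mem_filter.2 ⟨hS, a7, not_le.1 c1⟩, mem_product.2
          ⟨mem_inter.2 ⟨a4, mem_LC.2 ⟨a1, _, b1, rfl, b2⟩⟩,
            mem_inter.2 ⟨a5, mem_LC.2 ⟨a2, _, b1, rfl, b3⟩⟩⟩⟩⟩)
  have h1 : P1.card ≤ Hv.card * (h * k ^ 2) := by
    apply card_biUnion_le_card_mul
    intro l _
    refine le_trans (card_biUnion_le_card_mul _ _ (k ^ 2) ?_) (Nat.mul_le_mul_right _ (hh l))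
    intro v _
    rw [card_product, sq]
    exact Nat.mul_le_mul (hk v) (hk v)
  have h2 : (Hv.card : ℝ) * s ≤ (A.card : ℝ) + XX A lab' := by
    refine le_trans ?_ hY
    refine le_trans ?_ (sum_le_sum_of_subset_of_nonneg (filter_subset _ Lb : Hv ⊆ Lb)
      fun _ _ _ => Nat.cast_nonneg _)
    rw [← nsmul_eq_mul]
    apply card_nsmul_le_sum
    intro l hl
    exact_mod_cast (mem_filter.1 hl).2.le
  have h3 : (P2.card : ℝ) ≤ 2 * t' * ((A.card : ℝ) + XX A lab') := by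
    refine le_trans (Nat.cast_le.2 card_biUnion_le) ?_
    refine le_trans ?_ (mul_le_mul_of_nonneg_left hY (by positivity))
    refine le_trans ?_ (mul_le_mul_of_nonneg_left
      (sum_le_sum_of_subset_of_nonneg (filter_subset _ Lb : Lt ⊆ Lb)
      fun _ _ _ => Nat.cast_nonneg _) (by positivity))
    rw [Nat.cast_sum, mul_sum]
    apply sum_le_sum
    intro l hl
    refine le_trans (Nat.cast_le.2 card_biUnion_le) ?_
    have nd := near_disjoint (LC A lab' l) (F l) t 18 (1 / 2) (by norm_num)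
      (fun S hS => (mem_filter.1 hS).2.1)
      (fun S hS S' hS' hne => col_inter hinj (mem_filter.1 hS).1 (mem_filter.1 hS').1 hne)
      (by
        have a1 : ((LC A lab' l).card : ℝ) ≤ s := by exact_mod_cast (mem_filter.1 hl).2
        have a2 : (36 : ℝ) * s ≤ (t : ℝ) ^ 2 := by exact_mod_cast hst
        push_cast; linarith)
    have : ((∑ S ∈ F l, ((S ∩ LC A lab' l) ×ˢ (S ∩ LC A lab' l)).card : ℕ) : ℝ) ≤
        t' * ∑ S ∈ F l, ((S ∩ LC A lab' l).card : ℝ) := by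
      rw [Nat.cast_sum, mul_sum]
      apply sum_le_sum
      intro S hS
      rw [card_product, Nat.cast_mul]
      apply mul_le_mul_of_nonneg_right _ (Nat.cast_nonneg _)
      exact_mod_cast (mem_filter.1 hS).2.2.le
    refine this.trans ?_
    have ht : (0 : ℝ) ≤ t' := Nat.cast_nonneg _
    nlinarith
  have h4 : (Dom A lab t).card ≤ (Dom A lab' t').card + P1.card + P2.card :=
    (card_le_card hsub).trans ((card_union_le _ _).trans
      (Nat.add_le_add_right (card_union_le _ _) _))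
  have h5 : (P1.card : ℝ) ≤ k ^ 2 * h / s * ((A.card : ℝ) + XX A lab') := by
    have hs' : (0 : ℝ) < s := by exact_mod_cast hs
    calc (P1.card : ℝ) ≤ Hv.card * (h * k ^ 2) := by exact_mod_cast h1
      _ = k ^ 2 * h / s * (Hv.card * s) := by field_simp
      _ ≤ _ := mul_le_mul_of_nonneg_left h2 (by positivity)
  have h6 : ((Dom A lab t).card : ℝ) ≤ (Dom A lab' t').card + P1.card + P2.card := by
    exact_mod_cast h4
  linarith

end CubicStab
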