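import Mathlib

/-! Plane cubics: division by a line, the Chasles nine point theorem, a Bezout bound. -/

set_option autoImplicit false

namespace CubicStab

open MvPolynomial

abbrev Pt := ℝ × ℝ
abbrev Pl := MvPolynomial (Fin 2) ℝ

/-- value of `f` at the point `P` (variable `0` is the second coordinate). -/
noncomputable def ev (f : Pl) (P : Pt) : ℝ := eval ![P.2, P.1] f

/-- the point `P` lies on the non-vertical line coded by `v`. -/
def On (P v : Pt) : Prop := P.1 * v.1 + P.2 = v.2

noncomputable def Lp (v : Pt) : Pl := X 0 + C v.1 * X 1 - C v.2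

lemma ev_Lp (v P : Pt) : ev (Lp v) P = P.1 * v.1 + P.2 - v.2 := by
  simp [ev, Lp]; ring

lemma ev_Lp_eq_zero {v P : Pt} : ev (Lp v) P = 0 ↔ On P v := by
  rw [ev_Lp, On, sub_eq_zero]

lemma ev_mul (f g : Pl) (P : Pt) : ev (f * g) P = ev f P * ev g P := by simp [ev]
lemma ev_sub (f g : Pl) (P : Pt) : ev (f - g) P = ev f P - ev g P := by simp [ev]
lemma ev_C (c : ℝ) (P : Pt) : ev (C c) P = c := by simp [ev]
lemma ev_zero (P : Pt) : ev 0 P = 0 := by simp [ev]

lemma Lp_ne_zero (v : Pt) : Lp v ≠ 0 := by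
  intro h
  have h1 := ev_Lp v (0, v.2 + 1)
  rw [h, ev_zero] at h1
  simp at h1

lemma totalDegree_Lp_le (v : Pt) : (Lp v).totalDegree ≤ 1 := by
  unfold Lp
  refine (totalDegree_sub_C_le _ _).trans ?_
  refine (totalDegree_add _ _).trans (max_le (by simp) ?_)
  refine (totalDegree_mul _ _).trans ?_
  simp

lemma totalDegree_Lp (v : Pt) : (Lp v).totalDegree = 1 := by
  refine le_antisymm (totalDegree_Lp_le v) ?_
  by_contra h
  have h0 : (Lp v).totalDegree = 0 := by omega
  rw [totalDegree_eq_zero_iff_eq_C] at h0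
  have h1 := ev_Lp v (0, v.2 + 1)
  have h2 := ev_Lp v (0, v.2)
  rw [h0, ev_C] at h1 h2
  simp at h1 h2
  rw [h1] at h2
  exact one_ne_zero h2

lemma on_fst_inj {P Q v : Pt} (hP : On P v) (hQ : On Q v) (h : P.1 = Q.1) : P = Q := by
  unfold On at hP hQ
  ext
  · exact h
  · rw [h] at hP; linarith

/-- two points with different first coordinates lie on at most one non-vertical line -/
lemma line_unique {P Q v w : Pt} (hPQ : P ≠ Q) (h1 : On P v) (h2 : On Q v) (h3 : On P w)
    (h4 : On Q w) : v = w := by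
  have hne : P.1 ≠ Q.1 := fun h => hPQ (on_fst_inj h1 h2 h)
  unfold On at *
  have : (P.1 - Q.1) * (v.1 - w.1) = 0 := by linarith
  have h5 : v.1 = w.1 := by
    rcases mul_eq_zero.1 this with h | h
    · exact absurd (sub_eq_zero.1 h) hne
    · exact sub_eq_zero.1 h
  ext
  · exact h5
  · rw [h5] at h1; linarith

lemma Lp_dvd (f : Pl) (v : Pt) (S : Finset Pt) (hS : ∀ P ∈ S, On P v ∧ ev f P = 0)
    (hc : f.totalDegree < S.card) : Lp v ∣ f := by
  classical
  let ρ : Polynomial ℝ :=
    aeval ![Polynomial.C v.2 - Polynomial.C v.1 * Polynomial.X, Polynomial.X] f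
  have hρdeg : ρ.natDegree ≤ f.totalDegree * 1 := by
    apply aeval_natDegree_le f le_rfl
    intro i
    fin_cases i
    · simp only [Fin.zero_eta, Matrix.cons_val_zero]
      compute_degree
    · simp
  have hρev : ∀ a : ℝ, ρ.eval a = eval ![v.2 - v.1 * a, a] f := by
    intro a
    have : ∀ g : Pl, Polynomial.eval a (aeval ![Polynomial.C v.2 - Polynomial.C v.1 * Polynomial.X,
        Polynomial.X] g) = eval ![v.2 - v.1 * a, a] g := by
      intro g
      induction g using MvPolynomial.induction_on with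
      | C c => simp
      | add p q hp hq => simp [hp, hq]
      | mul_X p i hp => fin_cases i <;> simp [hp]
    exact this f
  have hρ : ρ = 0 := by
    apply Polynomial.eq_zero_of_natDegree_lt_card_of_eval_eq_zero' ρ (S.image Prod.fst)
    · intro a ha
      obtain ⟨P, hP, rfl⟩ := Finset.mem_image.1 ha
      rw [hρev]
      have h1 := (hS P hP).1
      have h2 := (hS P hP).2
      unfold On at h1
      unfold ev at h2
      have : v.2 - v.1 * P.1 = P.2 := by linarith
      rw [this]; exact h2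
    · rw [Finset.card_image_of_injOn]
      · omega
      · intro P hP Q hQ h
        exact on_fst_inj (hS P hP).1 (hS Q hQ).1 h
  let φ : Pl →ₐ[ℝ] Pl := aeval ![C v.2 - C v.1 * X 1, X 1]
  have hφ : ∀ g : Pl, Lp v ∣ g - φ g := by
    intro g
    induction g using MvPolynomial.induction_on with
    | C c => simp [φ]
    | add p q hp hq =>
      have : p + q - φ (p + q) = (p - φ p) + (q - φ q) := by rw [map_add]; ring
      rw [this]; exact dvd_add hp hq
    | mul_X p i hp =>
      have h1 : Lp v ∣ X i - φ (X i) := by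
        fin_cases i
        · have : (X 0 : Pl) - φ (X 0) = Lp v := by simp [φ, Lp]; ring
          exact this ▸ dvd_rfl
        · simp [φ]
      have : p * X i - φ (p * X i) = (p - φ p) * X i + φ p * (X i - φ (X i)) := by
        rw [map_mul]; ring
      rw [this]
      exact dvd_add (hp.mul_right _) (h1.mul_left _)
  have hφ0 : φ f = 0 := by
    apply MvPolynomial.funext
    intro x
    have : ∀ g : Pl, eval x (φ g) = eval ![v.2 - v.1 * x 1, x 1] g := by
      intro g
      induction g using MvPolynomial.induction_on with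
      | C c => simp [φ]
      | add p q hp hq => simp [hp, hq]
      | mul_X p i hp =>
        rw [map_mul, map_mul, hp, map_mul]
        fin_cases i <;> simp [φ]
    rw [this, ← hρev, hρ]; simp
  have := hφ f
  rwa [hφ0, sub_zero] at this

/-- division with degree control -/
lemma div_line (f : Pl) (d : ℕ) (hd : f.totalDegree ≤ d + 1) (v : Pt) (S : Finset Pt)
    (hS : ∀ P ∈ S, On P v ∧ ev f P = 0) (hc : d + 1 < S.card) :
    ∃ g : Pl, f = Lp v * g ∧ g.totalDegree ≤ d := by
  obtain ⟨g, hg⟩ := Lp_dvd f v S hS (by omega)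
  refine ⟨g, hg, ?_⟩
  by_cases h0 : g = 0
  · simp [h0]
  · rw [hg, totalDegree_mul_of_isDomain (Lp_ne_zero v) h0, totalDegree_Lp] at hd
    omega

lemma ev_const {f : Pl} (hf : f.totalDegree ≤ 0) (P Q : Pt) : ev f P = ev f Q := by
  have h0 : f.totalDegree = 0 := by omega
  rw [totalDegree_eq_zero_iff_eq_C] at h0
  rw [h0, ev_C, ev_C]

lemma eq_zero_of_const {f : Pl} (hf : f.totalDegree ≤ 0) (P : Pt) (h : ev f P = 0) : f = 0 := by
  have h0 : f.totalDegree = 0 := by omega
  rw [totalDegree_eq_zero_iff_eq_C] at h0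
  rw [h0, ev_C] at h
  rw [h0, h]; simp

/-- Chasles: a cubic through eight of the nine intersection points of two triples of lines passes
through the ninth. -/
lemma chasles (f : Pl) (hf : f.totalDegree ≤ 3) (l1 l2 l3 m1 m2 m3 : Pt)
    (P11 P12 P13 P21 P22 P23 P31 P32 P33 : Pt)
    (a11 : On P11 l1) (a12 : On P12 l1) (a13 : On P13 l1)
    (a21 : On P21 l2) (a22 : On P22 l2) (a23 : On P23 l2)
    (a31 : On P31 l3) (a32 : On P32 l3) (a33 : On P33 l3)
    (b11 : On P11 m1) (b21 : On P21 m1) (b31 : On P31 m1)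
    (b12 : On P12 m2) (b22 : On P22 m2) (b32 : On P32 m2)
    (b13 : On P13 m3) (b23 : On P23 m3) (b33 : On P33 m3)
    (n21 : ¬ On P21 l1) (n22 : ¬ On P22 l1) (n23 : ¬ On P23 l1)
    (n31 : ¬ On P31 l1) (n32 : ¬ On P32 l1) (n31' : ¬ On P31 l2) (n32' : ¬ On P32 l2)
    (d1 : P11 ≠ P12) (d2 : P11 ≠ P13) (d3 : P12 ≠ P13)
    (d4 : P21 ≠ P22) (d5 : P21 ≠ P23) (d6 : P22 ≠ P23) (d7 : P31 ≠ P32)
    (z11 : ev f P11 = 0) (z12 : ev f P12 = 0) (z13 : ev f P13 = 0)
    (z21 : ev f P21 = 0) (z22 : ev f P22 = 0) (z23 : ev f P23 = 0)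
    (z31 : ev f P31 = 0) (z32 : ev f P32 = 0) : ev f P33 = 0 := by
  classical
  -- a fourth point on l1
  obtain ⟨a, ha⟩ := Infinite.exists_notMem_finset ({P11.1, P12.1, P13.1} : Finset ℝ)
  simp only [Finset.mem_insert, Finset.mem_singleton, not_or] at ha
  let Q : Pt := (a, l1.2 - a * l1.1)
  have hQ : On Q l1 := by simp [On, Q]
  have hQ1 : Q ≠ P11 := fun h => ha.1 (by rw [← h])
  have hQ2 : Q ≠ P12 := fun h => ha.2.1 (by rw [← h])
  have hQ3 : Q ≠ P13 := fun h => ha.2.2 (by rw [← h])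
  have hm1 : ¬ On Q m1 := fun h => n21 (line_unique hQ1 h b11 hQ a11 ▸ b21)
  have hm2 : ¬ On Q m2 := fun h => n22 (line_unique hQ2 h b12 hQ a12 ▸ b22)
  have hm3 : ¬ On Q m3 := fun h => n23 (line_unique hQ3 h b13 hQ a13 ▸ b23)
  let M : Pl := Lp m1 * Lp m2 * Lp m3
  have hMdeg : M.totalDegree ≤ 3 := by
    refine (totalDegree_mul _ _).trans ?_
    have := totalDegree_mul (Lp m1) (Lp m2)
    have := totalDegree_Lp m1
    have := totalDegree_Lp m2
    have := totalDegree_Lp m3
    omega
  have hMev : ∀ P, ev M P = ev (Lp m1) P * ev (Lp m2) P * ev (Lp m3) P := by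
    intro P; simp only [M, ev_mul]
  have hM1 : ∀ P, On P m1 → ev M P = 0 := fun P h => by rw [hMev, ev_Lp_eq_zero.2 h]; ring
  have hM2 : ∀ P, On P m2 → ev M P = 0 := fun P h => by rw [hMev, ev_Lp_eq_zero.2 h]; ring
  have hM3 : ∀ P, On P m3 → ev M P = 0 := fun P h => by rw [hMev, ev_Lp_eq_zero.2 h]; ring
  have hMQ : ev M Q ≠ 0 := by
    rw [hMev]
    exact mul_ne_zero (mul_ne_zero (mt ev_Lp_eq_zero.1 hm1) (mt ev_Lp_eq_zero.1 hm2))
      (mt ev_Lp_eq_zero.1 hm3)
  let g : Pl := f - C (ev f Q / ev M Q) * M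
  have hgdeg : g.totalDegree ≤ 2 + 1 := by
    refine (totalDegree_sub _ _).trans (max_le hf ?_)
    refine (totalDegree_mul _ _).trans ?_
    simpa using hMdeg
  have hgev : ∀ P, ev g P = ev f P - ev f Q / ev M Q * ev M P := by
    intro P; simp only [g, ev_sub, ev_mul, ev_C]
  obtain ⟨q, hq, hqd⟩ := div_line g 2 hgdeg l1 {P11, P12, P13, Q} (by
      intro P hP
      simp only [Finset.mem_insert, Finset.mem_singleton] at hP
      rcases hP with rfl | rfl | rfl | rfl
      · exact ⟨a11, by rw [hgev, z11, hM1 _ b11]; ring⟩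
      · exact ⟨a12, by rw [hgev, z12, hM2 _ b12]; ring⟩
      · exact ⟨a13, by rw [hgev, z13, hM3 _ b13]; ring⟩
      · exact ⟨hQ, by rw [hgev]; field_simp; ring⟩) (by
      rw [Finset.card_insert_of_notMem (by simp [d1, d2, hQ1.symm]),
        Finset.card_insert_of_notMem (by simp [d3, hQ2.symm]),
        Finset.card_insert_of_notMem (by simp [hQ3.symm])]
      simp)
  have hq0 : ∀ P, ev g P = 0 → ¬ On P l1 → ev q P = 0 := by
    intro P h1 h2
    rw [hq, ev_mul] at h1
    exact (mul_eq_zero.1 h1).resolve_left (mt ev_Lp_eq_zero.1 h2)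
  obtain ⟨h, hh, hhd⟩ := div_line q 1 hqd l2 {P21, P22, P23} (by
      intro P hP
      simp only [Finset.mem_insert, Finset.mem_singleton] at hP
      rcases hP with rfl | rfl | rfl
      · exact ⟨a21, hq0 _ (by rw [hgev, z21, hM1 _ b21]; ring) n21⟩
      · exact ⟨a22, hq0 _ (by rw [hgev, z22, hM2 _ b22]; ring) n22⟩
      · exact ⟨a23, hq0 _ (by rw [hgev, z23, hM3 _ b23]; ring) n23⟩) (by
      rw [Finset.card_insert_of_notMem (by simp [d4, d5]),
        Finset.card_insert_of_notMem (by simp [d6])]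
      simp)
  have hh0 : ∀ P, ev q P = 0 → ¬ On P l2 → ev h P = 0 := by
    intro P h1 h2
    rw [hh, ev_mul] at h1
    exact (mul_eq_zero.1 h1).resolve_left (mt ev_Lp_eq_zero.1 h2)
  obtain ⟨c, hc, -⟩ := div_line h 0 hhd l3 {P31, P32} (by
      intro P hP
      simp only [Finset.mem_insert, Finset.mem_singleton] at hP
      rcases hP with rfl | rfl
      · exact ⟨a31, hh0 _ (hq0 _ (by rw [hgev, z31, hM1 _ b31]; ring) n31) n31'⟩
      · exact ⟨a32, hh0 _ (hq0 _ (by rw [hgev, z32, hM2 _ b32]; ring) n32) n32'⟩) (by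
      rw [Finset.card_insert_of_notMem (by simp [d7])]
      simp)
  have e1 : ev g P33 = 0 := by
    rw [hq, hh, hc, ev_mul, ev_mul, ev_mul, ev_Lp_eq_zero.2 a33]; ring
  rw [hgev, hM3 _ b33] at e1
  linarith

/-- a nonzero cubic through any nine points -/
lemma exists_cubic (P : Fin 9 → Pt) :
    ∃ f : Pl, f ≠ 0 ∧ f.totalDegree ≤ 3 ∧ ∀ i, ev f (P i) = 0 := by
  classical
  let e : Fin 10 → ℕ × ℕ :=
    ![(0,0),(1,0),(0,1),(2,0),(1,1),(0,2),(3,0),(2,1),(1,2),(0,3)]
  have he : Function.Injective e := by decide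
  have he3 : ∀ i, (e i).1 + (e i).2 ≤ 3 := by decide
  let μ : Fin 10 → (Fin 2 →₀ ℕ) := fun i =>
    Finsupp.single 0 (e i).1 + Finsupp.single 1 (e i).2
  have hμ : Function.Injective μ := by
    intro i j h
    apply he
    have h0 := DFunLike.congr_fun h 0
    have h1 := DFunLike.congr_fun h 1
    simp [μ] at h0 h1
    exact Prod.ext h0 h1
  let T : (Fin 10 → ℝ) →ₗ[ℝ] Pl :=
    { toFun := fun c => ∑ i, monomial (μ i) (c i)
      map_add' := by intro x y; simp [Finset.sum_add_distrib]
      map_smul' := by intro r x; simp [Finset.smul_sum, smul_monomial] }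
  let E : Pl →ₗ[ℝ] (Fin 9 → ℝ) :=
    { toFun := fun f i => ev f (P i)
      map_add' := by intro x y; ext i; simp [ev]
      map_smul' := by intro r x; ext i; simp [ev] }
  have hk : LinearMap.ker (E ∘ₗ T) ≠ ⊥ := by
    apply LinearMap.ker_ne_bot_of_finrank_lt
    simp
  obtain ⟨c, hc, hc0⟩ := (Submodule.ne_bot_iff _).1 hk
  refine ⟨T c, ?_, ?_, ?_⟩
  · intro h
    apply hc0
    ext j
    have : coeff (μ j) (T c) = c j := by
      simp only [T, LinearMap.coe_mk, AddHom.coe_mk, coeff_sum, coeff_monomial]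
      rw [Finset.sum_eq_single j]
      · simp
      · intro b _ hb
        rw [if_neg (fun h => hb (hμ h))]
      · simp
    rw [h] at this
    simpa using this.symm
  · simp only [T, LinearMap.coe_mk, AddHom.coe_mk]
    apply totalDegree_finsetSum_le
    intro i _
    refine (totalDegree_monomial_le _ _).trans ?_
    have := he3 i
    simp only [μ]
    rw [Finsupp.sum_add_index'] <;> simp [this]
  · intro i
    have := congrFun (LinearMap.mem_ker.1 hc) i
    simpa [E] using this

end CubicStab
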