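import Pool.Agent.P.MP_029dcd_co.Multi

/-! Induction over scales and the base scale. -/

set_option autoImplicit false

namespace CubicStab

open Finset

variable {A : Finset Pt}

lemma XX_cons {ι : Type*} (raw : Pt → ι) (lab : Pt → List ι) :
    XX A (fun v => raw v :: lab v) ≤ XX A raw + XX A lab := by
  classical
  unfold XX
  refine le_trans (card_le_card ?_) (card_union_le _ _)
  intro d hd
  simp only [mem_filter, mem_union] at hd ⊢
  by_cases h : raw d.1 = raw d.2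
  · exact Or.inr ⟨hd.1, fun e => hd.2 (by rw [h, e])⟩
  · exact Or.inl ⟨hd.1, h⟩

lemma XX_nil {ι : Type*} : XX A (fun _ => ([] : List ι)) = 0 := by
  unfold XX; simp

open Classical in
lemma class_cons {ι : Type*} (raw : Pt → ι) (lab : Pt → List ι) (h : ℕ)
    (hh : ∀ l, ((VV A).filter fun v => raw v = l).card ≤ h) (l : List ι) :
    ((VV A).filter fun v => raw v :: lab v = l).card ≤ h := by
  cases l with
  | nil => simp
  | cons a l =>
    refine le_trans (card_le_card ?_) (hh a)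
    intro v hv
    simp only [mem_filter, List.cons.injEq] at hv ⊢
    exact ⟨hv.1, hv.2.1⟩

open Classical in
theorem scales (hinj : Set.InjOn Prod.fst (A : Set Pt)) {k : ℕ} (hk : ∀ v, mult A v ≤ k)
    (θ Mx : ℝ) (hθ : 0 ≤ θ) (hθ1 : θ ≤ 1) (hM0 : 0 ≤ Mx) (hM : ∀ S ∈ Col A, (S.card : ℝ) ≤ Mx)
    (d : ℕ) : ∀ u : ℕ, 1152 ≤ u → k ≤ u → 288 ≤ θ * (u : ℝ) ^ 2 → u ^ 4 ≤ A.card →
      A.card ≤ u + d →
      ∃ lab : Pt → List (ℕ × ℕ), (∀ l, ((VV A).filter fun v => lab v = l).card ≤ u ^ 8) ∧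
        XX A lab * u ^ 4 ≤ 2 * (2 * k ^ 2 + 4 * k) * A.card ^ 2 ∧
        (1 - θ) * ((Dom A lab (u ^ 3)).card : ℝ) ≤ Mx * A.card +
          (k ^ 2 + 2) * (2 * (2 * k ^ 2 + 4 * k) + 1) * (A.card : ℝ) ^ 2 / u := by
  induction d with
  | zero =>
    intro u h1 _ _ h4 h5
    exfalso
    have : u ^ 1 < u ^ 4 := Nat.pow_lt_pow_right (by omega) (by norm_num)
    rw [pow_one] at this
    omega
  | succ d ih =>
    intro u h1 h2 h3 h4 h5
    have hu : 0 < u := by omega
    have hu' : (0 : ℝ) < u := by exact_mod_cast hu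
    have hu4 : u ≤ u ^ 4 := Nat.le_self_pow (by norm_num) u
    obtain ⟨raw, r1, r2⟩ := exists_cut hk (u ^ 4) (by positivity) (h2.trans hu4)
    have e8 : (u ^ 4) ^ 2 = u ^ 8 := by ring
    rw [e8] at r1
    by_cases hc : (2 * u) ^ 4 ≤ A.card
    · obtain ⟨lab, l1, l2, l3⟩ := ih (2 * u) (by omega) (by omega) (by
        push_cast; nlinarith [mul_nonneg hθ (sq_nonneg (u : ℝ))]) hc (by omega)
      refine ⟨fun v => raw v :: lab v,
        fun l => by convert class_cons raw lab (u ^ 8) (by convert r1) l, ?_, ?_⟩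
      · have a1 := XX_cons (A := A) raw lab
        have a2 : XX A lab * u ^ 4 * 16 = XX A lab * (2 * u) ^ 4 := by ring
        have a3 := Nat.mul_le_mul_right (u ^ 4) a1
        rw [add_mul] at a3
        nlinarith
      · have st := step hinj hk (fun v => raw v :: lab v) lab
          (fun v w e => (List.cons.inj e).2) (u ^ 3) ((2 * u) ^ 3) ((2 * u) ^ 5) ((2 * u) ^ 8)
          (by positivity) (by convert l1) (by
            calc 36 * (2 * u) ^ 5 = 1152 * u ^ 5 := by ring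
              _ ≤ u * u ^ 5 := Nat.mul_le_mul_right _ h1
              _ = (u ^ 3) ^ 2 := by ring)
        set K : ℝ := 2 * k ^ 2 + 4 * k with hK
        have hK0 : 0 ≤ K := by positivity
        set n : ℝ := (A.card : ℝ) with hn
        have hn0 : 0 ≤ n := by positivity
        have b1 : (XX A lab : ℝ) * (2 * u) ^ 4 ≤ 2 * K * n ^ 2 := by
          rw [hK, hn]; exact_mod_cast l2
        have b2 : (2 * (u : ℝ)) ^ 4 ≤ n := by rw [hn]; exact_mod_cast hc
        have b3 : n + XX A lab ≤ (2 * K + 1) * n ^ 2 / (2 * u) ^ 4 := by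
          rw [le_div_iff₀ (by positivity)]
          nlinarith [mul_le_mul_of_nonneg_left b2 hn0]
        have b4 : ((k : ℝ) ^ 2 * (((2 * u) ^ 8 : ℕ) : ℝ) / (((2 * u) ^ 5 : ℕ) : ℝ) +
            2 * (((2 * u) ^ 3 : ℕ) : ℝ)) = (k ^ 2 + 2) * (2 * u) ^ 3 := by
          push_cast; field_simp
        rw [b4] at st
        have b5 : ((k : ℝ) ^ 2 + 2) * (2 * u) ^ 3 * (n + XX A lab) ≤
            (k ^ 2 + 2) * (2 * K + 1) * n ^ 2 / (2 * u) := by
          refine (mul_le_mul_of_nonneg_left b3 (by positivity)).trans (le_of_eq ?_)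
          field_simp
        have b6 : ((k : ℝ) ^ 2 + 2) * (2 * K + 1) * n ^ 2 / u =
            2 * ((k ^ 2 + 2) * (2 * K + 1) * n ^ 2 / (2 * u)) := by field_simp
        have b7 : (0 : ℝ) ≤ (k ^ 2 + 2) * (2 * K + 1) * n ^ 2 / (2 * u) := by positivity
        push_cast at l3
        rw [b6]
        have b8 := mul_le_mul_of_nonneg_left (st.trans (add_le_add_right b5 _))
          (sub_nonneg.2 hθ1)
        nlinarith [mul_nonneg hθ b7]
    · refine ⟨fun v => raw v :: [], fun l => by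
        convert class_cons raw (fun _ => []) (u ^ 8) (by convert r1) l, ?_, ?_⟩
      · have a1 := XX_cons (A := A) raw (fun _ => [])
        rw [XX_nil, add_zero] at a1
        have a3 := Nat.mul_le_mul_right (u ^ 4) a1
        nlinarith
      · have := final_step hinj (fun v => raw v :: []) (u ^ 3) θ Mx hθ hθ1 hM0 hM (by
          have a1 : (A.card : ℝ) ≤ (2 * u) ^ 4 := by exact_mod_cast (not_le.1 hc).le
          have a2 := mul_le_mul_of_nonneg_right h3 (show (0 : ℝ) ≤ (u : ℝ) ^ 4 by positivity)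
          push_cast
          nlinarith)
        refine this.trans (le_add_of_nonneg_right (by positivity))

def UU {ι : Type*} (A : Finset Pt) (lab : Pt → ι) (P : Pt) : ℕ → Pt → Prop
  | 0, _ => True
  | t + 1, v => ∃ w, NE A 1 P v w ∧ lab w = lab v ∧ UU A lab P t w

open Classical in
noncomputable def FL (A : Finset Pt) : Finset (Pt × Pt) :=
  (A ×ˢ VV A).filter fun x => On x.1 x.2

lemma mem_FL {x : Pt × Pt} : x ∈ FL A ↔ x.1 ∈ A ∧ IsV A x.2 ∧ On x.1 x.2 := by
  classical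
  unfold FL
  rw [mem_filter, mem_product, mem_VV, and_assoc]

open Classical in
lemma no_next {s : ℝ} (hs : s ≠ 0) :
    ((FL A).filter fun x => ¬ ∃ w, NE A s x.1 x.2 w).card ≤ A.card := by
  apply card_le_card_of_injOn Prod.fst
  · intro x hx
    exact (mem_FL.1 (mem_filter.1 hx).1).1
  · intro x hx y hy e
    obtain ⟨a1, a2⟩ := mem_filter.1 hx
    obtain ⟨b1, b2⟩ := mem_filter.1 hy
    rw [mem_FL] at a1 b1
    rw [← e] at b1 b2
    exact Prod.ext e (last_unique hs a1.1 a1.2.1 b1.2.1 a1.2.2 b1.2.2 a2 b2)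

open Classical in
lemma not_UU {ι : Type*} (lab : Pt → ι) (t : ℕ) :
    ((FL A).filter fun x => ¬ UU A lab x.1 t x.2).card ≤ t * (A.card + XX A lab) := by
  induction t with
  | zero => simp [UU]
  | succ t ih =>
    let S2 := (FL A).filter fun x => ∃ w, NE A 1 x.1 x.2 w ∧ lab x.2 ≠ lab w
    let S3 := (FL A).filter fun x => ∃ w, NE A 1 x.1 x.2 w ∧ ¬ UU A lab x.1 t w
    have hsub : ((FL A).filter fun x => ¬ UU A lab x.1 (t + 1) x.2) ⊆
        ((FL A).filter fun x => ¬ ∃ w, NE A 1 x.1 x.2 w) ∪ S2 ∪ S3 := by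
      intro x hx
      obtain ⟨a1, a2⟩ := mem_filter.1 hx
      simp only [S2, S3, mem_union, mem_filter]
      by_cases h : ∃ w, NE A 1 x.1 x.2 w
      · obtain ⟨w, hw⟩ := h
        by_cases h2 : lab x.2 = lab w
        · exact Or.inr ⟨a1, w, hw, fun h3 => a2 ⟨w, hw, h2.symm, h3⟩⟩
        · exact Or.inl (Or.inr ⟨a1, w, hw, h2⟩)
      · exact Or.inl (Or.inl ⟨a1, h⟩)
    have h2 : S2.card ≤ XX A lab := by
      unfold XX
      apply card_le_card_of_forall_subsingleton (fun x d => NE A 1 x.1 d.1 d.2 ∧ d.1 = x.2)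
      · intro x hx
        obtain ⟨-, w, h1, h2⟩ := mem_filter.1 hx
        exact ⟨(x.2, w), by simp only [mem_filter]; exact ⟨h1.mem_RE, h2⟩, h1, rfl⟩
      · intro d _ x hx y hy
        exact Prod.ext
          (pt_unique hx.2.1.1.2.2.1 hx.2.1.2.1 hx.2.1.2.2.1 hy.2.1.2.1 hy.2.1.2.2.1)
          (hx.2.2.symm.trans hy.2.2)
    have h3 : S3.card ≤ ((FL A).filter fun x => ¬ UU A lab x.1 t x.2).card := by
      apply card_le_card_of_forall_subsingleton (fun x y => NE A 1 x.1 x.2 y.2 ∧ y.1 = x.1)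
      · intro x hx
        obtain ⟨h0, w, h1, h2⟩ := mem_filter.1 hx
        exact ⟨(x.1, w), mem_filter.2 ⟨mem_FL.2 ⟨(mem_FL.1 h0).1, h1.1.2.1, h1.2.2.1⟩, h2⟩,
          h1, rfl⟩
      · intro d _ x hx y hy
        have e : x.1 = y.1 := hx.2.2.symm.trans hy.2.2
        have t := hy.2.1
        rw [← e] at t
        exact Prod.ext e (hx.2.1.unique' t)
    have h1 := no_next (A := A) (s := 1) one_ne_zero
    have := (card_le_card hsub).trans ((card_union_le _ _).trans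
      (Nat.add_le_add_right (card_union_le _ _) _))
    rw [Nat.succ_mul]
    omega

def Bk (A : Finset Pt) (M : ℕ) (P v : Pt) : Prop :=
  ∃ v0 v1, NE A 1 P v0 v1 ∧ NE A 1 P v1 v ∧ Gd A M v0 v1

open Classical in
lemma not_Bk (M : ℕ) : ((FL A).filter fun x => ¬ Bk A M x.1 x.2).card ≤
    2 * A.card + 3 ^ M * (12 * t2 A + 24 * A.card) := by
  let S1 := (FL A).filter fun x => ¬ ∃ w, NE A (-1) x.1 x.2 w
  let S2 := (FL A).filter fun x => ∃ w, NE A 1 x.1 w x.2 ∧ ¬ ∃ z, NE A (-1) x.1 w z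
  let S3 := (FL A).filter fun x => ∃ v0 v1, NE A 1 x.1 v0 v1 ∧ NE A 1 x.1 v1 x.2 ∧ ¬ Gd A M v0 v1
  have fl : ∀ {P v w : Pt}, NE A (-1) P v w → NE A 1 P w v := fun h => by
    have := h.flip; rwa [neg_neg] at this
  have hsub : ((FL A).filter fun x => ¬ Bk A M x.1 x.2) ⊆ S1 ∪ S2 ∪ S3 := by
    intro x hx
    obtain ⟨a1, a2⟩ := mem_filter.1 hx
    simp only [S1, S2, S3, mem_union, mem_filter]
    by_cases h : ∃ w, NE A (-1) x.1 x.2 w
    · obtain ⟨w, hw⟩ := h
      by_cases h2 : ∃ z, NE A (-1) x.1 w z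
      · obtain ⟨z, hz⟩ := h2
        exact Or.inr ⟨a1, z, w, fl hz, fl hw, fun h3 => a2 ⟨z, w, fl hz, fl hw, h3⟩⟩
      · exact Or.inl (Or.inr ⟨a1, w, fl hw, h2⟩)
    · exact Or.inl (Or.inl ⟨a1, h⟩)
  have h1 : S1.card ≤ A.card := no_next (by norm_num)
  have h2 : S2.card ≤ S1.card := by
    apply card_le_card_of_forall_subsingleton (fun x y => NE A 1 x.1 y.2 x.2 ∧ y.1 = x.1)
    · intro x hx
      obtain ⟨h0, w, h1, h2⟩ := mem_filter.1 hx
      exact ⟨(x.1, w), mem_filter.2 ⟨mem_FL.2 ⟨(mem_FL.1 h0).1, h1.1.1, h1.2.1⟩, h2⟩, h1, rfl⟩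
    · intro d _ x hx y hy
      have e : x.1 = y.1 := hx.2.2.symm.trans hy.2.2
      have t := hy.2.1
      rw [← e] at t
      exact Prod.ext e (hx.2.1.unique t)
  have h3 : S3.card ≤ ((DD A).filter fun d => ¬ Gd A M d.1 d.2).card := by
    apply card_le_card_of_forall_subsingleton
      (fun x d => NE A 1 x.1 d.1 d.2 ∧ NE A 1 x.1 d.2 x.2)
    · intro x hx
      obtain ⟨-, v0, v1, h1, h2, h3⟩ := mem_filter.1 hx
      exact ⟨(v0, v1), mem_filter.2 ⟨mem_DD.2 h1.1, h3⟩, h1, h2⟩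
    · intro d _ x hx y hy
      have e : x.1 = y.1 :=
        pt_unique hx.2.1.1.2.2.1 hx.2.1.2.1 hx.2.1.2.2.1 hy.2.1.2.1 hy.2.1.2.2.1
      have t := hy.2.2
      rw [← e] at t
      exact Prod.ext e (hx.2.2.unique t)
  have h4 := bad_le (A := A) M
  have := (card_le_card hsub).trans ((card_union_le _ _).trans
    (Nat.add_le_add_right (card_union_le _ _) _))
  omega

open Classical in
lemma good_flag (hinj : Set.InjOn Prod.fst (A : Set Pt)) {k : ℕ} (hk : ∀ v, mult A v ≤ k)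
    {ι : Type*} (lab : Pt → ι) (t : ℕ) (hkt : 6 * k + 8 ≤ t) {P v : Pt}
    (h1 : Bk A (20 * t + 140) P v) (h2 : UU A lab P t v) :
    ∃ S ∈ Col A, (∀ Q ∈ A, On Q v → Q ∈ S) ∧ t ≤ (S ∩ LC A lab (lab v)).card := by
  obtain ⟨v0, v1, n0, n1, hG⟩ := h1
  obtain ⟨a, b, c, φ, z, HL, o0, o1, z0, z1, hφ, hz⟩ := develop (N := t + 5) hG (by omega)
  have hk' : ∀ v : Pt, ∀ S : Finset Pt, S ⊆ A → (∀ P ∈ S, On P v) → S.card ≤ k :=
    fun v S hS hS' => le_trans (card_le_card fun P hP => mem_thru.2 ⟨hS hP, hS' P hP⟩) (hk v)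
  obtain ⟨f, hf, hf3, hz0⟩ := HL.irred_cubic k hinj hk' (t + 1) (by omega) (by omega)
  have eP : a 0 = P := pt_unique n0.1.2.2.1 o0 o1 n0.2.1 n0.2.2.1
  have hpos : 0 < v1.1 - v0.1 := by linarith [n0.2.2.2]
  have ne : ∀ i, i + 1 ≤ t + 5 → NE A 1 P (z (i + 1)) (z (i + 2)) := by
    intro i hi
    obtain ⟨a1, a2, a3⟩ := hz (i + 1) hi
    refine ⟨a1, eP ▸ (hz i (by omega)).2.1, eP ▸ a2, ?_⟩
    rw [one_mul]
    exact (mul_pos_iff_of_pos_left hpos).1 a3
  have z2 : z 2 = v := by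
    have := ne 0 (by omega)
    rw [zero_add, z1] at this
    exact this.unique n1
  have lb : ∀ j, j ≤ t → lab (z (j + 2)) = lab v ∧ UU A lab P (t - j) (z (j + 2)) := by
    intro j
    induction j with
    | zero => intro _; rw [zero_add, z2]; exact ⟨rfl, h2⟩
    | succ j ih =>
      intro hj
      obtain ⟨e1, e2⟩ := ih (by omega)
      have : t - j = (t - (j + 1)) + 1 := by omega
      rw [this] at e2
      obtain ⟨w, w1, w2, w3⟩ := e2
      have : z (j + 1 + 2) = w := (ne (j + 1) (by omega)).unique w1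
      rw [this]
      exact ⟨w2.trans e1, w3⟩
  refine ⟨zs A f, mem_Col.2 ⟨f, hf, hf3, rfl⟩, ?_, ?_⟩
  · intro Q hQ hQv
    have : On Q (φ 0 1) := by rw [hφ, z2]; exact hQv
    rw [mem_zs]
    refine ⟨hQ, ?_⟩
    rcases (HL.on_iff 0 1 (by omega) Q hQ).1 this with rfl | rfl | rfl
    · exact (hz0 0 (by omega)).1
    · exact (hz0 1 (by omega)).2.1
    · exact (hz0 0 (by omega)).2.2
  · rw [← card_range t]
    apply card_le_card_of_injOn (fun j => b (j + 1))
    · intro j hj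
      have hj' : j < t := by simpa using hj
      have hb := HL.hb (j + 1) (by omega)
      refine mem_coe.2 (mem_inter.2 ⟨mem_zs.2 ⟨hb, (hz0 (j + 1) (by omega)).2.1⟩,
        mem_LC.2 ⟨hb, z (j + 2), (ne j (by omega)).1.2.1, (lb j (by omega)).1, ?_⟩⟩)
      rw [← hφ (j + 1)]
      exact HL.ob 0 (j + 1) (by omega)
    · intro i hi j hj e
      have hi' : i < t := by simpa using hi
      have hj' : j < t := by simpa using hj
      by_contra hne
      exact HL.bb (i + 1) (j + 1) (by omega) (by omega) (by omega) e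

open Classical in
theorem base_count (hinj : Set.InjOn Prod.fst (A : Set Pt)) {k : ℕ} (hk : ∀ v, mult A v ≤ k)
    {ι : Type*} (lab : Pt → ι) (t : ℕ) (hkt : 6 * k + 8 ≤ t) :
    A.card ^ 2 ≤ (Dom A lab t).card + A.card + k * (2 * A.card +
      3 ^ (20 * t + 140) * (12 * t2 A + 24 * A.card) + t * (A.card + XX A lab)) := by
  let B := ((FL A).filter fun x => ¬ Bk A (20 * t + 140) x.1 x.2) ∪
    ((FL A).filter fun x => ¬ UU A lab x.1 t x.2)
  have hB : B.card ≤ 2 * A.card + 3 ^ (20 * t + 140) * (12 * t2 A + 24 * A.card) +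
      t * (A.card + XX A lab) :=
    (card_union_le _ _).trans (add_le_add (not_Bk _) (not_UU lab t))
  let W := B.biUnion fun x => (thru A x.2).image fun Q => (x.1, Q)
  have hW : W.card ≤ B.card * k :=
    card_biUnion_le_card_mul _ _ _ fun x _ => card_image_le.trans (hk x.2)
  have hsub : A ×ˢ A ⊆ Dom A lab t ∪ A.diag ∪ W := by
    intro q hq
    obtain ⟨a1, a2⟩ := mem_product.1 hq
    rw [mem_union, mem_union]
    by_cases e : q.1 = q.2
    · exact Or.inl (Or.inr (mem_diag.2 ⟨a1, e⟩))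
    obtain ⟨b1, b2, b3⟩ := xpt_spec hinj a1 a2 e
    have hF : (q.1, xpt q.1 q.2) ∈ FL A := mem_FL.2 ⟨a1, b1, b2⟩
    by_cases hb : (q.1, xpt q.1 q.2) ∈ B
    · exact Or.inr (mem_biUnion.2 ⟨_, hb, mem_image.2 ⟨q.2, mem_thru.2 ⟨a2, b3⟩, rfl⟩⟩)
    · simp only [B, mem_union, mem_filter, hF, true_and, not_or, not_not] at hb
      obtain ⟨S, hS, c1, c2⟩ := good_flag hinj hk lab t hkt hb.1 hb.2
      exact Or.inl (Or.inl (mem_Dom.2 ⟨a1, a2, e, S, hS, c1 _ a1 b2, c1 _ a2 b3, c2⟩))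
  have := (card_le_card hsub).trans ((card_union_le _ _).trans
    (Nat.add_le_add_right (card_union_le _ _) _))
  rw [card_product, diag_card] at this
  have h2 := Nat.mul_le_mul_left k hB
  rw [sq]
  nlinarith

end CubicStab
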